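import Pool.Agent.K3h75.FF.Stm

/-!
# Statements: projective curves
-/

set_option autoImplicit false

namespace Pool.Agent.K3h75.FF

open Pool.Agent.Y223.G

/-- **XG**: gluing of charts over different affine pieces of the curve. Compare the second part of
`S_GLW` (there `ν = s' / s`). -/
def S_XG : Prop := ∀ (k k' O O' K K₂ Ω : Type) [CommRing k] [CommRing k'] [CommRing O]
  [CommRing O'] [Field K] [Field K₂] [Finite Ω] [Algebra k O] [Algebra O K] [Algebra k K]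
  [IsScalarTower k O K] [Algebra k' O'] [Algebra O' K] [Algebra k' K] [IsScalarTower k' O' K]
  [Algebra k K₂] [Algebra k' K₂] (ε : LP K →ₐ[k] K₂) (ε' : LP K →ₐ[k'] K₂),
  (∀ w, ε' w = ε w) → Ext2 ε → Ext2 ε' → ∀ (m : ℕ) (z : Ω → Fin (m + 1) → K) (s : k) (s' : k'),
  algebraMap k K s ≠ 0 → algebraMap k' K s' ≠ 0 → ∀ (N N' : Type) [Finite N] [Finite N']
  (𝔔 : N → Ideal (OL O (K := K) s)) (𝔔' : N' → Ideal (OL O' (K := K) s')) (e : N → ℕ)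
  (e' : N' → ℕ) (W : N → Ω → Fin (m + 1) → ℕ) (W' : N' → Ω → Fin (m + 1) → ℕ),
  (∀ i, 0 < e i) → (∀ i, 0 < e' i) → ∀ (π π' : K), π ≠ 0 → π' ≠ 0 → ∀ (d : ℕ) (Φ : Ω → K),
  (∀ ω, Φ ω ≠ 0) → ∀ (ν : K) (hν : ν ∈ OL O (K := K) s),
  (∀ i, (⟨ν, hν⟩ : OL O (K := K) s) ∈ 𝔔 i) →
  (∀ x ∈ OL O' (K := K) s', ∃ n : ℕ, ν ^ n * x ∈ OL O (K := K) s) →
  (∃ n : ℕ, ν ^ n * (π' / π) ∈ OL O (K := K) s ∧ ν ^ n * (π / π') ∈ OL O (K := K) s) →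
  hm 0 (ε (hm 0 ν)) ∈ GRW O ε z s 𝔔 e W π d Φ ∧
  ∀ f ∈ GRW O' ε' z s' 𝔔' e' W' π' d Φ, ∃ n : ℕ,
    hm 0 (ε (hm 0 ν)) ^ n * f ∈ GRW O ε z s 𝔔 e W π d Φ

/-- **FORMSK**: invariant forms with coefficients in `κ` which do not vanish at a given point
(extracted from the proof of `S_GVW`). -/
def S_FORMSK : Prop := ∀ (κ K G : Type) [CommRing κ] [Field K] [Algebra κ K] [Group G] [Finite G]
  (ρ : G →* (K ≃ₐ[κ] K)) (m : ℕ) (z : Fin (m + 1) → K), (∀ j, z j ≠ 0) →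
  (∀ g j, ∃ i, ρ g (z j) = z i) → ∃ (d : ℕ) (S : Set K), 1 ≤ d ∧ S.Finite ∧
    (∀ Φ ∈ S, Φ ∈ FS κ z d ∧ Φ ≠ 0 ∧ ∀ g, ρ g Φ = Φ) ∧
    ∀ V : ValuationSubring K, (∀ c : κ, algebraMap κ K c ∈ V) →
      ∃ Φ ∈ S, ∀ y ∈ MN z d, y / Φ ∈ V

/-- **INV**: inertia groups of maximal ideals of a Dedekind domain and of valuation rings. -/
def S_INV : Prop := ∀ (O M G : Type) [CommRing O] [IsDomain O] [IsDedekindDomain O] [Field M]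
  [Algebra O M] [IsFractionRing O M] [Group G] (ρ : G →* (M ≃+* M)) (T : G →* (O ≃+* O)),
  (∀ g o, ρ g (algebraMap O M o) = algebraMap O M (T g o)) → ∀ 𝔓 : Ideal O, 𝔓.IsMaximal →
  𝔓 ≠ ⊥ → ∃ V : ValuationSubring M, (∀ o, algebraMap O M o ∈ V) ∧
    ∀ g, (∀ o, T g o - o ∈ 𝔓) ↔
      ∀ y ∈ V, ∃ e : V, e ∈ IsLocalRing.maximalIdeal V ∧ (e : M) = ρ g y - y

/-- **CURVE**: the two affine pieces of the curve with the function field `M`: the first one is the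
complement of the poles of `t`, the second one contains the poles of `t` and no other ramified
points, `f` vanishes at the ramified points of the first one. -/
def S_CURVE : Prop := ∀ (κ M G : Type) [Field κ] [PerfectField κ] [Field M]
  [Algebra (RatFunc κ) M] [FiniteDimensional (RatFunc κ) M] [Algebra.IsSeparable (RatFunc κ) M]
  [Algebra κ M] [IsScalarTower κ (RatFunc κ) M] [Group G] [Finite G] [MulSemiringAction G M]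
  [FaithfulSMul G M],
  (∀ (g : G) (c : RatFunc κ), g • algebraMap (RatFunc κ) M c = algebraMap (RatFunc κ) M c) →
  ∃ (O₀ O₁ : Subalgebra κ M) (t f : M) (δ : ℕ), IsDedekindDomain O₀ ∧ IsDedekindDomain O₁ ∧
    Algebra.FiniteType κ O₀ ∧ Algebra.FiniteType κ O₁ ∧ IsFractionRing O₀ M ∧
    IsFractionRing O₁ M ∧ (∀ (g : G), ∀ y ∈ O₀, g • y ∈ O₀) ∧ (∀ (g : G), ∀ y ∈ O₁, g • y ∈ O₁) ∧
    (∀ V : ValuationSubring M, (∀ c : κ, algebraMap κ M c ∈ V) →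
      (∀ y ∈ O₀, y ∈ V) ∨ (∀ y ∈ O₁, y ∈ V)) ∧
    t ≠ 0 ∧ f ≠ 0 ∧ (∀ g : G, g • t = t) ∧ (∀ g : G, g • f = f) ∧ t ∈ O₀ ∧ f ∈ O₀ ∧ t⁻¹ ∈ O₁ ∧
    t ^ δ / f ∈ O₁ ∧ f / t ^ δ ∈ O₁ ∧
    (∀ y ∈ O₁, ∃ r : ℕ, (t * f) ^ r * y ∈ O₀) ∧ (∀ y ∈ O₀, ∃ r : ℕ, t⁻¹ ^ r * y ∈ O₁) ∧
    (∀ 𝔓 : Ideal O₀, 𝔓.IsMaximal → 𝔓 ≠ ⊥ →
      (∃ g : G, g ≠ 1 ∧ ∀ y : O₀, ∃ e ∈ 𝔓, (e : M) = g • (y : M) - y) →
        ∃ e ∈ 𝔓, (e : M) = f) ∧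
    (∀ 𝔓 : Ideal O₁, 𝔓.IsMaximal → 𝔓 ≠ ⊥ →
      (∃ g : G, g ≠ 1 ∧ ∀ y : O₁, ∃ e ∈ 𝔓, (e : M) = g • (y : M) - y) →
        ∃ e ∈ 𝔓, (e : M) = t⁻¹)

end Pool.Agent.K3h75.FF
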