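import Pool.Agent.K3h75.FF.RamEb
import Pool.Agent.R383.TM.Mod
import Pool.Agent.K3h75.TV.Fml2

/-!
# Statements: numerical data at the wild primes, family of the coordinates (Dedekind domains)
-/

set_option autoImplicit false

namespace Pool.Agent.K3h75.FF

open Pool.Agent.Y223.G Pool.Agent.W418.LU2 Pool.Agent.R383.TM Module
open Pool.Agent.K3h75.TO Pool.Agent.K3h22.PK Pool.Agent.K3h75.TV

/-- **TAMF**: if the orders of the inertia groups are not divisible by the square of the residue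
characteristic, then the wild inertia groups are trivial or cyclic of prime order. -/
def S_TAMF : Prop := ∀ (k O G : Type) [CommRing k] [CommRing O] [IsDomain O] [IsDedekindDomain O]
  [Group G] [Finite G] [Algebra k O] (T : G →* (O ≃ₐ[k] O)), (∀ g, (∀ o, T g o = o) → g = 1) →
  ∀ 𝔓 : Ideal O, 𝔓.IsMaximal → 𝔓 ≠ ⊥ →
  (∀ p : ℕ, p.Prime → (p : O) ∈ 𝔓 → ¬ p ^ 2 ∣ Nat.card {g // ∀ o, T g o - o ∈ 𝔓}) →
  ∃ (p : ℕ) (τ : G), p.Prime ∧ τ ^ p = 1 ∧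
    ∀ g, (∀ o, T g o - o ∈ 𝔓) → (∀ o ∈ 𝔓, T g o - o ∈ 𝔓 ^ 2) → g ∈ Subgroup.zpowers τ

/-- **NUMF**: the numerical data at a wild prime. -/
def S_NUMF : Prop := ∀ (k O K G : Type) [CommRing k] [IsDomain k] [CommRing O] [IsDomain O]
  [IsDedekindDomain O] [Field K] [Group G] [Finite G] [Algebra k O] [Algebra O K] [Algebra k K]
  [IsScalarTower k O K] (ρ : G →* (K ≃ₐ[k] K)) (T : G →* (O ≃ₐ[k] O)), GF k O K G ρ T →
  ∀ 𝔓 : Ideal O, 𝔓.IsMaximal → ∀ g, g ≠ 1 → Wild T g 𝔓 → ∃ p l : ℕ, p.Prime ∧ 1 ≤ l ∧ 𝔓 ≠ ⊥ ∧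
    g ^ p = 1 ∧ (p : O) ∈ 𝔓 ^ ((p - 1) * l) ∧ (∀ o, T g o - o ∈ 𝔓 ^ (l + 1)) ∧
    (∃ π ∈ 𝔓, T g π - π ∉ 𝔓 ^ (l + 2)) ∧
    ∀ h, (h ≠ 1 ∧ Wild T h 𝔓) ↔ ∃ e : ℕ, 1 ≤ e ∧ e < p ∧ h = g ^ e

/-- **FMLF**: the family of the coordinates (compare `Pool.Agent.K3h75.TV.S_FML2`, where
`O = 𝓞 M`). -/
def S_FMLF : Prop := S_NUMF → S_PK2 → S_VREG → S_VNZ → S_CHT → S_CH0 →
  ∀ (k O M K G : Type) [CommRing k] [IsDomain k] [CommRing O] [IsDomain O]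
  [IsDedekindDomain O] [Field M] [Field K] [Group G] [Finite G] [Algebra k O] [Algebra O K]
  [Algebra k K] [IsScalarTower k O K] [Algebra M K] (ρ : G →* (K ≃ₐ[k] K))
  (T : G →* (O ≃ₐ[k] O)), GF k O K G ρ T →
  (∀ o : O, ∃ x : M, algebraMap M K x = algebraMap O K o) →
  (∀ x : M, ∃ a b : O, b ≠ 0 ∧ algebraMap M K x * algebraMap O K b = algebraMap O K a) →
  ∀ (Λ : Type) [AddCommGroup Λ] [DistribMulAction G Λ] (P : Finset Λ), SmP P →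
  (∀ (g : G), ∀ μ ∈ P, g • μ ∈ P) →
  ∀ x : Λ → K, x 0 = 1 → (∀ a b, x (a + b) = x a * x b) → LinearIndependent O x →
  IntermediateField.adjoin M (Set.range x) = ⊤ → (∀ g a, ρ g (x a) = x (g • a)) →
  ∃ (n m : ℕ) (z : Fin (m + 1) → K), 1 ≤ n ∧ (∀ j, z j ≠ 0) ∧
    (∀ j, z j ∈ Submodule.span O (x '' (Pk P n : Set Λ))) ∧ (∀ μ ∈ Pk P n, ∃ j, z j = x μ) ∧
    IntermediateField.adjoin M (Set.range fun j => z j / z 0) = ⊤ ∧
    (∀ g j, ρ g (z j) ∈ Submodule.span O (Set.range z)) ∧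
    (∀ j, IsRegularRing (Algebra.adjoin O (Set.range fun i => z i / z j))) ∧
    ∃ (e : Ideal O → ℕ) (w : Ideal O → Fin (m + 1) → ℕ), WD k O K G ρ T z e w

end Pool.Agent.K3h75.FF
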