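import Pool.Agent.K3h75.FF.Stm2

/-!
# Statement: the family of the coordinates, uniformly in the Dedekind domain
-/

set_option autoImplicit false

namespace Pool.Agent.K3h75.FF

open Pool.Agent.Y223.G Pool.Agent.W418.LU2 Pool.Agent.R383.TM Module
open Pool.Agent.K3h75.TO Pool.Agent.K3h22.PK Pool.Agent.K3h75.TV

/-- **FMLU**: the family of the coordinates, chosen independently of the Dedekind domain `O`. -/
def S_FMLU : Prop := S_NUMF → S_PK2 → S_VREG → S_VNZ → S_CHT → S_CH0 →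
  ∀ (K G Λ : Type) [Field K] [Group G] [Finite G] [AddCommGroup Λ] [DistribMulAction G Λ]
  (σ : G →* (K ≃+* K)) (P : Finset Λ), SmP P → (∀ (g : G), ∀ μ ∈ P, g • μ ∈ P) →
  ∀ x : Λ → K, x 0 = 1 → (∀ a b, x (a + b) = x a * x b) → (∀ g a, σ g (x a) = x (g • a)) →
  ∃ (n m : ℕ) (z : Fin (m + 1) → K), 1 ≤ n ∧ (∀ j, z j ≠ 0) ∧
    (∀ j, z j ∈ Submodule.span ℤ (x '' (Pk P n : Set Λ))) ∧ (∀ μ ∈ Pk P n, ∃ j, z j = x μ) ∧
    (∀ g j, ∃ i, σ g (z j) = z i) ∧
  ∀ (k O M : Type) [CommRing k] [IsDomain k] [CommRing O] [IsDomain O]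
  [IsDedekindDomain O] [Field M] [Algebra k O] [Algebra O K]
  [Algebra k K] [IsScalarTower k O K] [Algebra M K] (ρ : G →* (K ≃ₐ[k] K))
  (T : G →* (O ≃ₐ[k] O)), (∀ g y, ρ g y = σ g y) → GF k O K G ρ T →
  (∀ o : O, ∃ x : M, algebraMap M K x = algebraMap O K o) →
  (∀ x : M, ∃ a b : O, b ≠ 0 ∧ algebraMap M K x * algebraMap O K b = algebraMap O K a) →
  LinearIndependent O x → IntermediateField.adjoin M (Set.range x) = ⊤ →
    IntermediateField.adjoin M (Set.range fun j => z j / z 0) = ⊤ ∧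
    (∀ j, IsRegularRing (Algebra.adjoin O (Set.range fun i => z i / z j))) ∧
    ∃ (e : Ideal O → ℕ) (w : Ideal O → Fin (m + 1) → ℕ), WD k O K G ρ T z e w

end Pool.Agent.K3h75.FF
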