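import Pool.Agent.Y223.G.Defs
import Pool.Agent.H920R2.Up1

/-!
# Statements of the scheme-theoretic parts
-/

set_option autoImplicit false

namespace Pool.Agent.K3h75.FF

open Pool.Agent.Y223.G AlgebraicGeometry CategoryTheory

/-- **REGSM**: a regular ring of finite type over a perfect field is smooth. -/
def S_REGSM : Prop := ∀ (κ B : Type) [Field κ] [PerfectField κ] [CommRing B] [Algebra κ B]
  [Algebra.FiniteType κ B], IsRegularRing B → Algebra.Smooth κ B

/-- **SCH2**: homogeneous coordinates of a regular projective modification of `Spec A` give a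
resolution of singularities of `Spec A`. -/
def S_SCH2 : Prop := S_REGSM → ∀ (κ A Y : Type) [Field κ] [PerfectField κ] [CommRing A] [IsDomain A]
  [Algebra κ A] [Algebra.FiniteType κ A] [Field Y] [Algebra A Y] [IsFractionRing A Y] (I : Type)
  [Finite I] (zz : I → Y) (J : Set I), ModelG False (⊥ : Submodule A Y) ⊤ zz J →
  Pool.Agent.H920R2.HasResolution (X := Spec (CommRingCat.of A))
    (Spec.map (CommRingCat.ofHom (algebraMap κ A)))

end Pool.Agent.K3h75.FF
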