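import Pool.Agent.Y550.H.Linw

/-!
# From compatible charts to a model
-/

set_option autoImplicit false
set_option linter.unusedSectionVars false

namespace Pool.Agent.K3h75.FF

open Pool.Agent.Y223.G Pool.Agent.Y550.H

/-- Compatible charts with a second grading, which are regular outside the vertex and which dominate
all valuations over `A`, give a regular model over `A`. -/
theorem asm (hAT2 : S_ATLAS2) (hSTEP : S_ASTEP2) (hDOWN : S_DOWN) (hMODEL : S_MODEL)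
    {A Y Y₂ : Type} [CommRing A] [IsDomain A] [IsNoetherianRing A] [Field Y] [Field Y₂]
    [Algebra A Y] [Algebra A Y₂] (hinj : Function.Injective (algebraMap A Y))
    (εY : LP Y →ₐ[A] Y₂) (hε : Ext2 εY) (n₀ : ℕ) (hn₀ : 0 < n₀) (𝒜 : Type) [Finite 𝒜]
    (R : 𝒜 → Subalgebra A (LP Y₂)) (h : 𝒜 → Y)
    (hCh : ∀ a, Ch (R a)) (hBG : ∀ a, BG εY (R a)) (hh : ∀ a, h a ≠ 0)
    (hsi : ∀ a, hm 0 (εY (hm (-1) 1)) ∈ R a)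
    (hsu : ∀ a, ∃ w : Y, w ≠ 0 ∧ hm 0 (εY (hm n₀ w)) ∈ R a ∧ hm 0 (εY (hm (-n₀) w⁻¹)) ∈ R a)
    (hrt : ∀ a b, hm 0 (εY (hm 0 (h b / h a))) ∈ R a)
    (hgl : ∀ a b, ∀ f ∈ R b, ∃ n : ℕ, hm 0 (εY (hm 0 (h b / h a))) ^ n * f ∈ R a)
    (hcv : ∀ V : ValuationSubring Y, (∀ c : A, algebraMap A Y c ∈ V) →
      ∃ V₂ : ValuationSubring Y₂, (∀ c : A, algebraMap A Y₂ c ∈ V₂) ∧
        (∃ a, ∀ x, hm 0 x ∈ R a → x ∈ V₂) ∧ ∀ x : Y, εY (hm 0 x) ∈ V₂ → x ∈ V)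
    (hfr : ∀ a, ∀ x : Y₂, ∃ y y' : Y₂, hm 0 y ∈ R a ∧ hm 0 y' ∈ R a ∧ y' ≠ 0 ∧ x = y / y') :
    ∃ (I : Type) (_ : Finite I) (zz : I → Y) (J : Set I),
      ModelG False (⊥ : Submodule A Y) ⊤ zz J := by
  obtain ⟨𝒱, h𝒱⟩ : ∃ 𝒱 : Set (ValuationSubring Y₂), 𝒱 = {V | (∀ c : A, algebraMap A Y₂ c ∈ V) ∧
    ∃ a, ∀ x, hm 0 x ∈ R a → x ∈ V} := ⟨_, rfl⟩
  have h𝒱k : ∀ V ∈ 𝒱, ∀ c : A, algebraMap A Y₂ c ∈ V := by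
    rw [h𝒱]
    exact fun V hV => hV.1
  obtain ⟨r, T', hT', C, H, hAt⟩ := hAT2 A Y Y₂ hinj εY hε False ⊥ 𝒱 h𝒱k n₀ hn₀
    𝒜 R h hCh hBG hh hsi hsu hrt hgl
    (by
      rw [h𝒱]
      exact fun V hV => hV.2)
    hfr (fun hf => hf.elim) (fun hf => hf.elim) (fun hf => hf.elim)
  obtain ⟨T1, hT1, C1, H1, hA1⟩ := iter hSTEP hinj εY hε False ⊥ 𝒱 h𝒱k n₀ hn₀ r T' hT'
    C H hAt
  obtain ⟨D, hD⟩ := hDOWN A Y Y₂ hinj εY hε False ⊥ 𝒱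
    (by
      intro V hV
      obtain ⟨V₂, h1, h2, h3⟩ := hcv V hV
      refine ⟨V₂, ?_, h3⟩
      rw [h𝒱]
      exact ⟨h1, h2⟩)
    n₀ hn₀ T1 C1 H1 hA1
  exact hMODEL A Y hinj False ⊥ Submodule.fg_bot ⊤ (fun _ _ _ => Subfield.mem_top _)
    n₀ T1 D H1 hD

end Pool.Agent.K3h75.FF
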