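import Pool.Agent.K3h75.FF.Stm

/-!
# Change of the base ring
-/

set_option autoImplicit false
set_option linter.unusedSectionVars false

namespace Pool.Agent.K3h75.FF

open Pool.Agent.Y223.G

section

variable {k A K : Type} [CommRing k] [CommRing A] [Field K] [Algebra k K] [Algebra A K]

/-- The conditions on a chart do not depend on the base ring. -/
theorem rb_ch (R : Subalgebra k (LP K)) (R' : Subalgebra A (LP K)) (h : ∀ f, f ∈ R' ↔ f ∈ R)
    (hft : Algebra.FiniteType A R') (hc : Ch R) : Ch R' := by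
  refine ⟨hft, ?_, ?_, ?_, ?_, ?_⟩
  · intro f hf d
    rw [h] at hf ⊢
    exact hc.gr f hf d
  · rw [h]
    exact hc.ss
  · intro d x hx
    rw [h] at hx ⊢
    exact hc.cf d x hx
  · obtain ⟨d, a, hd, ha, hm⟩ := hc.pos
    exact ⟨d, a, hd, ha, (h _).2 hm⟩
  · intro e η he he0 hη
    have he' : hm e η ∈ R := (h _).1 he
    have hr := hc.rg e η he' he0 hη
    have h1 : (loc R (hm e η) he').toSubring = (loc R' (hm e η) he).toSubring := by
      ext f
      constructor
      · rintro ⟨n, hn⟩
        exact ⟨n, (h _).2 hn⟩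
      · rintro ⟨n, hn⟩
        exact ⟨n, (h _).1 hn⟩
    exact IsRegularRing.of_ringEquiv (RingEquiv.subringCongr h1)

variable {K₂ : Type} [Field K₂] [Algebra k K₂] [Algebra A K₂]

/-- The second grading does not depend on the base ring. -/
theorem rb_bg (ε : LP K →ₐ[k] K₂) (ε' : LP K →ₐ[A] K₂) (hε : ∀ x, ε' x = ε x)
    (R : Subalgebra k (LP K₂)) (R' : Subalgebra A (LP K₂)) (h : ∀ f, f ∈ R' ↔ f ∈ R)
    (hc : BG ε R) : BG ε' R' := by
  have hle : ∀ x ∈ Submodule.span k {g | g ∈ R ∧ ∃ (d b : ℤ) (a : K), g = hm d (ε (hm b a))},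
      ∀ r : k,
      r • x ∈ Submodule.span A {g | g ∈ R' ∧ ∃ (d b : ℤ) (a : K), g = hm d (ε' (hm b a))} := by
    intro x hx
    induction hx using Submodule.span_induction with
    | mem g hg =>
      intro r
      obtain ⟨hg, d, b, a, rfl⟩ := hg
      refine Submodule.subset_span ⟨(h _).2 (R.smul_mem hg r), d, b, r • a, ?_⟩
      rw [hε, smul_hm, ← map_smul, smul_hm]
    | zero => intro r; rw [smul_zero]; exact Submodule.zero_mem _
    | add x y _ _ h1 h2 => intro r; rw [smul_add]; exact Submodule.add_mem _ (h1 r) (h2 r)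
    | smul r' x _ h1 => intro r; rw [smul_smul]; exact h1 _
  intro f hf
  have h1 := hle f (hc f ((h f).1 hf)) 1
  rwa [one_smul] at h1

/-- A larger base ring contained in the subalgebra. -/
theorem rb_ft_up (R : Subalgebra k (LP K)) (R' : Subalgebra A (LP K)) (h : ∀ f, f ∈ R' ↔ f ∈ R)
    (hA : ∀ c : k, ∃ a : A, algebraMap A K a = algebraMap k K c)
    (hft : Algebra.FiniteType k R) : Algebra.FiniteType A R' := by
  rw [← Subalgebra.fg_iff_finiteType, Subalgebra.fg_def] at hft ⊢
  obtain ⟨S, hS, hSR⟩ := hft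
  refine ⟨S, hS, ?_⟩
  apply le_antisymm
  · rw [Algebra.adjoin_le_iff]
    intro f hf
    rw [SetLike.mem_coe, h, ← hSR]
    exact Algebra.subset_adjoin hf
  · intro f hf
    rw [h, ← hSR] at hf
    induction hf using Algebra.adjoin_induction with
    | mem x hx => exact Algebra.subset_adjoin hx
    | algebraMap r =>
      obtain ⟨a, ha⟩ := hA r
      have h1 : algebraMap k (LP K) r = algebraMap A (LP K) a := by
        rw [algebraMap_LP, algebraMap_LP, ha]
      rw [h1]
      exact Subalgebra.algebraMap_mem _ _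
    | add x y _ _ hx hy => exact Subalgebra.add_mem _ hx hy
    | mul x y _ _ hx hy => exact Subalgebra.mul_mem _ hx hy

/-- A smaller base ring over which the base ring is finitely generated. -/
theorem rb_ft_down [Algebra A k] [IsScalarTower A k K] (hAk : Algebra.FiniteType A k)
    (R : Subalgebra k (LP K)) (R' : Subalgebra A (LP K)) (h : ∀ f, f ∈ R' ↔ f ∈ R)
    (hft : Algebra.FiniteType k R) : Algebra.FiniteType A R' := by
  have h1 : Algebra.FiniteType A R := Algebra.FiniteType.trans hAk hft
  have h2 : R.restrictScalars A = R' := by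
    ext f
    rw [Subalgebra.mem_restrictScalars, h]
  rw [← h2]
  exact h1

/-- The same ring as an algebra over a larger base ring. -/
def rb (R : Subalgebra k (LP K)) (hA : ∀ a : A, hm 0 (algebraMap A K a) ∈ R) :
    Subalgebra A (LP K) where
  carrier := {f | f ∈ R}
  mul_mem' := fun ha hb => R.mul_mem ha hb
  add_mem' := fun ha hb => R.add_mem ha hb
  algebraMap_mem' := fun a => by
    change algebraMap A (LP K) a ∈ R
    rw [algebraMap_LP]
    exact hA a

theorem mem_rb (R : Subalgebra k (LP K)) (hA : ∀ a : A, hm 0 (algebraMap A K a) ∈ R) (f : LP K) :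
    f ∈ rb R hA ↔ f ∈ R := Iff.rfl

end

end Pool.Agent.K3h75.FF
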