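import Pool.Agent.K3h75.FF.Stm
import Pool.Agent.Y31.H.Gvae
import Pool.Agent.Y223.G.Stm12

/-!
# Valuation rings of the field of fractions of the Laurent polynomials
-/

set_option autoImplicit false
set_option linter.unusedSectionVars false

namespace Pool.Agent.K3h75.FF

open Pool.Agent.Y223.G
open Pool.Agent.Y515.G (ext_val int_mem)
open Pool.Agent.Y31.H (ext_unit R2_coeff)

/-- A valuation ring `V'` which contains the chart `C` gives a valuation ring which contains the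
part of degree zero of the graded algebra. -/
theorem val_up {k O Y Y₂ K K₂ G N : Type} [CommRing k] [CommRing O] [Field Y] [Field Y₂]
    [Field K] [Field K₂] [Group G] [Algebra k O] [Algebra O K] [Algebra k K]
    [IsScalarTower k O K] [Algebra k Y] [Algebra k Y₂] [Algebra k K₂]
    {ι : Y →ₐ[k] K} {ι₂ : Y₂ →ₐ[k] K₂} {εY : LP Y →ₐ[k] Y₂} {ε : LP K →ₐ[k] K₂}
    {ρ : G →* (K ≃ₐ[k] K)} {ρ₂ : G →* (K₂ ≃ₐ[k] K₂)} (HE : Ext2M ι ι₂ εY ε ρ ρ₂)
    (V : ValuationSubring Y) (V' : ValuationSubring K) (hV' : ∀ x, ι x ∈ V' ↔ x ∈ V)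
    (hkV : ∀ c : k, algebraMap k K c ∈ V') (C : Subalgebra O K) (hC : ∀ c ∈ C, c ∈ V')
    (Rr : N → Subalgebra k (LP K)) (π : K) (hπ : π ≠ 0) :
    ∃ V₂ : ValuationSubring Y₂, (∀ c : Y, c ∈ V → εY (hm 0 c) ∈ V₂) ∧
      (∀ x : Y₂, hm 0 x ∈ res ι₂ (R2 ε (RX k C Rr) π) → x ∈ V₂) ∧
      ∀ x : Y, εY (hm 0 x) ∈ V₂ → x ∈ V := by
  obtain ⟨V₂', hU1, hU2, hU3, hU4⟩ := ext_unit ε HE.eK.inj V' π hπ
  have hkV2 : ∀ c : k, algebraMap k K₂ c ∈ V₂' := by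
    intro c
    have h1 : algebraMap k K₂ c = ε (hm 0 (algebraMap k K c)) := by
      rw [← algebraMap_LP, ε.commutes]
    rw [h1]
    exact hU1 _ (hkV c)
  refine ⟨V₂'.comap (ι₂ : Y₂ →+* K₂), ?_, ?_, ?_⟩
  · intro c hc
    rw [ValuationSubring.mem_comap]
    change ι₂ (εY (hm 0 c)) ∈ V₂'
    rw [HE.com]
    exact hU1 _ ((hV' c).2 hc)
  · intro x hmx
    rw [ValuationSubring.mem_comap]
    change ι₂ x ∈ V₂'
    have h1 : hm 0 (ι₂ x) ∈ R2 ε (RX k C Rr) π := by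
      have h2 : AddMonoidAlgebra.mapAlgHom (R := k) ℤ ι₂ (hm 0 x) ∈ R2 ε (RX k C Rr) π := hmx
      have h3 : AddMonoidAlgebra.mapAlgHom (R := k) ℤ ι₂ (hm 0 x) = hm 0 (ι₂ x) :=
        AddMonoidAlgebra.mapAlgHom_single _ _ _
      rwa [h3] at h2
    have h2 := R2_coeff ε (RX k C Rr) π V₂' hkV2 (by
      intro d' a ha
      have h3 : hm d' a ∈ RR k 1 1 (⊤ : Ideal O) 0 C := ha.1
      have h4 : a ∈ C := RR_mem_C (fun c hc => hc) h3
      exact hU1 a (hC _ h4)) hU3 hU4 h1 0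
    rwa [coeff_hm_same] at h2
  · intro x hx2
    rw [ValuationSubring.mem_comap] at hx2
    change ι₂ (εY (hm 0 x)) ∈ V₂' at hx2
    rw [HE.com] at hx2
    exact (hV' x).1 (hU2 _ hx2)

end Pool.Agent.K3h75.FF
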