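import Pool.Agent.K3h75.FF.Inv
import Pool.Agent.K3h75.FF.Reb
import Pool.Agent.K3h75.FF.Val
import Pool.Agent.K3h75.FF.Asm
import Pool.Agent.K3h75.FF.Chf
import Pool.Agent.K3h75.FF.Gff

/-!
# Modifications of quotients by groups with wild inertia of order `p`
-/

set_option autoImplicit false
set_option linter.unusedSectionVars false

namespace Pool.Agent.K3h75.FF

open Pool.Agent.Y223.G Pool.Agent.R383.TM
open Pool.Agent.Y515.G (ext_val int_mem)
open Pool.Agent.Y232.G6 (exists_inv_mem Ph Ph_hm mem_res)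
open Pool.Agent.Y564.G (CG_OL CG_gen)
open Pool.Agent.Y25.G (OL_alg)

section

variable {k O K : Type} [CommRing k] [CommRing O] [Field K] [Algebra k O] [Algebra O K]
  [Algebra k K] [IsScalarTower k O K]

/-- The chart over an open subset of the base contains the chart. -/
theorem CG_le_OL {Ω : Type} {m : ℕ} {z : Ω → Fin (m + 1) → K} {d : ℕ} {Φ : Ω → K} (s : k) {c : K}
    (hc : c ∈ CG O z d Φ) : c ∈ CG (OL O (K := K) s) z d Φ := by
  let S : Subalgebra O K :=
    { carrier := {x | x ∈ CG (OL O (K := K) s) z d Φ}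
      mul_mem' := fun ha hb => Subalgebra.mul_mem (CG (OL O (K := K) s) z d Φ) ha hb
      add_mem' := fun ha hb => Subalgebra.add_mem (CG (OL O (K := K) s) z d Φ) ha hb
      algebraMap_mem' := fun r => CG_OL (OL_alg r) }
  have hle : CG O z d Φ ≤ S := by
    unfold CG
    refine iSup_le fun ω => ?_
    unfold AF
    rw [Algebra.adjoin_le_iff]
    rintro y ⟨x, hx, rfl⟩
    exact CG_gen ω hx
  exact hle hc

/-- A valuation ring which contains the chart contains the chart over a neighbourhood of its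
centre. -/
theorem OL_le_val {Ω : Type} {m : ℕ} {z : Ω → Fin (m + 1) → K} {d : ℕ} {Φ : Ω → K} (s : k)
    (hs : algebraMap k K s ≠ 0) (V : ValuationSubring K)
    (hV : ∀ c ∈ CG O z d Φ, c ∈ V) (hsV : (algebraMap k K s)⁻¹ ∈ V) {c : K}
    (hc : c ∈ CG (OL O (K := K) s) z d Φ) : c ∈ V := by
  have hOL : ∀ (r : OL O (K := K) s), (r : K) ∈ V := by
    rintro ⟨r, n, y, h⟩
    change r ∈ V
    have h2 : r = ((algebraMap k K s)⁻¹) ^ n * algebraMap O K y := by
      rw [← h, ← mul_assoc, ← mul_pow, inv_mul_cancel₀ hs, one_pow, one_mul]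
    rw [h2]
    exact V.mul_mem _ _ (pow_mem hsV n) (hV _ (Subalgebra.algebraMap_mem _ _))
  let W' : Subalgebra (OL O (K := K) s) K :=
    { carrier := {x | x ∈ V}
      mul_mem' := fun {a b} ha hb => V.mul_mem _ _ ha hb
      add_mem' := fun {a b} ha hb => V.add_mem _ _ ha hb
      algebraMap_mem' := fun r => hOL r }
  have hCW : CG (OL O (K := K) s) z d Φ ≤ W' := by
    unfold CG
    refine iSup_le fun ω => ?_
    unfold AF
    rw [Algebra.adjoin_le_iff]
    rintro y ⟨x', hx', rfl⟩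
    refine hV _ ?_
    exact (le_iSup (fun ω => AF O (z ω) d (Φ ω)) ω) (Algebra.subset_adjoin ⟨x', hx', rfl⟩)
  exact hCW hc

/-- Forms with coefficients in `O` divided by `Φ ω` belong to the chart. -/
theorem CG_FS0 {Ω : Type} {m : ℕ} {z : Ω → Fin (m + 1) → K} {d : ℕ} {Φ : Ω → K} (ω : Ω) {x : K}
    (hx : x ∈ FS O (z ω) d) : x / Φ ω ∈ CG O z d Φ := by
  unfold FS at hx
  induction hx using Submodule.span_induction with
  | mem x hx =>
    exact (le_iSup (fun ω => AF O (z ω) d (Φ ω)) ω) (Algebra.subset_adjoin ⟨x, hx, rfl⟩)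
  | zero => rw [zero_div]; exact zero_mem _
  | add a b _ _ ha hb => rw [add_div]; exact add_mem ha hb
  | smul c a _ ha =>
    rw [Algebra.smul_def, mul_div_assoc]
    exact mul_mem (Subalgebra.algebraMap_mem _ _) ha

/-- The chart is stable. -/
theorem CG_act0 {G Ω : Type} [Group G] {ρ : G →* (K ≃ₐ[k] K)} {T : G →* (O ≃ₐ[k] O)} {m : ℕ}
    {z : Ω → Fin (m + 1) → K} {d : ℕ} {Φ : Ω → K}
    (hcom : ∀ g o, ρ g (algebraMap O K o) = algebraMap O K (T g o))
    (hlin : ∀ g ω j, ρ g (z ω j) ∈ Submodule.span O (Set.range (z ω)))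
    (hΦ : FmL k O K G Ω ρ z d Φ) (g : G) :
    ∀ x ∈ CG O z d Φ, ρ g x ∈ CG O z d Φ := by
  let S : Subalgebra O K :=
    { carrier := {x | ρ g x ∈ CG O z d Φ}
      mul_mem' := fun {x y} hx hy => by
        have h1 : ρ g (x * y) ∈ CG O z d Φ := by
          rw [map_mul]
          exact Subalgebra.mul_mem _ hx hy
        exact h1
      add_mem' := fun {x y} hx hy => by
        have h1 : ρ g (x + y) ∈ CG O z d Φ := by
          rw [map_add]
          exact Subalgebra.add_mem _ hx hy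
        exact h1
      algebraMap_mem' := fun r => by
        have h1 : ρ g (algebraMap O K r) ∈ CG O z d Φ := by
          rw [hcom]
          exact Subalgebra.algebraMap_mem _ _
        exact h1 }
  have hle : CG O z d Φ ≤ S := by
    unfold CG
    refine iSup_le fun ω => ?_
    unfold AF
    rw [Algebra.adjoin_le_iff]
    rintro y ⟨x, ⟨a, ha, rfl⟩, rfl⟩
    have h1 : ρ g ((∏ j, z ω j ^ a j) / Φ ω) ∈ CG O z d Φ := by
      rw [map_div₀, hΦ.inv]
      have h2 := Pool.Agent.Y944.H.act_mon hlin g ω a Finset.univ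
      rw [ha] at h2
      exact CG_FS0 ω h2
    exact h1
  exact hle

end

/-- **The core**: the quotient of the chart by the group has a regular projective modification. -/
theorem core (hEXT : S_EXT2) (hRES : S_RES2) (hAT2 : S_ATLAS2) (hSTEP : S_ASTEP2)
    (hDOWN : S_DOWN) (hMODEL : S_MODEL) (hRAMF : S_RAMF) (hGLW : S_GLW) (hGFF : S_GFF)
    (hCH : S_CHW) (hRWB : S_RWB) (hREGL : S_REGL)
    (k O M Y K G : Type) [CommRing k] [IsDomain k] [IsNoetherianRing k] [CommRing O] [IsDomain O]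
    [IsDedekindDomain O] [Field M] [Field Y] [Field K] [Group G] [Finite G] [Algebra k O]
    [Algebra O K] [Algebra k K] [IsScalarTower k O K] [Algebra M K] [Algebra k Y] [Algebra Y K]
    [IsScalarTower k Y K] (ρ : G →* (K ≃ₐ[Y] K)) (T : G →* (O ≃ₐ[k] O)) (m : ℕ)
    (z : Fin (m + 1) → K)
    (hyp : GHF k O M Y K G Unit (IsScalarTower.toAlgHom k Y K) (rsk k ρ) T m (fun _ => z))
    (e : Ideal O → ℕ) (W : Ideal O → Fin (m + 1) → ℕ) (hD : WD k O K G (rsk k ρ) T z e W)
    (d : ℕ) (hd : 1 ≤ d) (Φ : K) (hΦ : FmL k O K G Unit (rsk k ρ) (fun _ => z) d (fun _ => Φ))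
    (A : Type) [CommRing A] [IsDomain A] [IsNoetherianRing A] [Algebra A Y]
    (hinjA : Function.Injective (algebraMap A Y))
    (hA : ∀ y : Y, (∃ a : A, algebraMap A Y a = y) ↔
      algebraMap Y K y ∈ CG O (fun _ : Unit => z) d (fun _ => Φ)) :
    ∃ (I : Type) (_ : Finite I) (zz : I → Y) (J : Set I),
      ModelG False (⊥ : Submodule A Y) ⊤ zz J := by
  classical
  have hfixY : ∀ x, (∀ g, ρ g x = x) ↔ ∃ y, Algebra.ofId Y K y = x := hyp.fixK
  obtain ⟨Y₂, K₂, _, _, _, _, ι₂, εY, ε, ρ₂, hX⟩ := hEXT Y Y K G (Algebra.ofId Y K) ρ hfixY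
  let _ : Algebra k Y₂ := ((algebraMap Y Y₂).comp (algebraMap k Y)).toAlgebra
  let _ : Algebra k K₂ := ((algebraMap Y K₂).comp (algebraMap k Y)).toAlgebra
  let _ : Algebra A K := ((algebraMap Y K).comp (algebraMap A Y)).toAlgebra
  let _ : Algebra A Y₂ := ((algebraMap Y Y₂).comp (algebraMap A Y)).toAlgebra
  let _ : Algebra A K₂ := ((algebraMap Y K₂).comp (algebraMap A Y)).toAlgebra
  have _ : IsScalarTower k Y Y₂ := IsScalarTower.of_algebraMap_eq fun _ => rfl
  have _ : IsScalarTower k Y K₂ := IsScalarTower.of_algebraMap_eq fun _ => rfl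
  have _ : IsScalarTower A Y K := IsScalarTower.of_algebraMap_eq fun _ => rfl
  have _ : IsScalarTower A Y Y₂ := IsScalarTower.of_algebraMap_eq fun _ => rfl
  have _ : IsScalarTower A Y K₂ := IsScalarTower.of_algebraMap_eq fun _ => rfl
  have hE := ext_res (k := k) hX
  have hEA := ext_res (k := A) hX
  have hinjk : Function.Injective (algebraMap k K) := hyp.injk
  have hinjY : Function.Injective (algebraMap k Y) := by
    intro a b hab
    apply hinjk
    rw [IsScalarTower.algebraMap_apply k Y K, IsScalarTower.algebraMap_apply k Y K, hab]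
  obtain ⟨β, _, _, o, π, b₀, ho, hπ0, hspan, hππ, -, -, hb⟩ := hRAMF k O K G (rsk k ρ) T hyp.toGF
  choose dd Tb N hN 𝔔 p l τ π' hπ' hN0 hL hg hor using hb
  choose ee WW hee hCh using fun b => w_CHF hCH hRWB hREGL k O M Y Y₂ K K₂ G _ _ _ _ _ _ hE T m z
    hyp e W hD (o b) (dd b) (Tb b) (N b) (𝔔 b) (p b) (l b) (τ b) (π' b) (ho b) (hL b) (hg b)
  have hoK : ∀ b, algebraMap k K (o b) ≠ 0 := by
    intro b h
    apply ho b
    apply hinjk
    rw [h, map_zero]
  have hoY : ∀ b, algebraMap k Y (o b) ≠ 0 := by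
    intro b h
    apply ho b
    apply hinjY
    rw [h, map_zero]
  -- the charts over `k`
  obtain ⟨R, hR⟩ : ∃ R : β → Subalgebra k (LP Y₂), R = fun b =>
    res (ι₂.restrictScalars k) (GRW O (ε.restrictScalars k) (fun _ : Unit => z) (o b) (𝔔 b) (ee b)
      (WW b) (π b) d (fun _ => Φ)) := ⟨_, rfl⟩
  have hRπ : ∀ b, R b = res (ι₂.restrictScalars k) (GRW O (ε.restrictScalars k)
      (fun _ : Unit => z) (o b) (𝔔 b) (ee b) (WW b) (π' b : K) d (fun _ => Φ)) := by
    intro b
    rw [hR, hπ']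
  have hfr := fun b => hGFF k O M Y Y₂ K K₂ G Unit _ _ _ _ _ _ hE T m (fun _ => z) hyp (o b)
    (dd b) (Tb b) (N b) (𝔔 b) (p b) (l b) (τ b) (π' b) (ho b) (hL b)
    (ee b) (WW b) (hee b) d (fun _ => Φ) hd hΦ (R b) (hRπ b)
  have hRc : ∀ b, Ch (R b) := by
    intro b
    rw [hRπ]
    exact hCh b d (fun _ => Φ) hd hΦ
  have hgr : ∀ b, Gr (RX k (CG (OL O (K := K) (o b)) (fun _ : Unit => z) d (fun _ => Φ))
      (fun i => RW k (𝔔 b i) (ee b i) (WW b i) (fun _ : Unit => z) d (fun _ => Φ))) := fun b =>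
    Pool.Agent.Y550.H.gr_RX _ _ fun i => Pool.Agent.Y550.H.RW_gr (𝔔 b i) (ee b i) (WW b i)
      (fun _ => z) d (fun _ => Φ)
  have hres := fun b => hRES k Y Y₂ K K₂ G _ _ _ _ _ _ hE hyp.fixK _ (hgr b) (π b) (hπ0 b)
  have hBG : ∀ b, BG (εY.restrictScalars k) (R b) := by
    intro b
    rw [hR]
    exact (hres b).1
  have hcR : ∀ b (y : Y), algebraMap Y K y ∈ CG O (fun _ : Unit => z) d (fun _ => Φ) →
      hm 0 (εY (hm 0 y)) ∈ R b := by
    intro b y hy
    have h1 := CG_le_OL (o b) hy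
    have h2 : hm 0 (algebraMap Y K y) ∈
        RX k (CG (OL O (K := K) (o b)) (fun _ : Unit => z) d (fun _ => Φ))
          (fun i => RW k (𝔔 b i) (ee b i) (WW b i) (fun _ : Unit => z) d (fun _ => Φ)) := by
      unfold RX
      rw [Algebra.mem_inf, Algebra.mem_iInf]
      exact ⟨RR_c Nat.one_pos h1, fun i => (hRWB k (OL O (K := K) (o b)) K Unit (𝔔 b i) (ee b i)
        (hee b i) m (WW b i) (fun _ => z) d (fun _ => Φ)).1 _ h1⟩
    have h3 := ((hres b).2 0 0 y).2 (by
      rw [neg_zero, zpow_zero, mul_one]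
      exact h2)
    rw [hR]
    exact h3
  have hAR : ∀ b (a : A), hm 0 (algebraMap A Y₂ a) ∈ R b := by
    intro b a
    have h1 : algebraMap A Y₂ a = εY (hm 0 (algebraMap A Y a)) := by
      have h2 : algebraMap A Y₂ a = algebraMap Y Y₂ (algebraMap A Y a) := rfl
      rw [h2, ← εY.commutes]
      rfl
    rw [h1]
    exact hcR b _ ((hA _).1 ⟨a, rfl⟩)
  have hOA : ∀ x : O, IsIntegral k (algebraMap O K x) := by
    intro x
    have := hyp.fin
    exact (Algebra.IsIntegral.isIntegral (R := k) x).algebraMap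
  -- constants
  have hkA : ∀ c : k, ∃ a : A, algebraMap A Y a = algebraMap k Y c := by
    intro c
    rw [hA]
    rw [← IsScalarTower.algebraMap_apply k Y K, IsScalarTower.algebraMap_apply k O K]
    exact Subalgebra.algebraMap_mem _ _
  have hst : ∀ g, ∀ c ∈ (CG O (fun _ : Unit => z) d (fun _ => Φ)).toSubring, ρ g c ∈
      (CG O (fun _ : Unit => z) d (fun _ => Φ)).toSubring := by
    intro g c hc
    exact CG_act0 (ρ := rsk k ρ) hyp.com hyp.lin hΦ g c hc
  have hmemR : ∀ b (x : Y), hm 0 (εY (hm 0 x)) ∈ R b ↔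
      hm 0 ((ε.restrictScalars k) (hm 0 (algebraMap Y K x))) ∈
      GRW O (ε.restrictScalars k) (fun _ : Unit => z) (o b) (𝔔 b) (ee b)
      (WW b) (π b) d (fun _ => Φ) := by
    intro b x
    have h1 := hE.com 0 x
    have h2 : hm 0 (εY (hm 0 x)) = hm 0 ((εY.restrictScalars k) (hm 0 x)) := rfl
    rw [hR, h2, mem_res, Ph_hm, h1]
    rfl
  have hquot : ∀ b b', algebraMap Y K (algebraMap k Y (o b') / algebraMap k Y (o b)) =
      algebraMap k K (o b') / algebraMap k K (o b) := by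
    intro b b'
    rw [map_div₀, ← IsScalarTower.algebraMap_apply k Y K, ← IsScalarTower.algebraMap_apply k Y K]
  -- gluing
  have hbase : ∀ b b',
      hm 0 ((ε.restrictScalars k) (hm 0 (algebraMap k K (o b') / algebraMap k K (o b)))) ∈
        GRW O (ε.restrictScalars k) (fun _ : Unit => z) (o b) (𝔔 b) (ee b) (WW b) (π b) d
          (fun _ => Φ) ∧
      ∀ f ∈ GRW O (ε.restrictScalars k) (fun _ : Unit => z) (o b') (𝔔 b') (ee b') (WW b') (π b') d
          (fun _ => Φ), ∃ n : ℕ,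
        hm 0 ((ε.restrictScalars k) (hm 0 (algebraMap k K (o b') / algebraMap k K (o b)))) ^ n * f ∈
          GRW O (ε.restrictScalars k) (fun _ : Unit => z) (o b) (𝔔 b) (ee b) (WW b) (π b) d
            (fun _ => Φ) := by
    intro b b'
    by_cases hbb : b' = b
    · subst hbb
      rw [div_self (hoK b'), hm_one, map_one, hm_one]
      refine ⟨Subalgebra.one_mem _, fun f hf => ⟨0, ?_⟩⟩
      rw [pow_zero, one_mul]
      exact hf
    · exact (hGLW k O K K₂ G Unit _ hE.eK (rsk k ρ) m (fun _ => z) (o b) (hoK b) (N b)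
        (𝔔 b) (ee b) (WW b) (hee b) (π b) (hπ0 b) d (fun _ => Φ) hΦ).2 (o b') (hoK b') (N b')
        (𝔔 b') (ee b') (WW b') (π b') (hπ0 b') (hor b b' hbb) (hππ b b')
  refine asm hAT2 hSTEP hDOWN hMODEL hinjA (εY.restrictScalars A) hEA.eY (Nat.card G)
    Nat.card_pos β (fun b => rb (R b) (hAR b)) (fun b => algebraMap k Y (o b)) ?_ ?_ hoY
    (fun b => (hfr b).2.2.2.1) (fun b => (hfr b).2.2.2.2) ?_ ?_ ?_ (fun b => (hfr b).1)
  · intro b
    refine rb_ch (R b) _ (mem_rb _ _) ?_ (hRc b)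
    refine rb_ft_up (R b) _ (mem_rb _ _) ?_ (hRc b).ft
    intro c
    obtain ⟨a, ha⟩ := hkA c
    refine ⟨a, ?_⟩
    change algebraMap Y Y₂ (algebraMap A Y a) = algebraMap Y Y₂ (algebraMap k Y c)
    rw [ha]
  · intro b
    exact rb_bg (εY.restrictScalars k) (εY.restrictScalars A) (fun _ => rfl) (R b) _ (mem_rb _ _)
      (hBG b)
  · intro b b'
    rw [mem_rb]
    have h1 := (hbase b b').1
    rw [← hquot] at h1
    exact (hmemR b _).2 h1
  · intro b b' f hf
    rw [mem_rb] at hf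
    have hf' : Ph (ι₂.restrictScalars k) f ∈ GRW O (ε.restrictScalars k) (fun _ : Unit => z) (o b')
        (𝔔 b') (ee b') (WW b') (π b') d (fun _ => Φ) := by
      rw [hR] at hf
      exact mem_res.1 hf
    obtain ⟨n, hn⟩ := (hbase b b').2 _ hf'
    refine ⟨n, ?_⟩
    rw [mem_rb, hR, mem_res, map_mul, map_pow]
    have h1 := hE.com 0 (algebraMap k Y (o b') / algebraMap k Y (o b))
    have h2 : ∀ x : Y, hm 0 ((εY.restrictScalars A) (hm 0 x)) =
        hm 0 ((εY.restrictScalars k) (hm 0 x)) := fun _ => rfl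
    rw [h2, Ph_hm, h1]
    have h3 : (IsScalarTower.toAlgHom k Y K) (algebraMap k Y (o b') / algebraMap k Y (o b)) =
        algebraMap k K (o b') / algebraMap k K (o b) := hquot b b'
    rw [h3]
    exact hn
  · intro V hV
    obtain ⟨V', hV'⟩ := ext_val (algebraMap Y K) V
    have hkV : ∀ c : k, algebraMap k Y c ∈ V := by
      intro c
      obtain ⟨a, ha⟩ := hkA c
      rw [← ha]
      exact hV a
    have hkV' : ∀ c : k, algebraMap k K c ∈ V' := by
      intro c
      rw [IsScalarTower.algebraMap_apply k Y K]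
      exact (hV' _).2 (hkV c)
    have hCV : ∀ c ∈ CG O (fun _ : Unit => z) d (fun _ => Φ), c ∈ V' := by
      intro c hc
      have h1 : IsIntegral A c := inv_int (A := A) ρ hfixY
        (CG O (fun _ : Unit => z) d (fun _ => Φ)).toSubring hst
        (fun y hy => (hA y).2 hy) hc
      exact int_mem (k := A) V' (fun a => (hV' _).2 (hV a)) h1
    obtain ⟨b, hbV⟩ := exists_inv_mem o hspan V hkV
    have hbV' : (algebraMap k K (o b))⁻¹ ∈ V' := by
      rw [IsScalarTower.algebraMap_apply k Y K, ← map_inv₀]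
      exact (hV' _).2 hbV
    obtain ⟨V₂, h1, h2, h3⟩ := val_up hE V V' hV' hkV'
      (CG (OL O (K := K) (o b)) (fun _ : Unit => z) d (fun _ => Φ))
      (fun c hc => OL_le_val (o b) (hoK b) V' hCV hbV' hc)
      (fun i => RW k (𝔔 b i) (ee b i) (WW b i) (fun _ : Unit => z) d (fun _ => Φ)) (π b) (hπ0 b)
    refine ⟨V₂, ?_, ⟨b, fun x hx => h2 x ?_⟩, h3⟩
    · intro c
      have h4 : algebraMap A Y₂ c = εY (hm 0 (algebraMap A Y c)) := by
        have h5 : algebraMap A Y₂ c = algebraMap Y Y₂ (algebraMap A Y c) := rfl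
        rw [h5, ← εY.commutes]
        rfl
      rw [h4]
      exact h1 _ (hV c)
    · rw [mem_rb, hR] at hx
      exact hx

end Pool.Agent.K3h75.FF
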