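import Pool.Agent.K3h75.FF.Xc

/-!
# Models of quotients by groups with wild inertia of order `p` over projective curves
-/

set_option autoImplicit false
set_option linter.unusedSectionVars false
set_option linter.overlappingInstances false

namespace Pool.Agent.K3h75.FF

open Pool.Agent.Y223.G Pool.Agent.R383.TM Pool.Agent.Y858.H
open Pool.Agent.Y515.G (ext_val int_mem)
open Pool.Agent.Y232.G6 (exists_inv_mem Ph Ph_hm mem_res)

section

variable {k k' Y K G : Type} [CommRing k] [CommRing k'] [Field Y] [Field K] [Group G]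
    [Algebra k Y] [Algebra k' Y] [Algebra Y K]
    [Algebra k K] [IsScalarTower k Y K] [Algebra k' K] [IsScalarTower k' Y K]
    {Y₂ K₂ : Type} [Field Y₂] [Field K₂] [Algebra Y Y₂] [Algebra Y K₂]
    [Algebra k Y₂] [Algebra k K₂] [IsScalarTower k Y Y₂] [IsScalarTower k Y K₂]
    [Algebra k' Y₂] [Algebra k' K₂] [IsScalarTower k' Y Y₂] [IsScalarTower k' Y K₂]

theorem glu_down {ι₂ : Y₂ →ₐ[Y] K₂} {εY : LP Y →ₐ[Y] Y₂} {ε : LP K →ₐ[Y] K₂}
    (hcom : ∀ (b : ℤ) (a : Y), ι₂ (εY (hm b a)) = ε (hm b (algebraMap Y K a)))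
    (A : Subalgebra k (LP K₂)) (B : Subalgebra k' (LP K₂)) {ν : Y}
    (h : Glu ε (A : Set (LP K₂)) B (algebraMap Y K ν)) :
    hm 0 (εY (hm 0 ν)) ∈ res (ι₂.restrictScalars k) A ∧
    ∀ f ∈ res (ι₂.restrictScalars k') B, ∃ n : ℕ,
      hm 0 (εY (hm 0 ν)) ^ n * f ∈ res (ι₂.restrictScalars k) A := by
  have e1 : Ph (ι₂.restrictScalars k) (hm 0 (εY (hm 0 ν))) =
      hm 0 (ε (hm 0 (algebraMap Y K ν))) := by
    rw [Ph_hm, ← hcom]
    rfl
  refine ⟨?_, fun f hf => ?_⟩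
  · rw [mem_res, e1]
    exact h.1
  · rw [mem_res] at hf
    obtain ⟨n, hn⟩ := h.2 _ hf
    refine ⟨n, ?_⟩
    rw [mem_res, map_mul, map_pow, e1]
    exact hn

end

/-- Forms with coefficients in a smaller ring. -/
theorem FS_mono {κ O K : Type} [CommRing κ] [CommRing O] [Field K] [Algebra κ K] [Algebra O K]
    {m : ℕ} {z : Fin (m + 1) → K} {d : ℕ}
    (hφ : ∀ c : κ, ∃ o : O, algebraMap O K o = algebraMap κ K c) {x : K} (hx : x ∈ FS κ z d) :
    x ∈ FS O z d := by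
  unfold FS at hx ⊢
  induction hx using Submodule.span_induction with
  | mem x hx => exact Submodule.subset_span hx
  | zero => exact Submodule.zero_mem _
  | add a b _ _ ha hb => exact Submodule.add_mem _ ha hb
  | smul c a _ ha =>
    obtain ⟨o, ho⟩ := hφ c
    have h4 : c • a = o • a := by
      rw [Algebra.smul_def, Algebra.smul_def, ho]
    rw [h4]
    exact Submodule.smul_mem _ _ ha

/-- A common exponent. -/
theorem exists_exp {O K β : Type} [CommRing O] [Field K] [Algebra O K] [Finite β] (e : K)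
    (he : ∃ y : O, algebraMap O K y = e) (s : β → K)
    (h : ∀ b, ∃ (r : ℕ) (x : O), e ^ r * s b = algebraMap O K x) :
    ∃ r : ℕ, ∀ b, ∃ x : O, e ^ r * s b = algebraMap O K x := by
  have := Fintype.ofFinite β
  obtain ⟨y, rfl⟩ := he
  choose r x hx using h
  refine ⟨Finset.univ.sup r, fun b => ?_⟩
  have h1 : r b ≤ Finset.univ.sup r := Finset.le_sup (Finset.mem_univ b)
  refine ⟨y ^ (Finset.univ.sup r - r b) * x b, ?_⟩
  rw [map_mul, map_pow, ← hx, ← mul_assoc, ← pow_add, Nat.sub_add_cancel h1]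

theorem inv_id {Y : Type} [Field Y] {t f : Y} (ht : t ≠ 0) (δ : ℕ) :
    t⁻¹ ^ (δ + 1) * (t ^ δ / f) = (t * f)⁻¹ := by
  rw [pow_succ, inv_pow, div_eq_mul_inv, mul_inv]
  have h1 : (t ^ δ)⁻¹ * t ^ δ = 1 := inv_mul_cancel₀ (pow_ne_zero _ ht)
  linear_combination (t⁻¹ * f⁻¹) * h1

/-- A valuation ring containing `O` and the quotients of the monomials by the form contains the
chart. -/
theorem CG_le_val {O K : Type} [CommRing O] [Field K] [Algebra O K] {m : ℕ} {z : Fin (m + 1) → K}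
    {d : ℕ} {Φ : K} (V : ValuationSubring K) (hO : ∀ y : O, algebraMap O K y ∈ V)
    (hΦ : ∀ y ∈ MN z d, y / Φ ∈ V) :
    ∀ c ∈ CG O (fun _ : Unit => z) d (fun _ => Φ), c ∈ V := by
  intro c hc
  let W' : Subalgebra O K :=
    { carrier := {x | x ∈ V}
      mul_mem' := fun {a b} ha hb => V.mul_mem _ _ ha hb
      add_mem' := fun {a b} ha hb => V.add_mem _ _ ha hb
      algebraMap_mem' := fun r => hO r }
  have hCW : CG O (fun _ : Unit => z) d (fun _ => Φ) ≤ W' := by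
    unfold CG
    refine iSup_le fun ω => ?_
    unfold AF
    rw [Algebra.adjoin_le_iff]
    rintro y ⟨x', hx', rfl⟩
    exact hΦ x' hx'
  exact hCW hc

section

variable {k O M Y K G : Type} [CommRing k] [IsDomain k] [IsNoetherianRing k]
    [CommRing O] [IsDomain O]
    [IsDedekindDomain O] [Field M] [Field Y] [Field K] [Group G] [Finite G] [Algebra k O]
    [Algebra O K] [Algebra k K] [IsScalarTower k O K] [Algebra M K] [Algebra k Y] [Algebra Y K]
    [IsScalarTower k Y K] {Y₂ K₂ : Type} [Field Y₂] [Field K₂] [Algebra Y Y₂] [Algebra Y K₂]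
    [Algebra k Y₂] [Algebra k K₂] [IsScalarTower k Y Y₂] [IsScalarTower k Y K₂]

/-- The valuation rings. -/
theorem pc_val {m : ℕ} {T : G →* (O ≃ₐ[k] O)} {ι₂ : Y₂ →ₐ[Y] K₂} {εY : LP Y →ₐ[Y] Y₂}
    {ε : LP K →ₐ[Y] K₂} {ρ : G →* (K ≃ₐ[Y] K)} {ρ₂ : G →* (K₂ ≃ₐ[Y] K₂)}
    (hX : Ext2M (Algebra.ofId Y K) ι₂ εY ε ρ ρ₂)
    {z : Fin (m + 1) → K} {d : ℕ} {S : Set K} {β : Type}
    {c : β → Cht k O K m} (hc : IsPc T ι₂ εY ε z d S c) (V : ValuationSubring Y)
    (V' : ValuationSubring K) (hV' : ∀ x, algebraMap Y K x ∈ V' ↔ x ∈ V)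
    (hO : ∀ y : O, algebraMap O K y ∈ V') (Φ : K) (hΦ : ∀ y ∈ MN z d, y / Φ ∈ V') :
    ∃ b, ∃ V₂ : ValuationSubring Y₂, (∀ c : Y, c ∈ V → εY (hm 0 c) ∈ V₂) ∧
      (∀ x : Y₂, hm 0 x ∈ res (ι₂.restrictScalars k) ((c b).R ε z d Φ) → x ∈ V₂) ∧
      ∀ x : Y, εY (hm 0 x) ∈ V₂ → x ∈ V := by
  have hkV' : ∀ c : k, algebraMap k K c ∈ V' := by
    intro c
    rw [IsScalarTower.algebraMap_apply k O K]
    exact hO _
  have hkV : ∀ c : k, algebraMap k Y c ∈ V := by
    intro c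
    rw [← hV', ← IsScalarTower.algebraMap_apply k Y K]
    exact hkV' c
  obtain ⟨b, hbV⟩ := exists_inv_mem (fun b => (c b).s) hc.sp V hkV
  have hbV' : (algebraMap k K (c b).s)⁻¹ ∈ V' := by
    rw [IsScalarTower.algebraMap_apply k Y K, ← map_inv₀]
    exact (hV' _).2 hbV
  refine ⟨b, ?_⟩
  exact val_up (ext_res (k := k) hX) V V' hV' hkV'
      (CG (OL O (K := K) (c b).s) (fun _ : Unit => z) d (fun _ => Φ))
      (fun c' hc' => OL_le_val (c b).s (hc.s0 b) V' (CG_le_val V' hO hΦ) hbV' hc')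
      (fun i => RW k ((c b).𝔔 i) ((c b).e i) ((c b).W i) (fun _ : Unit => z) d (fun _ => Φ))
      (c b).π (hc.p0 b)

end

/-- **The core, for projective curves.** -/
theorem core1 (hEXT : S_EXT2) (hRES : S_RES2) (hAT2 : S_ATLAS2) (hSTEP : S_ASTEP2)
    (hDOWN : S_DOWN) (hMODEL : S_MODEL) (hRAMF : S_RAMF2) (hGLW : S_GLW) (hGFF : S_GFF)
    (hCH : S_CHW) (hRWB : S_RWB) (hREGL : S_REGL) (hXG : S_XG)
    (κ M Y K G : Type) [Field κ] [Field M] [Field Y] [Field K] [Group G] [Finite G] [Algebra κ Y]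
    [Algebra Y K] [Algebra κ K] [IsScalarTower κ Y K] [Algebra M K] (ρ : G →* (K ≃ₐ[Y] K))
    (hfixY : ∀ x, (∀ g, ρ g x = x) ↔ ∃ y, Algebra.ofId Y K y = x)
    (m : ℕ) (z : Fin (m + 1) → K)
    -- the first piece
    (k O : Type) [CommRing k] [IsDomain k] [CommRing O] [IsDomain O] [IsDedekindDomain O]
    [Algebra k O] [Algebra O K] [Algebra k K] [IsScalarTower k O K] [Algebra k Y]
    [IsScalarTower k Y K] [Algebra κ k] [IsScalarTower κ k Y] [Algebra.FiniteType κ k]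
    (T : G →* (O ≃ₐ[k] O))
    (hyp : GHF k O M Y K G Unit (IsScalarTower.toAlgHom k Y K) (rsk k ρ) T m (fun _ => z))
    (e : Ideal O → ℕ) (W : Ideal O → Fin (m + 1) → ℕ) (hD : WD k O K G (rsk k ρ) T z e W)
    -- the second piece
    (k' O' : Type) [CommRing k'] [IsDomain k'] [CommRing O'] [IsDomain O'] [IsDedekindDomain O']
    [Algebra k' O'] [Algebra O' K] [Algebra k' K] [IsScalarTower k' O' K] [Algebra k' Y]
    [IsScalarTower k' Y K] [Algebra κ k'] [IsScalarTower κ k' Y] [Algebra.FiniteType κ k']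
    (T' : G →* (O' ≃ₐ[k'] O'))
    (hyp' : GHF k' O' M Y K G Unit (IsScalarTower.toAlgHom k' Y K) (rsk k' ρ) T' m (fun _ => z))
    (e' : Ideal O' → ℕ) (W' : Ideal O' → Fin (m + 1) → ℕ)
    (hD' : WD k' O' K G (rsk k' ρ) T' z e' W')
    -- the forms
    (d : ℕ) (hd : 1 ≤ d) (S : Set K) (hSf : S.Finite)
    (hS : ∀ Φ ∈ S, Φ ∈ FS κ z d ∧ Φ ≠ 0 ∧ ∀ g, ρ g Φ = Φ)
    (hSV : ∀ V : ValuationSubring K, (∀ c : κ, algebraMap κ K c ∈ V) →
      ∃ Φ ∈ S, ∀ y ∈ MN z d, y / Φ ∈ V)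
    -- the valuations
    (hcov : ∀ V : ValuationSubring K, (∀ c : κ, algebraMap κ K c ∈ V) →
      (∀ y : O, algebraMap O K y ∈ V) ∨ (∀ y : O', algebraMap O' K y ∈ V))
    -- the functions
    (t f : Y) (δ : ℕ) (ht0 : t ≠ 0) (hf0 : f ≠ 0)
    (ht : ∃ y : k, algebraMap k Y y = t) (hf : ∃ y : k, algebraMap k Y y = f)
    (ht' : ∃ y : k', algebraMap k' Y y = t⁻¹) (hf' : ∃ y : k', algebraMap k' Y y = t ^ δ / f)
    (hR : ∀ y : O, algebraMap O K y = algebraMap Y K (t * f) → VanR T y)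
    (hR' : ∀ y : O', algebraMap O' K y = algebraMap Y K t⁻¹ → VanR T' y)
    (h10 : ∀ y : O', ∃ (r : ℕ) (x : O), algebraMap Y K (t * f) ^ r * algebraMap O' K y =
      algebraMap O K x)
    (h01 : ∀ y : O, ∃ (r : ℕ) (x : O'), algebraMap Y K t⁻¹ ^ r * algebraMap O K y =
      algebraMap O' K x) :
    ∃ (I : Type) (_ : Finite I) (zz : I → Y) (J : Set I),
      ModelG False (⊥ : Submodule κ Y) ⊤ zz J := by
  classical
  obtain ⟨Y₂, K₂, _, _, _, _, ι₂, εY, ε, ρ₂, hX⟩ := hEXT Y Y K G (Algebra.ofId Y K) ρ hfixY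
  let _ : Algebra k Y₂ := ((algebraMap Y Y₂).comp (algebraMap k Y)).toAlgebra
  let _ : Algebra k K₂ := ((algebraMap Y K₂).comp (algebraMap k Y)).toAlgebra
  let _ : Algebra k' Y₂ := ((algebraMap Y Y₂).comp (algebraMap k' Y)).toAlgebra
  let _ : Algebra k' K₂ := ((algebraMap Y K₂).comp (algebraMap k' Y)).toAlgebra
  let _ : Algebra κ Y₂ := ((algebraMap Y Y₂).comp (algebraMap κ Y)).toAlgebra
  let _ : Algebra κ K₂ := ((algebraMap Y K₂).comp (algebraMap κ Y)).toAlgebra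
  have _ : IsScalarTower k Y Y₂ := IsScalarTower.of_algebraMap_eq fun _ => rfl
  have _ : IsScalarTower k Y K₂ := IsScalarTower.of_algebraMap_eq fun _ => rfl
  have _ : IsScalarTower k' Y Y₂ := IsScalarTower.of_algebraMap_eq fun _ => rfl
  have _ : IsScalarTower k' Y K₂ := IsScalarTower.of_algebraMap_eq fun _ => rfl
  have _ : IsScalarTower κ Y Y₂ := IsScalarTower.of_algebraMap_eq fun _ => rfl
  have _ : IsScalarTower κ Y K₂ := IsScalarTower.of_algebraMap_eq fun _ => rfl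
  have _ : IsScalarTower κ k Y₂ := IsScalarTower.of_algebraMap_eq fun c => by
    change algebraMap Y Y₂ (algebraMap κ Y c) = algebraMap Y Y₂ (algebraMap k Y (algebraMap κ k c))
    rw [← IsScalarTower.algebraMap_apply κ k Y]
  have _ : IsScalarTower κ k' Y₂ := IsScalarTower.of_algebraMap_eq fun c => by
    change algebraMap Y Y₂ (algebraMap κ Y c) = algebraMap Y Y₂ (algebraMap k' Y (algebraMap κ k' c))
    rw [← IsScalarTower.algebraMap_apply κ k' Y]
  have _ : IsNoetherianRing k := Algebra.FiniteType.isNoetherianRing κ k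
  have _ : IsNoetherianRing k' := Algebra.FiniteType.isNoetherianRing κ k'
  have hinjκ : Function.Injective (algebraMap κ Y) := (algebraMap κ Y).injective
  have hE := ext_res (k := κ) hX
  -- the forms
  have hFS : ∀ {k O : Type} [CommRing k] [CommRing O] [Algebra k O] [Algebra O K] [Algebra k K]
      [IsScalarTower k O K] [Algebra k Y] [IsScalarTower k Y K] [Algebra κ k] [IsScalarTower κ k Y],
      ∀ Φ ∈ S, FmL k O K G Unit (rsk k ρ) (fun _ => z) d (fun _ => Φ) := by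
    intro k O _ _ _ _ _ _ _ _ _ _ Φ hΦ
    refine ⟨fun _ => FS_mono (κ := κ) ?_ (hS Φ hΦ).1, fun _ => (hS Φ hΦ).2.1,
      fun g _ => (hS Φ hΦ).2.2 g⟩
    intro c
    refine ⟨algebraMap k O (algebraMap κ k c), ?_⟩
    rw [← IsScalarTower.algebraMap_apply k O K,
      IsScalarTower.algebraMap_apply k Y K, ← IsScalarTower.algebraMap_apply κ k Y,
      ← IsScalarTower.algebraMap_apply κ Y K]
  obtain ⟨β, _, c, hc⟩ := exists_pc hRAMF hRES hGLW hGFF hCH hRWB hREGL ρ T m z hyp e W hD ι₂ εY ε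
    ρ₂ hX d hd S hFS
  obtain ⟨β', _, c', hc'⟩ := exists_pc hRAMF hRES hGLW hGFF hCH hRWB hREGL ρ T' m z hyp' e' W' hD'
    ι₂ εY ε ρ₂ hX d hd S hFS
  have hS0 : ∀ Φ ∈ S, Φ ≠ 0 := fun Φ hΦ => (hS Φ hΦ).2.1
  have hSY : ∀ Φ : S, ∃ y : Y, algebraMap Y K y = Φ := fun Φ =>
    (hfixY _).1 (hS Φ Φ.2).2.2
  choose yS hyS using hSY
  have _ : Finite S := hSf.to_subtype
  have hkY : ∀ x : k, algebraMap Y K (algebraMap k Y x) = algebraMap O K (algebraMap k O x) := by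
    intro x
    rw [← IsScalarTower.algebraMap_apply k Y K, IsScalarTower.algebraMap_apply k O K]
  have hkY' : ∀ x : k', algebraMap Y K (algebraMap k' Y x) =
      algebraMap O' K (algebraMap k' O' x) := by
    intro x
    rw [← IsScalarTower.algebraMap_apply k' Y K, IsScalarTower.algebraMap_apply k' O' K]
  -- the section
  obtain ⟨ty, hty⟩ := ht
  obtain ⟨fy, hfy⟩ := hf
  obtain ⟨ty', hty'⟩ := ht'
  obtain ⟨fy', hfy'⟩ := hf'
  have htf1 : algebraMap O K (algebraMap k O (ty * fy)) = algebraMap Y K (t * f) := by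
    rw [← hkY, map_mul, hty, hfy]
  have ht1 : algebraMap O K (algebraMap k O ty) = algebraMap Y K t := by
    rw [← hkY, hty]
  have ht1' : algebraMap O' K (algebraMap k' O' ty') = algebraMap Y K t⁻¹ := by
    rw [← hkY', hty']
  have htf1' : algebraMap O' K (algebraMap k' O' (ty' ^ (δ + 1) * fy')) =
      algebraMap Y K (t * f)⁻¹ := by
    rw [← hkY', map_mul, map_pow, hty', hfy', inv_id ht0]
  obtain ⟨τ, hτ0, hA, hC, hA', hC'⟩ : ∃ τ : Y, τ ≠ 0 ∧
      (∀ b', ∃ y : O, algebraMap Y K τ * algebraMap k' K (c' b').s =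
        algebraMap Y K (t * f) * algebraMap O K y) ∧
      (∃ y : O, algebraMap O K y = algebraMap Y K τ) ∧
      (∀ b, ∃ y : O', algebraMap Y K τ⁻¹ * algebraMap k K (c b).s =
        algebraMap Y K t⁻¹ * algebraMap O' K y) ∧
      (∃ y : O', algebraMap O' K y = algebraMap Y K τ⁻¹) := by
    obtain ⟨r₁, hr₁⟩ := exists_exp (O := O) (algebraMap Y K (t * f)) ⟨_, htf1⟩
      (fun b => algebraMap k' K (c' b).s) (fun b => by
        rw [IsScalarTower.algebraMap_apply k' O' K]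
        exact h10 _)
    obtain ⟨r₀, hr₀⟩ := exists_exp (O := O') (algebraMap Y K t⁻¹) ⟨_, ht1'⟩
      (fun b => algebraMap k K (c b).s) (fun b => by
        rw [IsScalarTower.algebraMap_apply k O K]
        exact h01 _)
    have e1 : ((t * f) ^ (r₁ + 1) * t ^ (r₀ + 1))⁻¹ =
        (t * f)⁻¹ ^ (r₁ + 1) * (t⁻¹ ^ r₀ * t⁻¹) := by
      rw [mul_inv, inv_pow, inv_pow, pow_succ t, mul_inv]
    refine ⟨(t * f) ^ (r₁ + 1) * t ^ (r₀ + 1), mul_ne_zero (pow_ne_zero _ (mul_ne_zero ht0 hf0))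
      (pow_ne_zero _ ht0), fun b' => ?_, ?_, fun b => ?_, ?_⟩
    · obtain ⟨x, hx⟩ := hr₁ b'
      refine ⟨(algebraMap k O ty) ^ (r₀ + 1) * x, ?_⟩
      rw [map_mul (algebraMap O K), ← hx, map_pow (algebraMap O K), ht1, map_mul, map_pow, map_pow,
        pow_succ (algebraMap Y K (t * f))]
      ring
    · refine ⟨(algebraMap k O (ty * fy)) ^ (r₁ + 1) * (algebraMap k O ty) ^ (r₀ + 1), ?_⟩
      rw [map_mul (algebraMap O K), map_pow (algebraMap O K), map_pow (algebraMap O K), ht1, htf1]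
      simp only [map_mul, map_pow]
    · obtain ⟨x, hx⟩ := hr₀ b
      refine ⟨(algebraMap k' O' (ty' ^ (δ + 1) * fy')) ^ (r₁ + 1) * x, ?_⟩
      rw [map_mul (algebraMap O' K), ← hx, map_pow (algebraMap O' K), htf1', e1,
        map_mul (algebraMap Y K), map_mul (algebraMap Y K), map_pow (algebraMap Y K),
        map_pow (algebraMap Y K)]
      ring
    · refine ⟨(algebraMap k' O' (ty' ^ (δ + 1) * fy')) ^ (r₁ + 1) *
        ((algebraMap k' O' ty') ^ r₀ * (algebraMap k' O' ty')), ?_⟩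
      rw [map_mul (algebraMap O' K), map_mul (algebraMap O' K), map_pow (algebraMap O' K), htf1',
        map_pow (algebraMap O' K), ht1', e1, map_mul (algebraMap Y K), map_mul (algebraMap Y K),
        map_pow (algebraMap Y K), map_pow (algebraMap Y K)]
  have he : ∃ e₀ : O, algebraMap O K e₀ = algebraMap Y K (t * f) ∧ VanR T e₀ := by
    have h1 : algebraMap O K (algebraMap k O (ty * fy)) = algebraMap Y K (t * f) := by
      rw [← hkY, map_mul, hty, hfy]
    exact ⟨_, h1, hR _ h1⟩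
  have he' : ∃ e₀ : O', algebraMap O' K e₀ = algebraMap Y K t⁻¹ ∧ VanR T' e₀ := by
    have h1 : algebraMap O' K (algebraMap k' O' ty') = algebraMap Y K t⁻¹ := by
      rw [← hkY', hty']
    exact ⟨_, h1, hR' _ h1⟩
  have hX10 := cross hXG hX.eK hS0 hc hc' (algebraMap Y K (t * f)) (algebraMap Y K t⁻¹)
    (algebraMap Y K τ) (by
      rw [Ne, map_eq_zero]
      exact inv_ne_zero ht0) he he'
    ⟨algebraMap k O ty, by rw [← hkY, hty, ← map_inv₀, inv_inv]⟩ h10 hC hA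
  have hX01 := cross hXG hX.eK hS0 hc' hc (algebraMap Y K t⁻¹) (algebraMap Y K (t * f))
    (algebraMap Y K τ⁻¹) (by
      rw [Ne, map_eq_zero]
      exact mul_ne_zero ht0 hf0) he' he
    ⟨algebraMap k' O' (ty' ^ (δ + 1) * fy'), by
      rw [← hkY', map_mul, map_pow, hty', hfy', ← map_inv₀]
      rw [inv_id ht0]⟩ h01 hC' hA'
  -- the charts
  let 𝒜 := (β × S) ⊕ (β' × S)
  let R : 𝒜 → Subalgebra κ (LP Y₂) := fun a => match a with
    | Sum.inl a => (res (ι₂.restrictScalars k) ((c a.1).R ε z d a.2)).restrictScalars κ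
    | Sum.inr a => (res (ι₂.restrictScalars k') ((c' a.1).R ε z d a.2)).restrictScalars κ
  let h : 𝒜 → Y := fun a => match a with
    | Sum.inl a => algebraMap k Y (c a.1).s * yS a.2
    | Sum.inr a => τ * algebraMap k' Y (c' a.1).s * yS a.2
  have hcom : ∀ (b : ℤ) (a : Y), ι₂ (εY (hm b a)) = ε (hm b (algebraMap Y K a)) := hX.com
  have hyS0 : ∀ Φ, yS Φ ≠ 0 := by
    intro Φ hcon
    apply hS0 _ Φ.2
    rw [← hyS, hcon, map_zero]
  have hs0 : ∀ b, algebraMap k Y (c b).s ≠ 0 := by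
    intro b hcon
    apply hc.s0 b
    rw [IsScalarTower.algebraMap_apply k Y K, hcon, map_zero]
  have hs0' : ∀ b, algebraMap k' Y (c' b).s ≠ 0 := by
    intro b hcon
    apply hc'.s0 b
    rw [IsScalarTower.algebraMap_apply k' Y K, hcon, map_zero]
  have hh0 : ∀ a, h a ≠ 0 := by
    rintro (a | a)
    · exact mul_ne_zero (hs0 _) (hyS0 _)
    · exact mul_ne_zero (mul_ne_zero hτ0 (hs0' _)) (hyS0 _)
  have hglu : ∀ a b, hm 0 (εY (hm 0 (h b / h a))) ∈ R a ∧
      ∀ f ∈ R b, ∃ n : ℕ, hm 0 (εY (hm 0 (h b / h a))) ^ n * f ∈ R a := by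
    rintro (⟨a, Φ⟩ | ⟨a, Φ⟩) (⟨b, Φ'⟩ | ⟨b, Φ'⟩)
    · have h1 := glu_comb ((c a).R ε z d Φ) (hc.gb a b Φ' Φ'.2) (hc.gf a Φ Φ.2 Φ' Φ'.2)
        (hc.gb a b Φ Φ.2).1
      refine glu_down hcom ((c a).R ε z d Φ) ((c b).R ε z d Φ') ?_
      convert h1 using 1
      change algebraMap Y K ((algebraMap k Y (c b).s * yS Φ') / (algebraMap k Y (c a).s * yS Φ)) = _
      rw [map_div₀, map_mul, map_mul, ← IsScalarTower.algebraMap_apply k Y K,
        ← IsScalarTower.algebraMap_apply k Y K, hyS, hyS, mul_div_mul_comm]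
    · have h1 := glu_comb ((c a).R ε z d Φ) (hX10 a b Φ' Φ'.2) (hc.gf a Φ Φ.2 Φ' Φ'.2)
        (hX10 a b Φ Φ.2).1
      refine glu_down hcom ((c a).R ε z d Φ) ((c' b).R ε z d Φ') ?_
      convert h1 using 1
      change algebraMap Y K ((τ * algebraMap k' Y (c' b).s * yS Φ') /
        (algebraMap k Y (c a).s * yS Φ)) = _
      rw [map_div₀, map_mul, map_mul, map_mul, ← IsScalarTower.algebraMap_apply k Y K,
        ← IsScalarTower.algebraMap_apply k' Y K, hyS, hyS, mul_div_mul_comm]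
    · have h1 := glu_comb ((c' a).R ε z d Φ) (hX01 a b Φ' Φ'.2) (hc'.gf a Φ Φ.2 Φ' Φ'.2)
        (hX01 a b Φ Φ.2).1
      refine glu_down hcom ((c' a).R ε z d Φ) ((c b).R ε z d Φ') ?_
      convert h1 using 1
      change algebraMap Y K ((algebraMap k Y (c b).s * yS Φ') /
        (τ * algebraMap k' Y (c' a).s * yS Φ)) = _
      rw [map_div₀, map_mul, map_mul, map_mul, ← IsScalarTower.algebraMap_apply k Y K,
        ← IsScalarTower.algebraMap_apply k' Y K, hyS, hyS, mul_div_mul_comm, map_inv₀]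
      congr 1
      rw [div_mul_eq_div_div_swap, inv_mul_eq_div, div_right_comm]
    · have h1 := glu_comb ((c' a).R ε z d Φ) (hc'.gb a b Φ' Φ'.2) (hc'.gf a Φ Φ.2 Φ' Φ'.2)
        (hc'.gb a b Φ Φ.2).1
      refine glu_down hcom ((c' a).R ε z d Φ) ((c' b).R ε z d Φ') ?_
      convert h1 using 1
      change algebraMap Y K ((τ * algebraMap k' Y (c' b).s * yS Φ') /
        (τ * algebraMap k' Y (c' a).s * yS Φ)) = _
      rw [mul_assoc, mul_assoc, mul_div_mul_left _ _ hτ0, map_div₀, map_mul, map_mul,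
        ← IsScalarTower.algebraMap_apply k' Y K,
        ← IsScalarTower.algebraMap_apply k' Y K, hyS, hyS, mul_div_mul_comm]
  refine asm hAT2 hSTEP hDOWN hMODEL hinjκ (εY.restrictScalars κ) hE.eY (Nat.card G)
    Nat.card_pos 𝒜 R h ?_ ?_ hh0 ?_ ?_ (fun a b => (hglu a b).1) (fun a b => (hglu a b).2) ?_ ?_
  · rintro (a | a)
    · exact rb_ch (res (ι₂.restrictScalars k) ((c a.1).R ε z d a.2)) (R (Sum.inl a))
        (fun _ => Iff.rfl)
        (rb_ft_down (k := k) (A := κ) inferInstance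
          (res (ι₂.restrictScalars k) ((c a.1).R ε z d a.2)) _ (fun _ => Iff.rfl)
          (hc.ch a.1 a.2 a.2.2).ft)
        (hc.ch a.1 a.2 a.2.2)
    · exact rb_ch (res (ι₂.restrictScalars k') ((c' a.1).R ε z d a.2)) (R (Sum.inr a))
        (fun _ => Iff.rfl)
        (rb_ft_down (k := k') (A := κ) inferInstance
          (res (ι₂.restrictScalars k') ((c' a.1).R ε z d a.2)) _ (fun _ => Iff.rfl)
          (hc'.ch a.1 a.2 a.2.2).ft)
        (hc'.ch a.1 a.2 a.2.2)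
  · rintro (a | a)
    · exact rb_bg (εY.restrictScalars k) (εY.restrictScalars κ) (fun _ => rfl)
        (res (ι₂.restrictScalars k) ((c a.1).R ε z d a.2)) (R (Sum.inl a))
        (fun _ => Iff.rfl) (hc.bg a.1 a.2 a.2.2)
    · exact rb_bg (εY.restrictScalars k') (εY.restrictScalars κ) (fun _ => rfl)
        (res (ι₂.restrictScalars k') ((c' a.1).R ε z d a.2)) (R (Sum.inr a))
        (fun _ => Iff.rfl) (hc'.bg a.1 a.2 a.2.2)
  · rintro (a | a)
    · exact hc.si a.1 a.2 a.2.2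
    · exact hc'.si a.1 a.2 a.2.2
  · rintro (a | a)
    · exact hc.su a.1 a.2 a.2.2
    · exact hc'.su a.1 a.2 a.2.2
  · intro V hV
    obtain ⟨V', hV'⟩ := ext_val (algebraMap Y K) V
    have hκV' : ∀ c : κ, algebraMap κ K c ∈ V' := by
      intro c
      rw [IsScalarTower.algebraMap_apply κ Y K]
      exact (hV' _).2 (hV c)
    obtain ⟨Φ, hΦ, hΦV⟩ := hSV V' hκV'
    have hκ2 : ∀ V₂ : ValuationSubring Y₂, (∀ c : Y, c ∈ V → εY (hm 0 c) ∈ V₂) →
        ∀ c : κ, algebraMap κ Y₂ c ∈ V₂ := by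
      intro V₂ h1 c
      have h4 : algebraMap κ Y₂ c = εY (hm 0 (algebraMap κ Y c)) := by
        have h5 : algebraMap κ Y₂ c = algebraMap Y Y₂ (algebraMap κ Y c) := rfl
        rw [h5, ← εY.commutes]
        rfl
      rw [h4]
      exact h1 _ (hV c)
    rcases hcov V' hκV' with hO | hO
    · obtain ⟨b, V₂, h1, h2, h3⟩ := pc_val hX hc V V' hV' hO Φ hΦV
      exact ⟨V₂, hκ2 V₂ h1, ⟨Sum.inl (b, ⟨Φ, hΦ⟩), h2⟩, h3⟩
    · obtain ⟨b, V₂, h1, h2, h3⟩ := pc_val hX hc' V V' hV' hO Φ hΦV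
      exact ⟨V₂, hκ2 V₂ h1, ⟨Sum.inr (b, ⟨Φ, hΦ⟩), h2⟩, h3⟩
  · rintro (a | a)
    · exact hc.fr a.1 a.2 a.2.2
    · exact hc'.fr a.1 a.2 a.2.2

end Pool.Agent.K3h75.FF
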