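import Pool.Agent.K3h75.FF.Stm

/-!
# Restriction of the scalars for the fields of fractions of the Laurent polynomials
-/

set_option autoImplicit false
set_option linter.unusedSectionVars false

namespace Pool.Agent.K3h75.FF

open Pool.Agent.Y223.G

/-- Restriction of the scalars of an action. -/
def rsk (k : Type) {Y K G : Type} [CommRing k] [Field Y] [Field K] [Group G] [Algebra k Y]
    [Algebra Y K] [Algebra k K] [IsScalarTower k Y K] (ρ : G →* (K ≃ₐ[Y] K)) :
    G →* (K ≃ₐ[k] K) where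
  toFun g := (ρ g).restrictScalars k
  map_one' := by
    ext x
    change ρ 1 x = x
    rw [map_one]
    rfl
  map_mul' g h := by
    ext x
    change ρ (g * h) x = ρ g (ρ h x)
    rw [map_mul]
    rfl

@[simp] lemma rsk_apply (k : Type) {Y K G : Type} [CommRing k] [Field Y] [Field K] [Group G]
    [Algebra k Y] [Algebra Y K] [Algebra k K] [IsScalarTower k Y K] (ρ : G →* (K ≃ₐ[Y] K)) (g : G)
    (x : K) : rsk k ρ g x = ρ g x := rfl

section

variable {k Y Y₂ K K₂ G : Type} [CommRing k] [Field Y] [Field Y₂] [Field K] [Field K₂] [Group G]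
  [Algebra Y K] [Algebra Y Y₂] [Algebra Y K₂] [Algebra k Y] [Algebra k K] [IsScalarTower k Y K]
  [Algebra k Y₂] [IsScalarTower k Y Y₂] [Algebra k K₂] [IsScalarTower k Y K₂]

theorem ext_res {ι₂ : Y₂ →ₐ[Y] K₂} {εY : LP Y →ₐ[Y] Y₂} {ε : LP K →ₐ[Y] K₂}
    {ρ : G →* (K ≃ₐ[Y] K)} {ρ₂ : G →* (K₂ ≃ₐ[Y] K₂)}
    (h : Ext2M (Algebra.ofId Y K) ι₂ εY ε ρ ρ₂) :
    Ext2M (k := k) (IsScalarTower.toAlgHom k Y K) (ι₂.restrictScalars k)
      (εY.restrictScalars k) (ε.restrictScalars k) (rsk k ρ) (rsk k ρ₂) := by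
  refine ⟨⟨h.eY.inj, h.eY.frac⟩, ⟨h.eK.inj, h.eK.frac⟩, ?_, ?_, ?_⟩
  · intro g w
    have h1 := h.act g w
    have h2 : tl (rsk k ρ g) w = tl (ρ g) w := rfl
    rw [h2]
    exact h1
  · intro b a
    exact h.com b a
  · intro x
    exact h.fix x

end

end Pool.Agent.K3h75.FF
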