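import Pool.Agent.K3h75.FF.Stm2

/-!
# Dedekind domains of finite type over perfect fields of characteristic `p`
-/

set_option autoImplicit false
set_option linter.unusedSectionVars false

namespace Pool.Agent.K3h75.FF

/-- The residue fields are perfect. -/
theorem resp_of (κ : Type) [Field κ] [PerfectField κ] (p : ℕ) [Fact p.Prime] [CharP κ p]
    (O : Type) [CommRing O] [Algebra κ O] [Algebra.FiniteType κ O] (𝔓 : Ideal O)
    (h𝔓 : 𝔓.IsMaximal) (q : ℕ) (hq : q.Prime) (hqP : (q : O) ∈ 𝔓) (a : O) :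
    ∃ b : O, b ^ q - a ∈ 𝔓 := by
  classical
  have hqp : q = p := by
    by_contra hne
    have h1 : (q : κ) ≠ 0 := by
      intro h
      have h2 := (CharP.cast_eq_zero_iff κ p q).1 h
      exact hne ((Nat.prime_dvd_prime_iff_eq Fact.out hq).1 h2).symm
    have h2 : IsUnit (q : O) := by
      have h3 : (q : O) = algebraMap κ O (q : κ) := by rw [map_natCast]
      rw [h3]
      exact (IsUnit.mk0 _ h1).map _
    exact h𝔓.ne_top (Ideal.eq_top_of_isUnit_mem _ hqP h2)
  subst hqp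
  let _ : Field (O ⧸ 𝔓) := Ideal.Quotient.field 𝔓
  have _ : Algebra.FiniteType κ (O ⧸ 𝔓) := inferInstance
  have hfin : Module.Finite κ (O ⧸ 𝔓) := finite_of_finite_type_of_isJacobsonRing κ (O ⧸ 𝔓)
  have halg : Algebra.IsAlgebraic κ (O ⧸ 𝔓) := inferInstance
  have hperf : PerfectField (O ⧸ 𝔓) := Algebra.IsAlgebraic.perfectField κ
  have hchar : CharP (O ⧸ 𝔓) q := charP_of_injective_algebraMap (algebraMap κ (O ⧸ 𝔓)).injective q
  have hexp : ExpChar (O ⧸ 𝔓) q := ExpChar.prime Fact.out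
  have hpr : PerfectRing (O ⧸ 𝔓) q := PerfectField.toPerfectRing q
  obtain ⟨b, hb⟩ := surjective_frobenius (O ⧸ 𝔓) q (Ideal.Quotient.mk 𝔓 a)
  obtain ⟨b, rfl⟩ := Ideal.Quotient.mk_surjective b
  refine ⟨b, ?_⟩
  rw [frobenius_def, ← map_pow] at hb
  exact Ideal.Quotient.eq.1 hb

theorem gf_of (hTAMF : S_TAMF) (κ : Type) [Field κ] [PerfectField κ] (p : ℕ) [Fact p.Prime]
    [CharP κ p] (k O K G : Type) [CommRing k] [IsDomain k] [CommRing O] [IsDomain O]
    [IsDedekindDomain O] [Algebra κ O] [Algebra.FiniteType κ O] [Field K] [Group G] [Finite G]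
    [Algebra k O] [Algebra O K] [Algebra k K] [IsScalarTower k O K] (ρ : G →* (K ≃ₐ[k] K))
    (T : G →* (O ≃ₐ[k] O)) (fin : Module.Finite k O) (inj : Function.Injective (algebraMap O K))
    (injk : Function.Injective (algebraMap k K))
    (com : ∀ g o, ρ g (algebraMap O K o) = algebraMap O K (T g o))
    (fai : ∀ g, (∀ o, T g o = o) → g = 1)
    (fix : ∀ o, (∀ g, T g o = o) → ∃ c : k, algebraMap k O c = o)
    (hin : ∀ 𝔓 : Ideal O, 𝔓.IsMaximal → ¬ p ^ 2 ∣ Nat.card {g // ∀ o, T g o - o ∈ 𝔓}) :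
    GF k O K G ρ T := by
  refine ⟨fin, inj, injk, com, fai, fix, ?_, ?_⟩
  · intro 𝔓 h𝔓 _ q hq hqP a
    exact resp_of κ p O 𝔓 h𝔓 q hq hqP a
  · intro 𝔓 h𝔓 h0
    refine hTAMF k O G T fai 𝔓 h𝔓 h0 ?_
    intro q hq hqP
    have hqp : q = p := by
      by_contra hne
      have h1 : (q : κ) ≠ 0 := by
        intro h
        have h2 := (CharP.cast_eq_zero_iff κ p q).1 h
        exact hne ((Nat.prime_dvd_prime_iff_eq Fact.out hq).1 h2).symm
      have h2 : IsUnit (q : O) := by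
        have h3 : (q : O) = algebraMap κ O (q : κ) := by rw [map_natCast]
        rw [h3]
        exact (IsUnit.mk0 _ h1).map _
      exact h𝔓.ne_top (Ideal.eq_top_of_isUnit_mem _ hqP h2)
    rw [hqp]
    exact hin 𝔓 h𝔓

end Pool.Agent.K3h75.FF
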