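import Pool.Agent.K3h75.FF.Ext

/-!
# Integrality over the ring of invariants
-/

set_option autoImplicit false
set_option linter.unusedSectionVars false

namespace Pool.Agent.K3h75.FF

open Polynomial

/-- A ring stable under a finite group is integral over the ring of invariants. -/
theorem inv_int {Y K G A : Type} [Field Y] [Field K] [Group G] [Finite G] [Algebra Y K]
    (ρ : G →* (K ≃ₐ[Y] K)) (hfix : ∀ x, (∀ g, ρ g x = x) ↔ ∃ y, algebraMap Y K y = x)
    [CommRing A] [Algebra A Y] [Algebra A K] [IsScalarTower A Y K] (C : Subring K)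
    (hst : ∀ g, ∀ c ∈ C, ρ g c ∈ C)
    (hA : ∀ y : Y, algebraMap Y K y ∈ C → ∃ a : A, algebraMap A Y a = y) {c : K} (hc : c ∈ C) :
    IsIntegral A c := by
  classical
  have := Fintype.ofFinite G
  obtain ⟨P, hP⟩ : ∃ P : K[X], P = ∏ g : G, (X - Polynomial.C (ρ g c)) := ⟨_, rfl⟩
  have hmon : P.Monic := by
    rw [hP]
    exact monic_prod_of_monic _ _ fun g _ => monic_X_sub_C _
  have hinv : ∀ (g : G) n, ρ g (P.coeff n) = P.coeff n := by
    intro g n
    have h1 : P.map ((ρ g : K ≃ₐ[Y] K) : K →+* K) = P := by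
      rw [hP, Polynomial.map_prod]
      refine Fintype.prod_equiv (Equiv.mulLeft g) _ _ fun h => ?_
      rw [Polynomial.map_sub, map_X, map_C, Equiv.coe_mulLeft, map_mul]
      rfl
    have h2 := congrArg (fun Q => Q.coeff n) h1
    simp only [coeff_map] at h2
    exact h2
  have hC : ∀ n, P.coeff n ∈ C := by
    intro n
    have h1 : P = (∏ g : G, (X - Polynomial.C (⟨ρ g c, hst g c hc⟩ : C))).map C.subtype := by
      rw [hP, Polynomial.map_prod]
      refine Finset.prod_congr rfl fun g _ => ?_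
      rw [Polynomial.map_sub, map_X, map_C]
      rfl
    rw [h1, coeff_map]
    exact Subtype.mem _
  have hl : P ∈ lifts (algebraMap A K) := by
    rw [lifts_iff_coeff_lifts]
    intro n
    obtain ⟨y, hy⟩ := (hfix _).1 fun g => hinv g n
    obtain ⟨a, ha⟩ := hA y (by rw [hy]; exact hC n)
    exact ⟨a, by rw [IsScalarTower.algebraMap_apply A Y K, ha, hy]⟩
  obtain ⟨Q, hQ, -, hQm⟩ := lifts_and_degree_eq_and_monic hl hmon
  refine ⟨Q, hQm, ?_⟩
  rw [← eval_map, hQ, hP, eval_prod]
  refine Finset.prod_eq_zero (Finset.mem_univ (1 : G)) ?_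
  rw [map_one, eval_sub, eval_X, eval_C]
  exact sub_self _

end Pool.Agent.K3h75.FF
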