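import Pool.Agent.K3h75.FF.RamG

/-!
# The base is covered by open subsets with wild ramification over at most one prime
(variant of `Pool.Agent.K3h75.FF.t_RAMF` with one more conclusion)
-/

set_option autoImplicit false
set_option linter.overlappingInstances false
set_option linter.unusedSectionVars false

namespace Pool.Agent.K3h75.FF

open Pool.Agent.Y223.G
open Pool.Agent.Y983.G (iO iO_coe iO_alg mem_ext)
open Pool.Agent.Y290.G (Ine mem_Ine mv T_inv T_inv' mem_mv mem_mv' mv_pow mv_mv mv_max mv_ne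
  mv_comap conj_mv conj_mv' Ine_mv Ine_mv' zp Orb)

/-- (With an additional estimate of the generators.) The base is covered by open subsets with wild ramification over at most one prime of `k`, where
the product of the ramified primes is principal; one of them is the complement of the ramified
primes. -/
def S_RAMF2 : Prop := ∀ (k O K G : Type) [CommRing k] [IsDomain k] [CommRing O] [IsDomain O]
  [IsDedekindDomain O] [Field K] [Group G] [Finite G] [Algebra k O] [Algebra O K] [Algebra k K]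
  [IsScalarTower k O K] (ρ : G →* (K ≃ₐ[k] K)) (T : G →* (O ≃ₐ[k] O)), GF k O K G ρ T →
  ∃ (β : Type) (_ : Finite β) (_ : Nonempty β) (o : β → k) (π : β → K) (b₀ : β),
    (∀ b, o b ≠ 0) ∧
    (∀ b, π b ≠ 0) ∧ Ideal.span (Set.range o) = ⊤ ∧
    (∀ b b', ∃ n : ℕ,
      algebraMap k K (o b') ^ n * (π b' / π b) ∈ OL O (K := K) (o b) ∧
      algebraMap k K (o b') ^ n * (π b / π b') ∈ OL O (K := K) (o b)) ∧ π b₀ = 1 ∧
    (∀ 𝔓 : Ideal O, 𝔓.IsMaximal → 𝔓 ≠ ⊥ → (∃ g, g ≠ 1 ∧ ∀ x, T g x - x ∈ 𝔓) →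
      algebraMap k O (o b₀) ∈ 𝔓) ∧
    (∀ x : O, (∀ 𝔓 : Ideal O, 𝔓.IsMaximal → 𝔓 ≠ ⊥ → (∃ g, g ≠ 1 ∧ ∀ y, T g y - y ∈ 𝔓) → x ∈ 𝔓) →
      ∀ b, algebraMap O K x / π b ∈ OL O (K := K) (o b)) ∧
    ∀ b, ∃ (_ : IsDedekindDomain (OL O (K := K) (o b)))
      (Tb : G →* (OL O (K := K) (o b) ≃ₐ[k] OL O (K := K) (o b))) (N : Type) (_ : Finite N)
      (𝔔 : N → Ideal (OL O (K := K) (o b))) (p l : N → ℕ) (τ : N → G)
      (π' : OL O (K := K) (o b)), (π' : K) = π b ∧ (b = b₀ → IsEmpty N) ∧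
      LocE k (OL O (K := K) (o b)) K G ρ Tb 𝔔 p l τ π' ∧
      (∀ i, ∃ g, g ≠ 1 ∧ (∀ x, Tb g x - x ∈ 𝔔 i) ∧ ∀ x ∈ 𝔔 i, Tb g x - x ∈ 𝔔 i ^ 2) ∧
      ∀ b', b' ≠ b → ∀ i, algebraMap k (OL O (K := K) (o b)) (o b') ∈ 𝔔 i

/-- **The base is covered by open subsets with wild ramification over at most one prime.** -/
theorem t_RAMF2 : S_RAM1F → S_RAMF2 := by
  intro hR k O K G _ _ _ _ _ _ _ _ _ _ _ _ ρ T h
  classical
  have := Fintype.ofFinite G
  let S : Set (Ideal O) := {P | P.IsMaximal ∧ P ≠ ⊥ ∧ ∃ g, g ≠ 1 ∧ ∀ o, T g o - o ∈ P}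
  have hSfin : S.Finite := by
    have h1 : ∀ g : G, {P : Ideal O | P.IsMaximal ∧ P ≠ ⊥ ∧ g ≠ 1 ∧ ∀ o, T g o - o ∈ P}.Finite := by
      intro g
      by_cases hg : g = 1
      · refine Set.finite_empty.subset ?_
        rintro P ⟨-, -, h1, -⟩
        exact (h1 hg).elim
      · have h2 : ∃ o, T g o ≠ o := by
          by_contra hcon
          push Not at hcon
          exact hg (h.fai g hcon)
        obtain ⟨o, ho⟩ := h2
        have hne : Ideal.span {T g o - o} ≠ (0 : Ideal O) := by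
          rw [Ideal.zero_eq_bot, Ne, Ideal.span_singleton_eq_bot, sub_eq_zero]
          exact ho
        have h1 := Ideal.finite_factors hne
        refine (h1.image fun v => v.asIdeal).subset ?_
        rintro P ⟨hP, hP0, -, hPt⟩
        refine ⟨⟨P, hP.isPrime, hP0⟩, ?_, rfl⟩
        change P ∣ _
        rw [Ideal.dvd_span_singleton]
        exact hPt o
    refine (Set.finite_iUnion h1).subset ?_
    rintro P ⟨hP, hP0, g, hg, hgo⟩
    exact Set.mem_iUnion.2 ⟨g, hP, hP0, hg, hgo⟩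
  let R : Set (Ideal k) := (fun P => P.comap (algebraMap k O)) '' S
  have hfR : Finite R := (hSfin.image _).to_subtype
  have := Fintype.ofFinite R
  have hfin := h.fin
  have hint : Algebra.IsIntegral k O := inferInstance
  have hch : ∀ b : R, ∃ P ∈ S, P.comap (algebraMap k O) = b.1 := fun b => b.2
  choose P hPS hPb using hch
  let q : R → Ideal k := fun b => b.1
  have hqm : ∀ b, (q b).IsMaximal := fun b => by
    have := (hPS b).1
    change (b.1).IsMaximal
    rw [← hPb b]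
    exact Ideal.isMaximal_comap_of_isIntegral_of_isMaximal (P b)
  have hqinj : ∀ b b', b' ≠ b → q b' ≠ q b := fun b b' hne e => hne (Subtype.ext e)
  obtain ⟨μ, hμn, hμm⟩ := sepk q hqm hqinj
  -- the local generators
  have hloc : ∀ b, ∃ (π : O) (ν : k), π ≠ 0 ∧ (∀ g, π ∈ mv T g (P b) ∧ π ∉ mv T g (P b) ^ 2) ∧
      (∀ g, algebraMap k O ν ∉ mv T g (P b)) ∧
      ∀ x, (∀ g, x ∈ mv T g (P b)) → ∃ y, algebraMap k O ν * x = y * π :=
    fun b => chE h (hPS b).1 (hPS b).2.1
  choose π₁ ν hπ0 hπq hνn hνx using hloc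
  have hcomq : ∀ b g, (mv T g (P b)).comap (algebraMap k O) = q b := fun b g => by
    rw [mv_comap, hPb]
  have hmq : ∀ b g c, algebraMap k O c ∈ mv T g (P b) ↔ c ∈ q b := fun b g c => by
    rw [← hcomq b g, Ideal.mem_comap]
  have hsn : ∀ b, μ b * ν b ∉ q b := by
    intro b hc
    have hp : (q b).IsPrime := (hqm b).isPrime
    rcases hp.mem_or_mem hc with h1 | h1
    · exact hμn b h1
    · exact hνn b 1 ((hmq b 1 _).2 h1)
  -- the last open subset
  obtain ⟨r, hr0, hrq, hr1⟩ : ∃ r : k, r ≠ 0 ∧ (∀ b, r ∈ q b) ∧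
      (1 : k) ∈ Ideal.span (Set.range fun b => μ b * ν b) ⊔ Ideal.span {r} := by
    have hJ : Ideal.span (Set.range fun b => μ b * ν b) ⊔ Finset.univ.inf q = ⊤ := by
      by_contra hcon
      obtain ⟨𝔪, hm, hle⟩ := Ideal.exists_le_maximal _ hcon
      have h1 : Finset.univ.inf q ≤ 𝔪 := le_sup_right.trans hle
      obtain ⟨b, _, hb⟩ := hm.isPrime.inf_le'.1 h1
      have h2 : q b = 𝔪 := (hqm b).eq_of_le hm.ne_top hb
      apply hsn b
      rw [h2]
      exact (le_sup_left.trans hle) (Ideal.subset_span ⟨b, rfl⟩)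
    rw [Ideal.eq_top_iff_one] at hJ
    obtain ⟨y, hy, r, hr, hyr⟩ := Submodule.mem_sup.1 hJ
    have hr' : ∀ b, r ∈ q b := fun b => (Finset.inf_le (Finset.mem_univ b) : _ ≤ q b) hr
    by_cases hr0 : r = 0
    · have h1 : ∀ b, ∃ c ∈ q b, c ≠ 0 := by
        intro b
        obtain ⟨x, hx, hx0⟩ := Submodule.exists_mem_ne_zero_of_ne_bot (hPS b).2.1
        obtain ⟨c, hc⟩ := normE h x
        refine ⟨c, ?_, ?_⟩
        · change c ∈ b.1
          rw [← hPb b, Ideal.mem_comap, hc]
          refine Ideal.mem_of_dvd _ (Finset.dvd_prod_of_mem _ (Finset.mem_univ (1 : G))) ?_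
          rw [map_one, AlgEquiv.one_apply]
          exact hx
        · rintro rfl
          rw [map_zero] at hc
          obtain ⟨a, _, ha⟩ := Finset.prod_eq_zero_iff.1 hc.symm
          exact hx0 ((map_eq_zero_iff _ (T a).injective).1 ha)
      choose c hc hc0 using h1
      refine ⟨∏ b, c b, Finset.prod_ne_zero_iff.2 fun b _ => hc0 b, fun b =>
        Ideal.mem_of_dvd _ (Finset.dvd_prod_of_mem _ (Finset.mem_univ b)) (hc b), ?_⟩
      rw [← hyr, hr0, add_zero]
      exact Ideal.mem_sup_left hy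
    · refine ⟨r, hr0, hr', ?_⟩
      rw [← hyr]
      exact Ideal.add_mem _ (Ideal.mem_sup_left hy)
        (Ideal.mem_sup_right (Ideal.mem_span_singleton_self r))
  let o : Option R → k := fun b => b.elim r (fun b => μ b * ν b)
  let π₀ : Option R → O := fun b => b.elim 1 π₁
  have ho : ∀ b, o b ≠ 0 := by
    rintro (_ | b)
    · exact hr0
    · intro hc
      apply hsn b
      have hc' : μ b * ν b = 0 := hc
      rw [hc']
      exact (q b).zero_mem
  have hπ : ∀ b, π₀ b ≠ 0 := by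
    rintro (_ | b)
    · exact one_ne_zero
    · exact hπ0 b
  have hoq : ∀ b' c, b' ≠ some c → o b' ∈ q c := by
    rintro (_ | b) c hb
    · exact hrq c
    · have h1 : c ≠ b := fun e => hb (by rw [e])
      exact (q c).mul_mem_right _ (hμm b c h1)
  have hprod : ∀ b b', b' ≠ b → ∃ y : O, algebraMap k O (o b) * algebraMap k O (o b') =
      y * π₀ b := by
    rintro (_ | c) b' hb
    · exact ⟨_, (mul_one _).symm⟩
    · obtain ⟨y, hy⟩ := hνx c (algebraMap k O (o b')) fun g => (hmq c g _).2 (hoq b' c hb)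
      refine ⟨algebraMap k O (μ c) * y, ?_⟩
      change algebraMap k O (μ c * ν c) * _ = _ * π₁ c
      rw [map_mul, mul_assoc, hy, mul_assoc]
  have hπK : ∀ b, algebraMap O K (π₀ b) ≠ 0 := fun b hc =>
    hπ b (h.inj (by rw [hc, map_zero]))
  refine ⟨Option R, inferInstance, inferInstance, o, fun b => algebraMap O K (π₀ b), none, ho, hπK,
    ?_, ?_, map_one _, ?_, ?_, ?_⟩
  · rw [Ideal.eq_top_iff_one]
    have hle : Ideal.span (Set.range fun b => μ b * ν b) ⊔ Ideal.span {r} ≤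
        Ideal.span (Set.range o) := by
      rw [sup_le_iff, Ideal.span_le, Ideal.span_le]
      constructor
      · rintro _ ⟨b, rfl⟩
        exact Ideal.subset_span ⟨some b, rfl⟩
      · rintro _ rfl
        exact Ideal.subset_span ⟨none, rfl⟩
    exact hle hr1
  · intro b b'
    by_cases hb : b' = b
    · refine ⟨0, ?_, ?_⟩
      · rw [hb, pow_zero, one_mul, div_self (hπK b)]
        exact Subalgebra.one_mem _
      · rw [hb, pow_zero, one_mul, div_self (hπK b)]
        exact Subalgebra.one_mem _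
    · obtain ⟨y, hy⟩ := hprod b b' hb
      obtain ⟨y', hy'⟩ := hprod b' b (Ne.symm hb)
      have e1 := congrArg (algebraMap O K) hy
      have e2 := congrArg (algebraMap O K) hy'
      rw [map_mul, map_mul, ← IsScalarTower.algebraMap_apply k O K,
        ← IsScalarTower.algebraMap_apply k O K] at e1 e2
      refine ⟨1, ⟨1, y * π₀ b', ?_⟩, ⟨1, y' * π₀ b, ?_⟩⟩
      · rw [pow_one, pow_one, ← mul_assoc, e1, map_mul, mul_assoc, mul_div_cancel₀ _ (hπK b)]
      · rw [pow_one, pow_one, ← mul_assoc, mul_comm (algebraMap k K (o b)), e2, map_mul, mul_assoc,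
          mul_div_cancel₀ _ (hπK b')]
  · intro 𝔓 h𝔓 h𝔓0 hg
    obtain ⟨g, hg1, hgo⟩ := hg
    have h2 : 𝔓 ∈ S := ⟨h𝔓, h𝔓0, g, hg1, hgo⟩
    have h3 : 𝔓.comap (algebraMap k O) ∈ R := ⟨𝔓, h2, rfl⟩
    exact hrq ⟨_, h3⟩
  · intro x hx
    rintro (_ | c)
    · refine ⟨0, x, ?_⟩
      change algebraMap k K r ^ 0 * (algebraMap O K x / algebraMap O K 1) = _
      rw [pow_zero, one_mul, map_one, div_one]
    · have hx' : ∀ g, x ∈ mv T g (P c) := by
        intro g
        obtain ⟨g₁, hg₁, hg₁o⟩ := (hPS c).2.2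
        have hmax : (mv T g (P c)).IsMaximal := mv_max g (hPS c).1
        refine hx _ hmax (mv_ne g (hPS c).2.1) ⟨g * g₁ * g⁻¹, ?_, ?_⟩
        · intro e
          apply hg₁
          have e1 : g₁ = g⁻¹ * (g * g₁ * g⁻¹) * g := by group
          rw [e1, e]
          group
        · exact (Ine_mv g g₁ (P c)).2 hg₁o
      obtain ⟨y, hy⟩ := hνx c x hx'
      refine ⟨1, algebraMap k O (μ c) * y, ?_⟩
      change algebraMap k K (μ c * ν c) ^ 1 * (algebraMap O K x / algebraMap O K (π₁ c)) = _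
      have e1 := congrArg (algebraMap O K) hy
      have e2 : algebraMap O K (π₁ c) ≠ 0 := hπK (some c)
      rw [map_mul, map_mul, ← IsScalarTower.algebraMap_apply k O K] at e1
      rw [pow_one, map_mul, map_mul, ← IsScalarTower.algebraMap_apply k O K, mul_assoc,
        ← mul_div_assoc, e1, mul_div_assoc, div_self e2, mul_one]
  · -- the ramified primes outside the open subsets
    have hout : ∀ (𝔮 : Ideal O), 𝔮.IsPrime → 𝔮 ≠ ⊥ → ∀ g, g ≠ 1 → (∀ x, T g x - x ∈ 𝔮) →
        ∃ c : R, 𝔮.comap (algebraMap k O) = q c ∧ ∃ g', 𝔮 = mv T g' (P c) := by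
      intro 𝔮 hq hq0 g hg1 hg
      have hqm' : 𝔮.IsMaximal := hq.isMaximal hq0
      have h2 : 𝔮 ∈ S := ⟨hqm', hq0, g, hg1, hg⟩
      have h3 : 𝔮.comap (algebraMap k O) ∈ R := ⟨𝔮, h2, rfl⟩
      exact ⟨⟨_, h3⟩, rfl, transE h (hPS ⟨_, h3⟩).1 hqm' (hPb ⟨_, h3⟩)⟩
    have hemp : PreE T (fun i : Empty => i.elim) (fun i => i.elim) (fun i => i.elim)
          (fun i => i.elim) :=
        ⟨fun i => i.elim, fun i => i.elim, fun i => i.elim, fun i => i.elim,
          fun _ i => i.elim⟩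
    rintro (_ | c)
    · obtain ⟨hD, hL, -⟩ := locE h (s := r) hr0 hemp (fun i => i.elim) 1 one_ne_zero
        (fun g => ⟨algebraMap k O r, by rw [map_one]⟩) (fun i => i.elim)
        (fun 𝔮 hq hq0 _ hs g hg _ => by
          by_contra hg1
          obtain ⟨c, hc, -⟩ := hout 𝔮 hq hq0 g hg1 hg
          apply hs
          rw [← Ideal.mem_comap, hc]
          exact hrq c)
        (fun i => i.elim)
      exact ⟨hD, _, Empty, inferInstance, _, _, _, _, _, rfl, fun _ => inferInstance, hL,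
        fun i => i.elim, fun b' hb' i => i.elim⟩
    · set s : k := μ c * ν c with hs
      have hs0 : s ≠ 0 := ho (some c)
      have hsP : ∀ g, algebraMap k O s ∉ mv T g (P c) := fun g hc => hsn c ((hmq c g s).1 hc)
      have hsx : ∀ x, (∀ g, x ∈ mv T g (P c)) → ∃ y, algebraMap k O s * x = y * π₁ c := by
        intro x hx
        obtain ⟨y, hy⟩ := hνx c x hx
        refine ⟨algebraMap k O (μ c) * y, ?_⟩
        rw [hs, map_mul, mul_assoc, hy, mul_assoc]
      have hTπ : ∀ g g', T g (π₁ c) ∈ mv T g' (P c) := by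
        intro g g'
        have h3 := (hπq c (g⁻¹ * g')).1
        rw [← mv_mv, mem_mv, inv_inv] at h3
        exact h3
      have hwi : ∀ g, ∃ y : O, algebraMap k O s * T g (π₁ c) = y * π₁ c := fun g =>
        hsx _ (hTπ g)
      have hwl : ∀ g₀ g, (∀ x, T g x - x ∈ mv T g₀ (P c)) →
          (∀ y : O, algebraMap k O s * T g (π₁ c) = y * π₁ c →
            y - algebraMap k O s ∈ mv T g₀ (P c)) →
          ∀ x ∈ mv T g₀ (P c), T g x - x ∈ mv T g₀ (P c) ^ 2 := fun g₀ g hg hw =>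
        wlE (hPS c).1 (fun g => (hπq c g).1) hsP (fun g => AlgEquiv.commutes _ _) hsx g₀ g hg hw
      have hout2 : ∀ (𝔮 : Ideal O), 𝔮.IsPrime → 𝔮 ≠ ⊥ → algebraMap k O s ∉ 𝔮 → ∀ g, g ≠ 1 →
          (∀ x, T g x - x ∈ 𝔮) → ∃ g', 𝔮 = mv T g' (P c) := by
        intro 𝔮 hq hq0 hsq g hg1 hg
        obtain ⟨c', hc', g', hg'⟩ := hout 𝔮 hq hq0 g hg1 hg
        by_cases e : c' = c
        · rw [e] at hg'
          exact ⟨g', hg'⟩
        · exfalso
          apply hsq
          rw [← Ideal.mem_comap, hc', hs]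
          exact (q c').mul_mem_right _ (hμm c c' e)
      by_cases hW : ∃ g₁, g₁ ≠ 1 ∧ g₁ ∈ Wil T (P c)
      · obtain ⟨g₁, hg₁, hg₁W⟩ := hW
        obtain ⟨p, l, τ, hd⟩ := dataE hR h (hPS c).1 (hPS c).2.1 hg₁ hg₁W
        obtain ⟨hD, hL, hI⟩ := locE h (s := s) hs0 hd
          (by
            rintro ⟨Q, g, rfl⟩
            exact hsP g) (π₁ c) (hπ0 c) hwi
          (by
            rintro ⟨Q, g, rfl⟩
            exact hπq c g)
          (fun 𝔮 hq hq0 hqi hsq g hg _ => by
            by_contra hg1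
            obtain ⟨g', hg'⟩ := hout2 𝔮 hq hq0 hsq g hg1 hg
            exact hqi ⟨𝔮, g', hg'⟩ rfl)
          (by
            rintro ⟨Q, g₀, rfl⟩ g hg hw
            exact hwl g₀ g hg hw)
        refine ⟨hD, TB h s, Orb T (P c), inferInstance, _, p, l, τ, iO s (π₁ c), rfl,
          fun h => (by cases h), hL, ?_, ?_⟩
        · intro i
          refine hI i ?_
          obtain ⟨g, hg⟩ := i.2
          have h5 : g * g₁ * g⁻¹ ∈ Wil T (mv T g (P c)) := (Wil_mv g g₁ (P c)).2 hg₁W
          rw [← hg] at h5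
          refine ⟨g * g₁ * g⁻¹, ?_, h5.1, h5.2⟩
          intro e
          apply hg₁
          have e1 : g₁ = g⁻¹ * (g * g₁ * g⁻¹) * g := by group
          rw [e1, e]
          group
        · intro b' hb' i
          have h3 : algebraMap k O (o b') ∈ i.1 := by
            obtain ⟨g, hg⟩ := i.2
            rw [hg, hmq]
            exact hoq b' c hb'
          change algebraMap k (OL O (K := K) s) (o b') ∈ _
          rw [← iO_alg]
          exact Ideal.mem_map_of_mem _ h3
      · obtain ⟨hD, hL, -⟩ := locE h (s := s) hs0 hemp (fun i => i.elim) (π₁ c) (hπ0 c) hwi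
          (fun i => i.elim)
          (fun 𝔮 hq hq0 _ hsq g hg hw => by
            by_contra hg1
            obtain ⟨g', hg'⟩ := hout2 𝔮 hq hq0 hsq g hg1 hg
            subst hg'
            have h4 : g ∈ Wil T (mv T g' (P c)) := ⟨hg, hwl g' g hg hw⟩
            rw [Wil_mv'] at h4
            apply hW
            refine ⟨_, ?_, h4⟩
            intro e
            apply hg1
            have e1 : g = g' * (g'⁻¹ * g * g') * g'⁻¹ := by group
            rw [e1, e]
            group)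
          (fun i => i.elim)
        exact ⟨hD, TB h s, Empty, inferInstance, _, _, _, _, iO s (π₁ c), rfl,
          fun _ => inferInstance, hL, fun i => i.elim, fun b' hb' i => i.elim⟩

end Pool.Agent.K3h75.FF
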