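import Pool.Agent.K3h75.FF.Core
import Pool.Agent.K3h75.FF.Ram2
import Pool.Agent.K3h75.FF.Stm4

/-!
# The charts over one affine piece of a projective curve
-/

set_option autoImplicit false
set_option linter.unusedSectionVars false
set_option linter.overlappingInstances false

namespace Pool.Agent.K3h75.FF

open Pool.Agent.Y223.G Pool.Agent.R383.TM Pool.Agent.Y858.H
open Pool.Agent.Y515.G (ext_val int_mem)
open Pool.Agent.Y232.G6 (exists_inv_mem Ph Ph_hm mem_res)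
open Pool.Agent.Y564.G (CG_OL CG_gen)
open Pool.Agent.Y25.G (OL_alg)

/-- The data of a chart over the open subset `s ≠ 0` of an affine piece of the curve. -/
structure Cht (k O K : Type) [CommRing k] [CommRing O] [Field K] [Algebra k O] [Algebra O K]
    [Algebra k K] [IsScalarTower k O K] (m : ℕ) where
  s : k
  N : Type
  𝔔 : N → Ideal (OL O (K := K) s)
  e : N → ℕ
  W : N → Unit → Fin (m + 1) → ℕ
  π : K

/-- The gluing condition. -/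
def Glu {k K K₂ : Type} [CommRing k] [Field K] [Field K₂] [Algebra k K] [Algebra k K₂]
    (ε : LP K →ₐ[k] K₂) (A B : Set (LP K₂)) (ν : K) : Prop :=
  hm 0 (ε (hm 0 ν)) ∈ A ∧ ∀ f ∈ B, ∃ n : ℕ, hm 0 (ε (hm 0 ν)) ^ n * f ∈ A

theorem hm0_mul {k K K₂ : Type} [CommRing k] [Field K] [Field K₂] [Algebra k K] [Algebra k K₂]
    (ε : LP K →ₐ[k] K₂) (a b : K) :
    hm 0 (ε (hm 0 (a * b))) = hm 0 (ε (hm 0 a)) * hm 0 (ε (hm 0 b)) := by
  have h1 : (hm 0 (a * b) : LP K) = hm 0 a * hm 0 b := by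
    rw [hm_mul, add_zero]
  rw [h1, map_mul, hm_mul, add_zero]

theorem glu_comb {k k' K K₂ : Type} [CommRing k] [CommRing k'] [Field K] [Field K₂] [Algebra k K]
    [Algebra k K₂] [Algebra k' K₂] {ε : LP K →ₐ[k] K₂} (A : Subalgebra k' (LP K₂))
    {B C : Set (LP K₂)} {ν₁ ν₂ : K} (h1 : Glu ε B C ν₁) (h2 : Glu ε A B ν₂)
    (h3 : hm 0 (ε (hm 0 ν₁)) ∈ A) : Glu ε A C (ν₁ * ν₂) := by
  unfold Glu
  rw [hm0_mul]
  refine ⟨A.mul_mem h3 h2.1, fun f hf => ?_⟩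
  obtain ⟨n₁, hn₁⟩ := h1.2 f hf
  obtain ⟨n₂, hn₂⟩ := h2.2 _ hn₁
  refine ⟨n₁ + n₂, ?_⟩
  obtain ⟨a, ha⟩ : ∃ a, a = hm 0 (ε (hm 0 ν₁)) := ⟨_, rfl⟩
  obtain ⟨b, hb⟩ : ∃ b, b = hm 0 (ε (hm 0 ν₂)) := ⟨_, rfl⟩
  rw [← ha, ← hb] at hn₂ ⊢
  rw [← ha] at h3
  have h4 : b ∈ A := by
    rw [hb]
    exact h2.1
  have e1 : (a * b) ^ (n₁ + n₂) * f = a ^ n₂ * b ^ n₁ * (b ^ n₂ * (a ^ n₁ * f)) := by
    ring
  rw [e1]
  exact A.mul_mem (A.mul_mem (pow_mem h3 _) (pow_mem h4 _)) hn₂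

/-- `x` vanishes at all ramified points. -/
def VanR {k O G : Type} [CommRing k] [CommRing O] [Group G] [Algebra k O] (T : G →* (O ≃ₐ[k] O))
    (x : O) : Prop :=
  ∀ 𝔓 : Ideal O, 𝔓.IsMaximal → 𝔓 ≠ ⊥ → (∃ g, g ≠ 1 ∧ ∀ y, T g y - y ∈ 𝔓) → x ∈ 𝔓

section

variable {k O M Y K G : Type} [CommRing k] [IsDomain k] [IsNoetherianRing k]
    [CommRing O] [IsDomain O]
    [IsDedekindDomain O] [Field M] [Field Y] [Field K] [Group G] [Finite G] [Algebra k O]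
    [Algebra O K] [Algebra k K] [IsScalarTower k O K] [Algebra M K] [Algebra k Y] [Algebra Y K]
    [IsScalarTower k Y K] {Y₂ K₂ : Type} [Field Y₂] [Field K₂] [Algebra Y Y₂] [Algebra Y K₂]
    [Algebra k Y₂] [Algebra k K₂] [IsScalarTower k Y Y₂] [IsScalarTower k Y K₂]

/-- The chart of the form `Φ`. -/
noncomputable def Cht.R {m : ℕ} (c : Cht k O K m) (ε : LP K →ₐ[Y] K₂) (z : Fin (m + 1) → K)
    (d : ℕ) (Φ : K) : Subalgebra k (LP K₂) :=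
  GRW O (ε.restrictScalars k) (fun _ : Unit => z) c.s c.𝔔 c.e c.W c.π d (fun _ => Φ)

/-- The properties of the charts over one affine piece. -/
structure IsPc {m : ℕ} (T : G →* (O ≃ₐ[k] O)) (ι₂ : Y₂ →ₐ[Y] K₂) (εY : LP Y →ₐ[Y] Y₂)
    (ε : LP K →ₐ[Y] K₂) (z : Fin (m + 1) → K) (d : ℕ) (S : Set K) {β : Type}
    (c : β → Cht k O K m) : Prop where
  fin : ∀ b, Finite (c b).N
  s0 : ∀ b, algebraMap k K (c b).s ≠ 0
  e0 : ∀ b i, 0 < (c b).e i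
  p0 : ∀ b, (c b).π ≠ 0
  sp : Ideal.span (Set.range fun b => (c b).s) = ⊤
  pm : ∀ b, (c b).π ∈ OL O (K := K) (c b).s
  r1 : ∀ x : O, VanR T x → ∀ b, algebraMap O K x / (c b).π ∈ OL O (K := K) (c b).s
  r2 : ∀ x : O, VanR T x → ∀ b i,
    (⟨algebraMap O K x, mem_OLb _ x⟩ : OL O (K := K) (c b).s) ∈ (c b).𝔔 i
  ch : ∀ b, ∀ Φ ∈ S, Ch (res (ι₂.restrictScalars k) ((c b).R ε z d Φ))
  bg : ∀ b, ∀ Φ ∈ S, BG (εY.restrictScalars k) (res (ι₂.restrictScalars k) ((c b).R ε z d Φ))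
  si : ∀ b, ∀ Φ ∈ S, hm 0 (εY (hm (-1) 1)) ∈ res (ι₂.restrictScalars k) ((c b).R ε z d Φ)
  su : ∀ b, ∀ Φ ∈ S, ∃ w : Y, w ≠ 0 ∧
    hm 0 (εY (hm (Nat.card G) w)) ∈ res (ι₂.restrictScalars k) ((c b).R ε z d Φ) ∧
    hm 0 (εY (hm (-(Nat.card G : ℤ)) w⁻¹)) ∈ res (ι₂.restrictScalars k) ((c b).R ε z d Φ)
  fr : ∀ b, ∀ Φ ∈ S, ∀ x : Y₂, ∃ y y' : Y₂,
    hm 0 y ∈ res (ι₂.restrictScalars k) ((c b).R ε z d Φ) ∧
    hm 0 y' ∈ res (ι₂.restrictScalars k) ((c b).R ε z d Φ) ∧ y' ≠ 0 ∧ x = y / y'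
  gb : ∀ b b', ∀ Φ ∈ S, Glu ε ((c b).R ε z d Φ) ((c b').R ε z d Φ)
    (algebraMap k K (c b').s / algebraMap k K (c b).s)
  gf : ∀ b, ∀ Φ ∈ S, ∀ Φ' ∈ S, Glu ε ((c b).R ε z d Φ) ((c b).R ε z d Φ') (Φ' / Φ)

/-- **The charts over one affine piece.** -/
theorem exists_pc (hRAMF : S_RAMF2) (hRES : S_RES2) (hGLW : S_GLW) (hGFF : S_GFF)
    (hCH : S_CHW) (hRWB : S_RWB) (hREGL : S_REGL)
    (ρ : G →* (K ≃ₐ[Y] K)) (T : G →* (O ≃ₐ[k] O)) (m : ℕ)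
    (z : Fin (m + 1) → K)
    (hyp : GHF k O M Y K G Unit (IsScalarTower.toAlgHom k Y K) (rsk k ρ) T m (fun _ => z))
    (e : Ideal O → ℕ) (W : Ideal O → Fin (m + 1) → ℕ) (hD : WD k O K G (rsk k ρ) T z e W)
    (ι₂ : Y₂ →ₐ[Y] K₂) (εY : LP Y →ₐ[Y] Y₂) (ε : LP K →ₐ[Y] K₂) (ρ₂ : G →* (K₂ ≃ₐ[Y] K₂))
    (hX : Ext2M (Algebra.ofId Y K) ι₂ εY ε ρ ρ₂)
    (d : ℕ) (hd : 1 ≤ d) (S : Set K)
    (hS : ∀ Φ ∈ S, FmL k O K G Unit (rsk k ρ) (fun _ => z) d (fun _ => Φ)) :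
    ∃ (β : Type) (_ : Finite β) (c : β → Cht k O K m), IsPc T ι₂ εY ε z d S c := by
  classical
  have hE := ext_res (k := k) hX
  have hinjk : Function.Injective (algebraMap k K) := hyp.injk
  obtain ⟨β, _, _, o, π, b₀, ho, hπ0, hspan, hππ, -, -, hr1, hb⟩ :=
    hRAMF k O K G (rsk k ρ) T hyp.toGF
  choose dd Tb N hN 𝔔 p l τ π' hπ' hN0 hL hg hor using hb
  choose ee WW hee hCh using fun b => w_CHF hCH hRWB hREGL k O M Y Y₂ K K₂ G _ _ _ _ _ _ hE T m z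
    hyp e W hD (o b) (dd b) (Tb b) (N b) (𝔔 b) (p b) (l b) (τ b) (π' b) (ho b) (hL b) (hg b)
  have hoK : ∀ b, algebraMap k K (o b) ≠ 0 := by
    intro b h
    apply ho b
    apply hinjk
    rw [h, map_zero]
  have hRπ : ∀ b (Φ : K), GRW O (ε.restrictScalars k) (fun _ : Unit => z) (o b) (𝔔 b) (ee b)
      (WW b) (π b) d (fun _ => Φ) = GRW O (ε.restrictScalars k)
      (fun _ : Unit => z) (o b) (𝔔 b) (ee b) (WW b) (π' b : K) d (fun _ => Φ) := by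
    intro b Φ
    rw [hπ']
  have hfr := fun b Φ hΦ => hGFF k O M Y Y₂ K K₂ G Unit _ _ _ _ _ _ hE T m (fun _ => z) hyp (o b)
    (dd b) (Tb b) (N b) (𝔔 b) (p b) (l b) (τ b) (π' b) (ho b) (hL b)
    (ee b) (WW b) (hee b) d (fun _ => Φ) hd (hS Φ hΦ)
    (res (ι₂.restrictScalars k) (GRW O (ε.restrictScalars k) (fun _ : Unit => z) (o b) (𝔔 b) (ee b)
      (WW b) (π b) d (fun _ => Φ))) (by rw [hRπ])
  have hgr : ∀ b Φ, Gr (RX k (CG (OL O (K := K) (o b)) (fun _ : Unit => z) d (fun _ => Φ))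
      (fun i => RW k (𝔔 b i) (ee b i) (WW b i) (fun _ : Unit => z) d (fun _ => Φ))) := fun b Φ =>
    Pool.Agent.Y550.H.gr_RX _ _ fun i => Pool.Agent.Y550.H.RW_gr (𝔔 b i) (ee b i) (WW b i)
      (fun _ => z) d (fun _ => Φ)
  have hres := fun b Φ => hRES k Y Y₂ K K₂ G _ _ _ _ _ _ hE hyp.fixK _ (hgr b Φ) (π b) (hπ0 b)
  refine ⟨β, inferInstance, fun b => ⟨o b, N b, 𝔔 b, ee b, WW b, π b⟩, ?_⟩
  refine
  { fin := hN
    s0 := hoK
    e0 := hee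
    p0 := hπ0
    sp := hspan
    pm := fun b => by rw [← hπ' b]; exact (π' b).2
    r1 := fun x hx b => hr1 x hx b
    r2 := ?_
    ch := ?_
    bg := fun b Φ _ => (hres b Φ).1
    si := fun b Φ hΦ => (hfr b Φ hΦ).2.2.2.1
    su := fun b Φ hΦ => (hfr b Φ hΦ).2.2.2.2
    fr := fun b Φ hΦ => (hfr b Φ hΦ).1
    gb := ?_
    gf := ?_ }
  · intro x hx b i
    rw [← mem_ctr]
    have hM : (ctr (o b) (𝔔 b i)).IsMaximal := ctr_maximal hyp.inj ((hL b).mx i) ((hL b).ne i)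
    obtain ⟨g, hg1, hgo, -⟩ := hg b i
    refine hx _ hM ?_ ⟨g, hg1, fun y => ?_⟩
    · obtain ⟨a, ha, ha0⟩ := Submodule.exists_mem_ne_zero_of_ne_bot ((hL b).ne i)
      obtain ⟨n, y, hy⟩ := a.2
      intro hbot
      have h1 : y ∈ ctr (o b) (𝔔 b i) := by
        rw [mem_ctr]
        have h2 : (⟨algebraMap O K y, mem_OLb _ y⟩ : OL O (K := K) (o b)) =
            (algebraMap k (OL O (K := K) (o b)) (o b)) ^ n * a := by
          apply Subtype.ext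
          change algebraMap O K y = ((algebraMap k (OL O (K := K) (o b)) (o b)) ^ n * a :
            OL O (K := K) (o b))
          rw [MulMemClass.coe_mul, SubmonoidClass.coe_pow, ← hy]
          rfl
        rw [h2]
        exact Ideal.mul_mem_left _ _ ha
      rw [hbot, Ideal.mem_bot] at h1
      rw [h1, map_zero] at hy
      rcases mul_eq_zero.1 hy with h3 | h3
      · exact pow_ne_zero n (hoK b) h3
      · exact ha0 (Subtype.ext h3)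
    · rw [mem_ctr]
      have h2 : (⟨algebraMap O K (T g y - y), mem_OLb _ _⟩ : OL O (K := K) (o b)) =
          Tb b g ⟨algebraMap O K y, mem_OLb _ y⟩ - ⟨algebraMap O K y, mem_OLb _ y⟩ := by
        apply Subtype.ext
        change algebraMap O K (T g y - y) =
          ((Tb b g ⟨algebraMap O K y, mem_OLb _ y⟩ - ⟨algebraMap O K y, mem_OLb _ y⟩ :
            OL O (K := K) (o b)) : K)
        rw [AddSubgroupClass.coe_sub, map_sub, ← hyp.com]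
        congr 1
        exact (hL b).com g ⟨algebraMap O K y, mem_OLb _ y⟩
      rw [h2]
      exact hgo _
  · intro b Φ hΦ
    change Ch (res (ι₂.restrictScalars k) (GRW O (ε.restrictScalars k) (fun _ : Unit => z) (o b)
      (𝔔 b) (ee b) (WW b) (π b) d (fun _ => Φ)))
    rw [hRπ]
    exact hCh b d (fun _ => Φ) hd (hS Φ hΦ)
  · intro b b' Φ hΦ
    by_cases hbb : b' = b
    · subst hbb
      unfold Glu
      rw [div_self (hoK b'), hm_one, map_one, hm_one]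
      refine ⟨Subalgebra.one_mem _, fun f hf => ⟨0, ?_⟩⟩
      rw [pow_zero, one_mul]
      exact hf
    · exact (hGLW k O K K₂ G Unit _ hE.eK (rsk k ρ) m (fun _ => z) (o b) (hoK b) (N b)
        (𝔔 b) (ee b) (WW b) (hee b) (π b) (hπ0 b) d (fun _ => Φ) (hS Φ hΦ)).2 (o b') (hoK b') (N b')
        (𝔔 b') (ee b') (WW b') (π b') (hπ0 b') (hor b b' hbb) (hππ b b')
  · intro b Φ hΦ Φ' hΦ'
    exact (hGLW k O K K₂ G Unit _ hE.eK (rsk k ρ) m (fun _ => z) (o b) (hoK b) (N b)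
        (𝔔 b) (ee b) (WW b) (hee b) (π b) (hπ0 b) d (fun _ => Φ) (hS Φ hΦ)).1 (fun _ => Φ')
        (hS Φ' hΦ') _ ⟨inferInstance, by rw [Fintype.prod_unique]⟩

end

end Pool.Agent.K3h75.FF
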