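import Pool.Agent.K3h75.FF.Gf
import Pool.Agent.K3h75.FF.Core
import Pool.Agent.K3h75.FF.Stm3
import Pool.Agent.K3h75.FF.StmS
import Pool.Agent.Y929.G.Step

/-!
# Resolution of quotients of toric schemes over affine curves
-/

set_option autoImplicit false
set_option linter.unusedSectionVars false

namespace Pool.Agent.K3h75.FF

open Pool.Agent.Y223.G Pool.Agent.R383.TM AlgebraicGeometry CategoryTheory
open Pool.Agent.K3h75.TO Pool.Agent.K3h22.PK Pool.Agent.K3h75.TV

section base

variable (κ O G : Type) [Field κ] [CommRing O] [IsDomain O] [Algebra κ O]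
  [Algebra.FiniteType κ O] [Group G] [Finite G] [MulSemiringAction G O] [SMulCommClass G κ O]

theorem fix_integral : Algebra.IsIntegral (FixedPoints.subalgebra κ O G) O := by
  have : Algebra.IsInvariant (FixedPoints.subalgebra κ O G) O G :=
    ⟨fun b hb => ⟨⟨b, hb⟩, rfl⟩⟩
  exact Algebra.IsInvariant.isIntegral _ _ G

theorem fix_ft : Algebra.FiniteType κ (FixedPoints.subalgebra κ O G) := by
  refine Pool.Agent.Y929.G.ft_inv (B := O) (FixedPoints.subalgebra κ O G).val
    Subtype.val_injective ?_ inferInstance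
  intro b
  exact (fix_integral κ O G).isIntegral b

theorem fix_finite : Module.Finite (FixedPoints.subalgebra κ O G) O := by
  have h1 := fix_integral κ O G
  have h2 : Algebra.FiniteType (FixedPoints.subalgebra κ O G) O :=
    Algebra.FiniteType.of_restrictScalars_finiteType κ _ O
  exact Algebra.IsIntegral.finite

theorem fix_noeth : IsNoetherianRing (FixedPoints.subalgebra κ O G) := by
  have h1 := fix_ft κ O G
  exact Algebra.FiniteType.isNoetherianRing κ _

end base

section chart

variable {O K Λ : Type} [CommRing O] [Field K] [Algebra O K] [AddCommGroup Λ] {x : Λ → K}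
  {P : Finset Λ} {n m : ℕ} {z : Fin (m + 1) → K}

/-- A product of `n` combinations of the characters in `P`. -/
theorem span_mul_Pk (hxa : ∀ a b, x (a + b) = x a * x b) {μ : Λ} (hμ : μ ∈ P) {y : K}
    (hy : y ∈ Submodule.span O (x '' (Pk P n : Set Λ))) :
    x μ * y ∈ Submodule.span O (x '' (Pk P (n + 1) : Set Λ)) := by
  classical
  induction hy using Submodule.span_induction with
  | mem y hy =>
    obtain ⟨ν, hν, rfl⟩ := hy
    rw [← hxa]
    refine Submodule.subset_span ⟨μ + ν, ?_, rfl⟩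
    rw [Finset.mem_coe] at hν ⊢
    rw [Pk]
    exact Finset.mem_image₂.2 ⟨μ, hμ, ν, hν, rfl⟩
  | zero => rw [mul_zero]; exact Submodule.zero_mem _
  | add a b _ _ ha hb => rw [mul_add]; exact Submodule.add_mem _ ha hb
  | smul c a _ ha => rw [mul_smul_comm]; exact Submodule.smul_mem _ _ ha

theorem span_mul_Pk' (hxa : ∀ a b, x (a + b) = x a * x b) {s y : K}
    (hs : s ∈ Submodule.span O (x '' (P : Set Λ)))
    (hy : y ∈ Submodule.span O (x '' (Pk P n : Set Λ))) :
    s * y ∈ Submodule.span O (x '' (Pk P (n + 1) : Set Λ)) := by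
  induction hs using Submodule.span_induction with
  | mem a ha =>
    obtain ⟨ν, hν, rfl⟩ := ha
    exact span_mul_Pk hxa hν hy
  | zero => rw [zero_mul]; exact Submodule.zero_mem _
  | add a b _ _ ha hb => rw [add_mul]; exact Submodule.add_mem _ ha hb
  | smul c a _ ha => rw [smul_mul_assoc]; exact Submodule.smul_mem _ _ ha

theorem pow_mem_Pk (hx0 : x 0 = 1) (hxa : ∀ a b, x (a + b) = x a * x b) {s : K}
    (hs : s ∈ Submodule.span O (x '' (P : Set Λ))) (n : ℕ) :
    s ^ n ∈ Submodule.span O (x '' (Pk P n : Set Λ)) := by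
  induction n with
  | zero =>
    refine Submodule.subset_span ⟨0, ?_, by rw [hx0, pow_zero]⟩
    rw [Pk, Finset.coe_singleton]
    rfl
  | succ n ih =>
    rw [pow_succ']
    exact span_mul_Pk' hxa hs ih

/-- The quotient by `s ^ n` of a combination of characters in `Pk P n` is in the chart. -/
theorem div_mem_chart (hx0 : x 0 = 1) (hxa : ∀ a b, x (a + b) = x a * x b) {s : K} (n : ℕ)
    {μ : Λ} (hμ : μ ∈ Pk P n) :
    x μ / s ^ n ∈ Algebra.adjoin O {y : K | ∃ ν ∈ P, y = x ν / s} := by
  classical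
  induction n generalizing μ with
  | zero =>
    rw [Pk, Finset.mem_singleton] at hμ
    rw [hμ, hx0, pow_zero, div_one]
    exact Subalgebra.one_mem _
  | succ n ih =>
    rw [Pk] at hμ
    obtain ⟨a, ha, b, hb, rfl⟩ := Finset.mem_image₂.1 hμ
    rw [hxa, pow_succ', mul_div_mul_comm]
    exact Subalgebra.mul_mem _ (Algebra.subset_adjoin ⟨a, ha, rfl⟩) (ih hb)

/-- The chart. -/
theorem chart_eq (hx0 : x 0 = 1) (hxa : ∀ a b, x (a + b) = x a * x b) (hn : 1 ≤ n) {s : K}
    (hs0 : s ≠ 0) (hs : s ∈ Submodule.span O (x '' (P : Set Λ)))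
    (hz1 : ∀ j, z j ∈ Submodule.span ℤ (x '' (Pk P n : Set Λ)))
    (hz2 : ∀ μ ∈ Pk P n, ∃ j, z j = x μ) :
    CG O (fun _ : Unit => z) 1 (fun _ => s ^ n) =
      Algebra.adjoin O {y : K | ∃ ν ∈ P, y = x ν / s} := by
  have hMN : ∀ y, y ∈ MN z 1 ↔ ∃ j, y = z j := by
    intro y
    constructor
    · rintro ⟨a, ha, rfl⟩
      obtain ⟨j, hj⟩ : ∃ j, a j ≠ 0 := by
        by_contra hcon
        push Not at hcon
        rw [Finset.sum_eq_zero fun i _ => hcon i] at ha
        exact zero_ne_one ha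
      have h1 : ∀ i, i ≠ j → a i = 0 := by
        intro i hi
        by_contra h0
        have h2 : a i + a j ≤ ∑ l, a l := by
          rw [← Finset.sum_pair hi]
          exact Finset.sum_le_sum_of_subset (Finset.subset_univ _)
        omega
      have h2 : a j = 1 := by
        rw [Finset.sum_eq_single j (fun i _ hi => h1 i hi) (fun h => (h (Finset.mem_univ j)).elim)]
          at ha
        exact ha
      refine ⟨j, ?_⟩
      rw [Finset.prod_eq_single j (fun i _ hi => by rw [h1 i hi, pow_zero])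
        (fun h => (h (Finset.mem_univ j)).elim), h2, pow_one]
    · rintro ⟨j, rfl⟩
      exact Pool.Agent.Y25.G.MN_z z j
  apply le_antisymm
  · unfold CG
    refine iSup_le fun ω => ?_
    unfold AF
    rw [Algebra.adjoin_le_iff]
    rintro y ⟨w, hw, rfl⟩
    obtain ⟨j, rfl⟩ := (hMN w).1 hw
    have h1 : ∀ y ∈ Submodule.span ℤ (x '' (Pk P n : Set Λ)),
        y / s ^ n ∈ Algebra.adjoin O {y : K | ∃ ν ∈ P, y = x ν / s} := by
      intro y hy
      induction hy using Submodule.span_induction with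
      | mem y hy =>
        obtain ⟨μ, hμ, rfl⟩ := hy
        exact div_mem_chart hx0 hxa n hμ
      | zero => rw [zero_div]; exact Subalgebra.zero_mem _
      | add a b _ _ ha hb => rw [add_div]; exact Subalgebra.add_mem _ ha hb
      | smul c a _ ha =>
        rw [zsmul_eq_mul, mul_div_assoc, ← zsmul_eq_mul]
        exact Subalgebra.zsmul_mem _ ha c
    exact h1 _ (hz1 j)
  · rw [Algebra.adjoin_le_iff]
    rintro y ⟨ν, hν, rfl⟩
    obtain ⟨n, rfl⟩ : ∃ n', n = n' + 1 := ⟨n - 1, by omega⟩
    have h1 : x ν / s = x ν * s ^ n / s ^ (n + 1) := by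
      rw [pow_succ', mul_div_mul_right _ _ (pow_ne_zero n hs0)]
    rw [h1]
    have h2 := span_mul_Pk hxa hν (pow_mem_Pk hx0 hxa hs n)
    refine CG_FS0 (Φ := fun _ : Unit => s ^ (n + 1)) (z := fun _ : Unit => z) () ?_
    refine Submodule.span_le.2 ?_ h2
    rintro _ ⟨μ, hμ, rfl⟩
    obtain ⟨j, hj⟩ := hz2 μ hμ
    refine Submodule.subset_span ((hMN _).2 ⟨j, hj.symm⟩)

end chart

/-- The chart over the whole base. -/
theorem CG_OL_one {k O K : Type} [CommRing k] [CommRing O] [Field K] [Algebra k O] [Algebra O K]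
    [Algebra k K] [IsScalarTower k O K] {Ω : Type} {m : ℕ} {z : Ω → Fin (m + 1) → K} {d : ℕ}
    {Φ : Ω → K} (_ : Function.Injective (algebraMap O K)) {c : K}
    (hc : c ∈ CG (OL O (K := K) (1 : k)) z d Φ) : c ∈ CG O z d Φ := by
  let S : Subalgebra (OL O (K := K) (1 : k)) K :=
    { carrier := {x | x ∈ CG O z d Φ}
      mul_mem' := fun ha hb => Subalgebra.mul_mem (CG O z d Φ) ha hb
      add_mem' := fun ha hb => Subalgebra.add_mem (CG O z d Φ) ha hb
      algebraMap_mem' := by
        rintro ⟨r, n, y, h⟩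
        change r ∈ CG O z d Φ
        rw [map_one, one_pow, one_mul] at h
        rw [h]
        exact Subalgebra.algebraMap_mem _ _ }
  have hle : CG (OL O (K := K) (1 : k)) z d Φ ≤ S := by
    unfold CG
    refine iSup_le fun ω => ?_
    unfold AF
    rw [Algebra.adjoin_le_iff]
    rintro y ⟨x, hx, rfl⟩
    exact (le_iSup (fun ω => AF O (z ω) d (Φ ω)) ω) (Algebra.subset_adjoin ⟨x, hx, rfl⟩)
  exact hle hc

/-- **Resolution of quotients of toric schemes over affine curves.** -/
theorem t2 (hEXT : S_EXT2) (hRES : S_RES2) (hAT2 : S_ATLAS2) (hSTEP : S_ASTEP2)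
    (hDOWN : S_DOWN) (hMODEL : S_MODEL) (hRAMF : S_RAMF) (hGLW : S_GLW) (hGFF : S_GFF)
    (hCH : S_CHW) (hRWB : S_RWB) (hREGL : S_REGL) (hTAMF : S_TAMF) (hNUMF : S_NUMF)
    (hPK2 : S_PK2) (hVREG : S_VREG) (hVNZ : S_VNZ) (hCHT : S_CHT) (hCH0 : S_CH0)
    (hFMLU : S_FMLU) (hREGSM : S_REGSM) (hSCH2 : S_SCH2)
    (κ : Type) [Field κ] [PerfectField κ] (p : ℕ) [Fact p.Prime] [CharP κ p]
    (O : Type) [CommRing O] [IsDomain O] [IsDedekindDomain O] [Algebra κ O]
    [Algebra.FiniteType κ O] (G : Type) [Group G] [Finite G] [MulSemiringAction G O]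
    [SMulCommClass G κ O] [FaithfulSMul G O]
    (hin : ∀ 𝔓 : Ideal O, 𝔓.IsMaximal → ¬ p ^ 2 ∣ Nat.card {g : G // ∀ o : O, g • o - o ∈ 𝔓})
    (Λ : Type) [AddCommGroup Λ] [DistribMulAction G Λ] (P : Finset Λ) (hP : SmP P)
    (hst : ∀ (g : G), ∀ μ ∈ P, g • μ ∈ P)
    (K : Type) [Field K] [Algebra O K] [Algebra κ K] [IsScalarTower κ O K]
    [MulSemiringAction G K]
    (hcom : ∀ (g : G) (o : O), g • algebraMap O K o = algebraMap O K (g • o))
    (x : Λ → K) (hx0 : x 0 = 1) (hxa : ∀ a b, x (a + b) = x a * x b)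
    (hxi : LinearIndependent O x) (hact : ∀ (g : G) a, g • x a = x (g • a))
    (hfr : ∀ y : K, ∃ a b : K, a ∈ Submodule.span O (Set.range x) ∧
      b ∈ Submodule.span O (Set.range x) ∧ b ≠ 0 ∧ y = a / b)
    (s : K) (hs0 : s ≠ 0) (hs : s ∈ Submodule.span O (x '' (P : Set Λ)))
    (hsi : ∀ g : G, g • s = s) (A : Subalgebra κ K)
    (hA : ∀ y, y ∈ A ↔ y ∈ Algebra.adjoin O {y : K | ∃ ν ∈ P, y = x ν / s} ∧
      ∀ g : G, g • y = y) :
    Pool.Agent.H920R2.HasResolution (X := Spec (CommRingCat.of A))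
      (Spec.map (CommRingCat.ofHom (algebraMap κ A))) := by
  classical
  have hinj : Function.Injective (algebraMap O K) := by
    rw [injective_iff_map_eq_zero]
    intro o ho
    have h1 := linearIndependent_iff'.1 hxi {0} (fun _ => o) (by
      rw [Finset.sum_singleton, hx0, Algebra.smul_def, ho, zero_mul]) 0
      (Finset.mem_singleton_self _)
    exact h1
  have _ : FaithfulSMul O K := (faithfulSMul_iff_algebraMap_injective O K).2 hinj
  let M : Type := FractionRing O
  let _ : Algebra M K := FractionRing.liftAlgebra O K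
  have _ : IsScalarTower O M K := FractionRing.isScalarTower_liftAlgebra O K
  let k := FixedPoints.subalgebra κ O G
  let Y := FixedPoints.subfield G K
  have hkfix : ∀ (c : k) (g : G), g • algebraMap O K (c : O) = algebraMap O K (c : O) := by
    intro c g
    rw [hcom]
    congr 1
    exact c.2 g
  let φ : k →+* Y := ((algebraMap O K).comp (algebraMap k O)).codRestrict Y.toSubring
    (fun c g => hkfix c g)
  let _ : Algebra k Y := φ.toAlgebra
  have _ : IsScalarTower k Y K := IsScalarTower.of_algebraMap_eq fun _ => rfl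
  have _ : IsNoetherianRing k := fix_noeth κ O G
  let T : G →* (O ≃ₐ[k] O) := MulSemiringAction.toAlgAut G k O
  let ρ : G →* (K ≃ₐ[Y] K) := MulSemiringAction.toAlgAut G Y K
  have hT : ∀ g o, T g o = g • o := fun _ _ => rfl
  have hρ : ∀ g y, ρ g y = g • y := fun _ _ => rfl
  have hfai : ∀ g, (∀ o, T g o = o) → g = 1 := by
    intro g hg
    exact FaithfulSMul.eq_of_smul_eq_smul (α := O) fun o => by rw [one_smul]; exact hg o
  have hGF : GF k O K G (rsk k ρ) T := by
    refine gf_of hTAMF κ p k O K G (rsk k ρ) T (fix_finite κ O G) hinj ?_ ?_ hfai ?_ ?_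
    · intro a b hab
      apply Subtype.ext
      exact hinj hab
    · intro g o
      exact hcom g o
    · intro o ho
      exact ⟨⟨o, ho⟩, rfl⟩
    · intro 𝔓 h𝔓
      exact hin 𝔓 h𝔓
  have hlo : ∀ o : O, ∃ y : M, algebraMap M K y = algebraMap O K o := fun o =>
    ⟨algebraMap O M o, (IsScalarTower.algebraMap_apply O M K o).symm⟩
  have hlf : ∀ y : M, ∃ a b : O, b ≠ 0 ∧
      algebraMap M K y * algebraMap O K b = algebraMap O K a := by
    intro y
    obtain ⟨a, b, hb, rfl⟩ := IsFractionRing.div_surjective (A := O) y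
    have hb0 : b ≠ 0 := nonZeroDivisors.ne_zero hb
    have hb' : algebraMap O M b ≠ 0 := fun h =>
      hb0 ((IsFractionRing.injective O M) (by rw [h, map_zero]))
    refine ⟨a, b, hb0, ?_⟩
    rw [IsScalarTower.algebraMap_apply O M K, IsScalarTower.algebraMap_apply O M K,
      ← map_mul, div_mul_cancel₀ _ hb']
  have hspanM : ∀ y ∈ Submodule.span O (Set.range x),
      y ∈ IntermediateField.adjoin M (Set.range x) := by
    intro y hy
    induction hy using Submodule.span_induction with
    | mem y hy => exact IntermediateField.subset_adjoin _ _ hy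
    | zero => exact zero_mem _
    | add a b _ _ ha hb => exact add_mem ha hb
    | smul c a _ ha =>
      rw [Algebra.smul_def, IsScalarTower.algebraMap_apply O M K]
      exact mul_mem (IntermediateField.algebraMap_mem _ _) ha
  have hxgen : IntermediateField.adjoin M (Set.range x) = ⊤ := by
    rw [eq_top_iff]
    intro y _
    obtain ⟨a, b, ha, hb, -, rfl⟩ := hfr y
    exact div_mem (hspanM a ha) (hspanM b hb)
  obtain ⟨n, m, z, hn, hz0, hz1, hz2, hz3, hU⟩ := hFMLU hNUMF hPK2 hVREG hVNZ hCHT hCH0 K G Λ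
    (MulSemiringAction.toRingAut G K) P hP hst x hx0 hxa hact
  obtain ⟨hgen, hrg, e, w, hWD⟩ := hU k O M (rsk k ρ) T (fun _ _ => rfl) hGF hlo hlf hxi hxgen
  have hfixK : ∀ y, (∀ g, rsk k ρ g y = y) ↔ ∃ v : Y, (IsScalarTower.toAlgHom k Y K) v = y := by
    intro y
    constructor
    · intro h
      exact ⟨⟨y, h⟩, rfl⟩
    · rintro ⟨v, rfl⟩ g
      exact v.2 g
  have hzspan : ∀ (g : G) j, rsk k ρ g (z j) ∈ Submodule.span O (Set.range z) := by
    intro g j
    obtain ⟨i, hi⟩ := hz3 g j
    have h1 : rsk k ρ g (z j) = z i := hi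
    rw [h1]
    exact Submodule.subset_span ⟨i, rfl⟩
  have hyp : GHF k O M Y K G Unit (IsScalarTower.toAlgHom k Y K) (rsk k ρ) T m (fun _ => z) := by
    refine
    { toGF := hGF
      lo := hlo
      lf := hlf
      fixK := hfixK
      z0 := fun _ => hz0
      lin := fun g _ j => hzspan g j
      gen := ?_
      rg := ?_ }
    · rw [← hgen]
      congr 1
      ext y
      constructor
      · rintro ⟨-, j, h⟩
        exact ⟨j, h.symm⟩
      · rintro ⟨j, h⟩
        exact ⟨(), j, h.symm⟩
    · intro J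
      have h1 : {y : K | ∃ (ω : Unit) (i : Fin (m + 1)), y = z i / z (J ω)} =
          Set.range fun i => z i / z (J ()) := by
        ext y
        constructor
        · rintro ⟨ω, i, h⟩
          exact ⟨i, h.symm⟩
        · rintro ⟨i, h⟩
          exact ⟨(), i, h.symm⟩
      rw [h1]
      exact hrg (J ())
  have hΦ : FmL k O K G Unit (rsk k ρ) (fun _ => z) 1 (fun _ => s ^ n) := by
    refine ⟨fun _ => ?_, fun _ => pow_ne_zero _ hs0, fun g _ => ?_⟩
    · have h2 := pow_mem_Pk hx0 hxa hs n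
      refine Submodule.span_le.2 ?_ h2
      rintro _ ⟨μ, hμ, rfl⟩
      obtain ⟨j, hj⟩ := hz2 μ hμ
      rw [← hj]
      exact Submodule.subset_span (Pool.Agent.Y25.G.MN_z z j)
    · change g • s ^ n = s ^ n
      rw [smul_pow', hsi]
  have hCG := chart_eq (O := O) hx0 hxa hn hs0 hs hz1 hz2
  -- the ring of invariants
  let ψ : A →+* Y := (A.val : A →ₐ[κ] K).toRingHom.codRestrict Y.toSubring
    (fun a g => ((hA a).1 a.2).2 g)
  let _ : Algebra A Y := ψ.toAlgebra
  have hψ : ∀ a : A, ((algebraMap A Y a : Y) : K) = a := fun _ => rfl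
  have _ : IsScalarTower A Y K := IsScalarTower.of_algebraMap_eq fun _ => rfl
  have hinjA : Function.Injective (algebraMap A Y) := by
    intro a b hab
    apply Subtype.ext
    exact congrArg (fun v : Y => (v : K)) hab
  have hA' : ∀ y : Y, (∃ a : A, algebraMap A Y a = y) ↔
      algebraMap Y K y ∈ CG O (fun _ : Unit => z) 1 (fun _ => s ^ n) := by
    intro y
    rw [hCG]
    constructor
    · rintro ⟨a, rfl⟩
      exact ((hA a).1 a.2).1
    · intro hy
      exact ⟨⟨(y : K), (hA _).2 ⟨hy, y.2⟩⟩, rfl⟩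
  have hstC : ∀ g, ∀ c ∈ (CG O (fun _ : Unit => z) 1 (fun _ => s ^ n)).toSubring, ρ g c ∈
      (CG O (fun _ : Unit => z) 1 (fun _ => s ^ n)).toSubring := by
    intro g c hc
    exact CG_act0 (ρ := rsk k ρ) hGF.com hyp.lin hΦ g c hc
  have hAft : Algebra.FiniteType κ A := by
    let B : Subalgebra κ K := (CG O (fun _ : Unit => z) 1 (fun _ => s ^ n)).restrictScalars κ
    have hAB : ∀ a : A, (a : K) ∈ B := fun a => (hA' _).1 ⟨a, rfl⟩
    have hBft : Algebra.FiniteType κ B := by
      have h1 : Algebra.FiniteType O (CG O (fun _ : Unit => z) 1 (fun _ => s ^ n)) := by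
        rw [hCG, ← Subalgebra.fg_iff_finiteType, Subalgebra.fg_def]
        refine ⟨_, ?_, rfl⟩
        have h2 : {y : K | ∃ ν ∈ P, y = x ν / s} = (fun ν => x ν / s) '' (P : Set Λ) := by
          ext y
          constructor
          · rintro ⟨ν, hν, rfl⟩
            exact ⟨ν, hν, rfl⟩
          · rintro ⟨ν, hν, rfl⟩
            exact ⟨ν, hν, rfl⟩
        rw [h2]
        exact P.finite_toSet.image _
      have h3 : Algebra.FiniteType κ (CG O (fun _ : Unit => z) 1 (fun _ => s ^ n)) :=
        Algebra.FiniteType.trans (S := O) inferInstance h1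
      exact h3
    let j : A →ₐ[κ] B := A.val.codRestrict B hAB
    refine Pool.Agent.Y929.G.ft_inv (B := B) j ?_ ?_ hBft
    · intro a b hab
      apply Subtype.ext
      exact congrArg (fun v : B => (v : K)) hab
    · intro b
      have h1 : IsIntegral A (b : K) := inv_int (A := A) ρ hfixK
        (CG O (fun _ : Unit => z) 1 (fun _ => s ^ n)).toSubring hstC
        (fun y hy => (hA' y).2 hy) b.2
      let _ : Algebra A B := j.toRingHom.toAlgebra
      have _ : IsScalarTower A B K := IsScalarTower.of_algebraMap_eq fun _ => rfl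
      exact (isIntegral_algebraMap_iff (R := A) (A := B) (B := K) Subtype.val_injective).1 h1
  have hAn : IsNoetherianRing A := Algebra.FiniteType.isNoetherianRing κ A
  have hAfr : IsFractionRing A Y := by
    have _ : FaithfulSMul A Y := (faithfulSMul_iff_algebraMap_injective A Y).2 hinjA
    refine IsFractionRing.of_field A Y fun y => ?_
    obtain ⟨c, hc0, hc, hcy⟩ := exists_denL hyp (1 : k) le_rfl hΦ {0} (fun _ => (y : K))
    have h1 := CG_OL_one (hGF.inj) hc
    have h2 := CG_OL_one (hGF.inj) (hcy 0 (Finset.mem_singleton_self _))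
    obtain ⟨a, ha⟩ := (hA' c).2 h1
    obtain ⟨b, hb⟩ := (hA' (c * y)).2 h2
    refine ⟨b, a, ?_⟩
    rw [ha, hb, mul_div_cancel_left₀ _ hc0]
  obtain ⟨I, _, zz, J, hmod⟩ := core hEXT hRES hAT2 hSTEP hDOWN hMODEL hRAMF hGLW hGFF hCH hRWB
    hREGL k O M Y K G ρ T m z hyp e w hWD 1 le_rfl (s ^ n) hΦ A hinjA hA'
  exact hSCH2 hREGSM κ A Y I zz J hmod

end Pool.Agent.K3h75.FF
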