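import Pool.Agent.K3h75.FF.Core1
import Pool.Agent.K3h75.FF.T2

/-!
# The data of an affine piece of a projective curve
-/

set_option autoImplicit false
set_option linter.unusedSectionVars false
set_option linter.overlappingInstances false

namespace Pool.Agent.K3h75.FF

open Pool.Agent.Y223.G Pool.Agent.R383.TM
open Pool.Agent.K3h75.TO Pool.Agent.K3h22.PK Pool.Agent.K3h75.TV

/-- The last part of `S_FMLU`. -/
def FMLpr (K G Λ : Type) [Field K] [Group G] [Finite G] (σ : G →* (K ≃+* K)) (x : Λ → K) (m : ℕ)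
    (z : Fin (m + 1) → K) : Prop :=
  ∀ (k O M : Type) [CommRing k] [IsDomain k] [CommRing O] [IsDomain O]
  [IsDedekindDomain O] [Field M] [Algebra k O] [Algebra O K]
  [Algebra k K] [IsScalarTower k O K] [Algebra M K] (ρ : G →* (K ≃ₐ[k] K))
  (T : G →* (O ≃ₐ[k] O)), (∀ g y, ρ g y = σ g y) → GF k O K G ρ T →
  (∀ o : O, ∃ x : M, algebraMap M K x = algebraMap O K o) →
  (∀ x : M, ∃ a b : O, b ≠ 0 ∧ algebraMap M K x * algebraMap O K b = algebraMap O K a) →
  LinearIndependent O x → IntermediateField.adjoin M (Set.range x) = ⊤ →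
    IntermediateField.adjoin M (Set.range fun j => z j / z 0) = ⊤ ∧
    (∀ j, IsRegularRing (Algebra.adjoin O (Set.range fun i => z i / z j))) ∧
    ∃ (e : Ideal O → ℕ) (w : Ideal O → Fin (m + 1) → ℕ), WD k O K G ρ T z e w

/-- The data of an affine piece. -/
theorem piece_data (hTAMF : S_TAMF) (κ : Type) [Field κ] [PerfectField κ] (p : ℕ) [Fact p.Prime]
    [CharP κ p] (M K Y G : Type) [Field M] [Field K] [Field Y] [Group G] [Finite G]
    [Algebra κ Y] [Algebra κ K] [Algebra M K] [Algebra Y K]
    [IsScalarTower κ Y K] (ρ : G →* (K ≃ₐ[Y] K))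
    (hfixY : ∀ x, (∀ g, ρ g x = x) ↔ ∃ y, Algebra.ofId Y K y = x)
    (O : Type) [CommRing O] [IsDomain O] [IsDedekindDomain O] [Algebra κ O]
    [Algebra.FiniteType κ O] [MulSemiringAction G O] [SMulCommClass G κ O] [FaithfulSMul G O]
    [Algebra O M] [IsFractionRing O M] [Algebra O K] [IsScalarTower O M K] [IsScalarTower κ O K]
    (hcom : ∀ (g : G) (o : O), ρ g (algebraMap O K o) = algebraMap O K (g • o))
    (hin : ∀ 𝔓 : Ideal O, 𝔓.IsMaximal → ¬ p ^ 2 ∣ Nat.card {g : G // ∀ o : O, g • o - o ∈ 𝔓})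
    (Λ : Type) (x : Λ → K) (hxi : LinearIndependent M x)
    (hxgen : IntermediateField.adjoin M (Set.range x) = ⊤) (m : ℕ) (z : Fin (m + 1) → K)
    (hz0 : ∀ j, z j ≠ 0) (σ : G →* (K ≃+* K)) (hσ : ∀ g y, σ g y = ρ g y)
    (hz3 : ∀ g j, ∃ i, ρ g (z j) = z i) (hU : FMLpr K G Λ σ x m z) :
    ∃ (k : Type) (_ : CommRing k) (_ : IsDomain k) (_ : Algebra k O) (_ : Algebra k K)
      (_ : IsScalarTower k O K) (_ : Algebra k Y) (_ : IsScalarTower k Y K) (_ : Algebra κ k)
      (_ : IsScalarTower κ k Y) (_ : Algebra.FiniteType κ k) (T : G →* (O ≃ₐ[k] O))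
      (e : Ideal O → ℕ) (W : Ideal O → Fin (m + 1) → ℕ), (∀ g o, T g o = g • o) ∧
      GHF k O M Y K G Unit (IsScalarTower.toAlgHom k Y K) (rsk k ρ) T m (fun _ => z) ∧
      WD k O K G (rsk k ρ) T z e W ∧ (∀ o : O, (∀ g : G, g • o = o) → ∃ c : k,
        algebraMap k O c = o) := by
  classical
  have hinjO : Function.Injective (algebraMap O K) := by
    intro a b hab
    rw [IsScalarTower.algebraMap_apply O M K, IsScalarTower.algebraMap_apply O M K] at hab
    exact IsFractionRing.injective O M ((algebraMap M K).injective hab)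
  let k := FixedPoints.subalgebra κ O G
  have hkfix : ∀ (c : k), ∃ y : Y, algebraMap Y K y = algebraMap O K (c : O) := by
    intro c
    refine (hfixY _).1 fun g => ?_
    rw [hcom]
    congr 1
    exact c.2 g
  choose φ0 hφ0 using hkfix
  let φ : k →+* Y :=
    { toFun := φ0
      map_one' := (algebraMap Y K).injective (by
        rw [hφ0, map_one]
        exact map_one _)
      map_mul' := fun a b => (algebraMap Y K).injective (by
        rw [hφ0, map_mul, hφ0, hφ0]
        exact map_mul _ _ _)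
      map_zero' := (algebraMap Y K).injective (by
        rw [hφ0, map_zero]
        exact map_zero _)
      map_add' := fun a b => (algebraMap Y K).injective (by
        rw [hφ0, map_add, hφ0, hφ0]
        exact map_add _ _ _) }
  let _ : Algebra k Y := φ.toAlgebra
  have hkY : ∀ c : k, algebraMap Y K (algebraMap k Y c) = algebraMap O K (c : O) := hφ0
  have _ : IsScalarTower k Y K := IsScalarTower.of_algebraMap_eq fun c => (hkY c).symm
  have hκk : IsScalarTower κ k Y := IsScalarTower.of_algebraMap_eq fun c => by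
    apply (algebraMap Y K).injective
    rw [hkY, ← IsScalarTower.algebraMap_apply κ Y K, IsScalarTower.algebraMap_apply κ O K]
    rfl
  have hkft : Algebra.FiniteType κ k := fix_ft κ O G
  let T : G →* (O ≃ₐ[k] O) := MulSemiringAction.toAlgAut G k O
  have hfai : ∀ g, (∀ o, T g o = o) → g = 1 := by
    intro g hg
    exact FaithfulSMul.eq_of_smul_eq_smul (α := O) fun o => by rw [one_smul]; exact hg o
  have hGF : GF k O K G (rsk k ρ) T := by
    refine gf_of hTAMF κ p k O K G (rsk k ρ) T (fix_finite κ O G) hinjO ?_ ?_ hfai ?_ ?_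
    · intro a b hab
      apply Subtype.ext
      exact hinjO hab
    · intro g o
      exact hcom g o
    · intro o ho
      exact ⟨⟨o, ho⟩, rfl⟩
    · intro 𝔓 h𝔓
      exact hin 𝔓 h𝔓
  have hlo : ∀ o : O, ∃ y : M, algebraMap M K y = algebraMap O K o := fun o =>
    ⟨algebraMap O M o, (IsScalarTower.algebraMap_apply O M K o).symm⟩
  have hlf : ∀ y : M, ∃ a b : O, b ≠ 0 ∧
      algebraMap M K y * algebraMap O K b = algebraMap O K a := by
    intro y
    obtain ⟨a, b, hb, rfl⟩ := IsFractionRing.div_surjective (A := O) y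
    have hb0 : b ≠ 0 := nonZeroDivisors.ne_zero hb
    have hb' : algebraMap O M b ≠ 0 := fun h =>
      hb0 ((IsFractionRing.injective O M) (by rw [h, map_zero]))
    refine ⟨a, b, hb0, ?_⟩
    rw [IsScalarTower.algebraMap_apply O M K, IsScalarTower.algebraMap_apply O M K,
      ← map_mul, div_mul_cancel₀ _ hb']
  have hxiO : LinearIndependent O x := by
    refine LinearIndependent.restrict_scalars (R := O) (K := M) ?_ hxi
    intro a b hab
    apply IsFractionRing.injective O M
    have h1 : a • (1 : M) = b • (1 : M) := hab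
    rwa [Algebra.smul_def, Algebra.smul_def, mul_one, mul_one] at h1
  obtain ⟨hgen, hrg, e, w, hWD⟩ := hU k O M (rsk k ρ) T (fun g y => (hσ g y).symm) hGF hlo hlf hxiO
    hxgen
  have hfixK : ∀ y, (∀ g, rsk k ρ g y = y) ↔ ∃ v : Y, (IsScalarTower.toAlgHom k Y K) v = y :=
    fun y => hfixY y
  have hyp : GHF k O M Y K G Unit (IsScalarTower.toAlgHom k Y K) (rsk k ρ) T m (fun _ => z) := by
    refine
    { toGF := hGF
      lo := hlo
      lf := hlf
      fixK := hfixK
      z0 := fun _ => hz0
      lin := fun g _ j => ?_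
      gen := ?_
      rg := ?_ }
    · obtain ⟨i, hi⟩ := hz3 g j
      have h1 : rsk k ρ g (z j) = z i := hi
      rw [h1]
      exact Submodule.subset_span ⟨i, rfl⟩
    · rw [← hgen]
      congr 1
      ext y
      constructor
      · rintro ⟨-, j, h⟩
        exact ⟨j, h.symm⟩
      · rintro ⟨j, h⟩
        exact ⟨(), j, h.symm⟩
    · intro J
      have h1 : {y : K | ∃ (ω : Unit) (i : Fin (m + 1)), y = z i / z (J ω)} =
          Set.range fun i => z i / z (J ()) := by
        ext y
        constructor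
        · rintro ⟨ω, i, h⟩
          exact ⟨i, h.symm⟩
        · rintro ⟨i, h⟩
          exact ⟨(), i, h.symm⟩
      rw [h1]
      exact hrg (J ())
  exact ⟨k, inferInstance, inferInstance, inferInstance, inferInstance, inferInstance,
    inferInstance, inferInstance, inferInstance, hκk, hkft, T, e, w, fun _ _ => rfl, hyp, hWD,
    fun o ho => ⟨⟨o, ho⟩, rfl⟩⟩

end Pool.Agent.K3h75.FF
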