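import Pool.Agent.K3h75.FF.Ram1
import Pool.Agent.Y983.G.Ram

/-!
# Cover of the base, wild ramification data: localization (variant of `Pool.Agent.Y71.H`)
-/

set_option autoImplicit false
set_option linter.overlappingInstances false
set_option linter.unusedSectionVars false

namespace Pool.Agent.K3h75.FF

open Pool.Agent.Y223.G
open Pool.Agent.Y983.G (iO iO_coe iO_alg mem_ext)

section

variable {k O K G : Type} [CommRing k] [IsDomain k] [CommRing O] [IsDomain O]
  [IsDedekindDomain O] [Field K] [Group G] [Algebra k O] [Algebra O K] [Algebra k K]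
  [IsScalarTower k O K] {ρ : G →* (K ≃ₐ[k] K)} {T : G →* (O ≃ₐ[k] O)}

lemma neK (h : GF k O K G ρ T) {s : k} (hs : s ≠ 0) : algebraMap k K s ≠ 0 := fun e =>
  hs (h.injk (by rw [e, map_zero]))

lemma neO (h : GF k O K G ρ T) {s : k} (hs : s ≠ 0) : algebraMap k O s ≠ 0 := fun e =>
  neK h hs (by rw [IsScalarTower.algebraMap_apply k O K, e, map_zero])

lemma rho_mem (h : GF k O K G ρ T) (g : G) {s : k} {x : K} (hx : x ∈ OL O (K := K) s) :
    ρ g x ∈ OL O (K := K) s := by
  obtain ⟨n, y, hy⟩ := hx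
  refine ⟨n, T g y, ?_⟩
  rw [← h.com, ← hy, map_mul, map_pow, AlgEquiv.commutes]

lemma rho_inv (g : G) (x : K) : ρ g (ρ g⁻¹ x) = x := by
  rw [← AlgEquiv.mul_apply, ← map_mul, mul_inv_cancel, map_one, AlgEquiv.one_apply]

lemma rho_inv' (g : G) (x : K) : ρ g⁻¹ (ρ g x) = x := by
  rw [← AlgEquiv.mul_apply, ← map_mul, inv_mul_cancel, map_one, AlgEquiv.one_apply]

/-- The automorphisms of the localization. -/
noncomputable def tbg (h : GF k O K G ρ T) (s : k) (g : G) :
    OL O (K := K) s ≃ₐ[k] OL O (K := K) s :=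
  AlgEquiv.ofAlgHom
    (((ρ g).toAlgHom.comp (OL O (K := K) s).val).codRestrict (OL O (K := K) s)
      (fun x => rho_mem h g x.2))
    (((ρ g⁻¹).toAlgHom.comp (OL O (K := K) s).val).codRestrict (OL O (K := K) s)
      (fun x => rho_mem h g⁻¹ x.2))
    (by
      ext x
      exact rho_inv g (x : K))
    (by
      ext x
      exact rho_inv' g (x : K))

lemma tbg_coe (h : GF k O K G ρ T) (s : k) (g : G) (x : OL O (K := K) s) :
    (tbg h s g x : K) = ρ g x := rfl

/-- The action on the localization. -/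
noncomputable def TB (h : GF k O K G ρ T) (s : k) :
    G →* (OL O (K := K) s ≃ₐ[k] OL O (K := K) s) where
  toFun := tbg h s
  map_one' := by
    ext x
    rw [tbg_coe, map_one]
    rfl
  map_mul' a b := by
    ext x
    rw [tbg_coe, map_mul]
    rfl

lemma TB_coe (h : GF k O K G ρ T) (s : k) (g : G) (x : OL O (K := K) s) :
    (TB h s g x : K) = ρ g x := rfl

lemma TB_iO (h : GF k O K G ρ T) (s : k) (g : G) (y : O) :
    TB h s g (iO s y) = iO s (T g y) :=
  Subtype.ext (by rw [TB_coe, iO_coe, iO_coe, h.com])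

/-- The wild ramification data on `O` at some primes. -/
structure PreE (T : G →* (O ≃ₐ[k] O)) {N : Type} (𝔓 : N → Ideal O) (p l : N → ℕ)
    (τ : N → G) : Prop where
  mx : ∀ i, (𝔓 i).IsMaximal
  ne : ∀ i, 𝔓 i ≠ ⊥
  dj : ∀ i j, 𝔓 i = 𝔓 j → i = j
  ty : ∀ i, (p i).Prime ∧ (∀ o, T (τ i) o - o ∈ 𝔓 i ^ (l i + 1)) ∧
      (∃ π ∈ 𝔓 i, T (τ i) π - π ∉ 𝔓 i ^ (l i + 2)) ∧
      (p i : O) ∈ 𝔓 i ^ ((p i - 1) * l i) ∧ (l i = 0 → (p i : O) ∉ 𝔓 i) ∧
      τ i ^ p i = 1 ∧ ∀ g, (∀ o, T g o - o ∈ 𝔓 i) → (∀ o ∈ 𝔓 i, T g o - o ∈ 𝔓 i ^ 2) →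
        g ∈ Subgroup.zpowers (τ i)
  cj : ∀ g i, ∃ j, (∀ o, o ∈ 𝔓 i ↔ T g o ∈ 𝔓 j) ∧ p j = p i ∧ l j = l i ∧
    (∃ n : ℕ, g * τ i * g⁻¹ = τ j ^ n) ∧ ∃ n : ℕ, τ j = (g * τ i * g⁻¹) ^ n

lemma rho_iter (τ : G) (n : ℕ) (x : K) : (ρ τ)^[n] x = ρ (τ ^ n) x := by
  induction n with
  | zero => rw [pow_zero, map_one]; rfl
  | succ n ih => rw [Function.iterate_succ_apply', ih, pow_succ', map_mul]; rfl

/-- **The localization.** -/
theorem locE (h : GF k O K G ρ T) {s : k} (hs : s ≠ 0) {N : Type} {P : N → Ideal O}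
    {p l : N → ℕ} {τ : N → G} (hd : PreE T P p l τ) (hsP : ∀ i, algebraMap k O s ∉ P i)
    (π₀ : O) (hπ0 : π₀ ≠ 0) (hwi : ∀ g, ∃ y : O, algebraMap k O s * T g π₀ = y * π₀)
    (hpq : ∀ i, π₀ ∈ P i ∧ π₀ ∉ P i ^ 2)
    (hal : ∀ 𝔮 : Ideal O, 𝔮.IsPrime → 𝔮 ≠ ⊥ → (∀ i, 𝔮 ≠ P i) → algebraMap k O s ∉ 𝔮 →
      ∀ g, (∀ o, T g o - o ∈ 𝔮) →
      (∀ y : O, algebraMap k O s * T g π₀ = y * π₀ → y - algebraMap k O s ∈ 𝔮) → g = 1)
    (hwl : ∀ i g, (∀ o, T g o - o ∈ P i) →
      (∀ y : O, algebraMap k O s * T g π₀ = y * π₀ → y - algebraMap k O s ∈ P i) →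
      ∀ o ∈ P i, T g o - o ∈ P i ^ 2) :
    ∃ _ : IsDedekindDomain (OL O (K := K) s),
      LocE k (OL O (K := K) s) K G ρ (TB h s) (fun i => (P i).map (iO (K := K) s)) p l τ
        (iO s π₀) ∧
      ∀ i, (∃ g, g ≠ 1 ∧ (∀ o, T g o - o ∈ P i) ∧ ∀ o ∈ P i, T g o - o ∈ P i ^ 2) →
        ∃ g, g ≠ 1 ∧ (∀ x, TB h s g x - x ∈ (P i).map (iO (K := K) s)) ∧
          ∀ x ∈ (P i).map (iO (K := K) s), TB h s g x - x ∈ (P i).map (iO (K := K) s) ^ 2 := by
  have hsK := neK h hs
  have hsO := neO h hs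
  let _ : Algebra O (OL O (K := K) s) := (iO (K := K) s).toAlgebra
  have hmap : algebraMap O (OL O (K := K) s) = iO s := rfl
  have hT : IsScalarTower k O (OL O (K := K) s) :=
    IsScalarTower.of_algebraMap_eq fun x => (iO_alg s x).symm
  have hinv : (algebraMap k K s)⁻¹ ∈ OL O (K := K) s := ⟨1, 1, by
      rw [pow_one, mul_inv_cancel₀ hsK, map_one]⟩
  have hu : IsUnit (iO (K := K) s (algebraMap k O s)) := by
    refine IsUnit.of_mul_eq_one ⟨_, hinv⟩ ?_
    apply Subtype.ext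
    push_cast
    rw [iO_coe, ← IsScalarTower.algebraMap_apply k O K, mul_inv_cancel₀ hsK]
  have hLoc : IsLocalization (Submonoid.powers (algebraMap k O s)) (OL O (K := K) s) := by
    rw [isLocalization_iff]
    refine ⟨?_, ?_, ?_⟩
    · rintro ⟨_, n, rfl⟩
      rw [hmap, map_pow]
      exact hu.pow n
    · rintro ⟨x, n, y, hy⟩
      refine ⟨⟨y, ⟨_, n, rfl⟩⟩, ?_⟩
      apply Subtype.ext
      change x * algebraMap O K (algebraMap k O s ^ n) = algebraMap O K y
      rw [map_pow, ← IsScalarTower.algebraMap_apply k O K, mul_comm]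
      exact hy
    · intro x y hxy
      refine ⟨1, ?_⟩
      have h2 := congrArg (Subtype.val) hxy
      rw [hmap, iO_coe, iO_coe] at h2
      rw [h.inj h2]
  have hle : Submonoid.powers (algebraMap k O s) ≤ nonZeroDivisors O :=
    powers_le_nonZeroDivisors_of_noZeroDivisors hsO
  have hD : IsDedekindDomain (OL O (K := K) s) := IsLocalization.isDedekindDomain O hle _
  have hfin := h.fin
  have hft1 : Algebra.FiniteType O (OL O (K := K) s) :=
    IsLocalization.finiteType_of_monoid_fg (Submonoid.powers (algebraMap k O s)) _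
  have hft2 : Algebra.FiniteType k O := inferInstance
  have hft3 : Algebra.FiniteType k (OL O (K := K) s) := Algebra.FiniteType.trans hft2 hft1
  -- contraction of the powers
  have hcon : ∀ (i : N) (n : ℕ) (y : O), iO (K := K) s y ∈ ((P i).map (iO (K := K) s)) ^ n →
      y ∈ P i ^ n := by
    intro i n y hy
    have hPm : (P i).IsMaximal := hd.mx i
    rw [← Ideal.map_pow, ← hmap,
      IsLocalization.algebraMap_mem_map_algebraMap_iff (Submonoid.powers (algebraMap k O s))] at hy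
    obtain ⟨_, ⟨j, rfl⟩, hj⟩ := hy
    have hPp : (P i).IsPrime := hPm.isPrime
    rcases Ideal.IsPrime.mul_mem_pow (P i) hj with h1 | h1
    · exact absurd (hPp.mem_of_pow_mem j h1) (hsP i)
    · exact h1
  have hcon1 : ∀ (i : N) (y : O), iO (K := K) s y ∈ (P i).map (iO (K := K) s) → y ∈ P i := by
    intro i y hy
    have h2 := hcon i 1 y (by rwa [pow_one])
    rwa [pow_one] at h2
  have hmne : ∀ i, (P i).map (iO (K := K) s) ≠ ⊥ := by
    intro i
    obtain ⟨x, hx, hx0⟩ := Submodule.exists_mem_ne_zero_of_ne_bot (hd.ne i)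
    intro hb
    have h1 : iO (K := K) s x ∈ (P i).map (iO (K := K) s) := Ideal.mem_map_of_mem _ hx
    rw [hb, Ideal.mem_bot] at h1
    have h2 := congrArg Subtype.val h1
    rw [iO_coe] at h2
    exact hx0 (h.inj (by rw [map_zero]; exact h2))
  have hpr : ∀ i, ((P i).map (iO (K := K) s)).IsPrime := by
    intro i
    have hPm : (P i).IsMaximal := hd.mx i
    rw [← hmap]
    refine IsLocalization.isPrime_of_isPrime_disjoint (Submonoid.powers (algebraMap k O s)) _ (P i)
      hPm.isPrime ?_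
    rw [Set.disjoint_left]
    rintro _ ⟨j, rfl⟩ hj
    exact hsP i (hPm.isPrime.mem_of_pow_mem j hj)
  have hmx : ∀ i, ((P i).map (iO (K := K) s)).IsMaximal := fun i => (hpr i).isMaximal (hmne i)
  -- differences
  have hsub : ∀ (g : G) (I : Ideal O), (∀ o, T g o - o ∈ I) →
      ∀ x, TB h s g x - x ∈ I.map (iO (K := K) s) := by
    rintro g I hI ⟨x, n, y, hy⟩
    refine mem_ext (n := n) (y := T g y - y) hsK ?_ (hI y)
    change algebraMap k K s ^ n * (ρ g x - x) = algebraMap O K (T g y - y)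
    rw [map_sub, ← h.com, ← hy, map_mul, map_pow, AlgEquiv.commutes, mul_sub]
  have hback : ∀ (g : G) (i : N), (∀ x, TB h s g x - x ∈ (P i).map (iO (K := K) s)) →
      ∀ o, T g o - o ∈ P i := by
    intro g i hx o
    apply hcon1
    rw [map_sub, ← TB_iO h]
    exact hx _
  have hmem : ∀ (i : N) (x : OL O (K := K) s) (n : ℕ) (y : O),
      algebraMap k K s ^ n * (x : K) = algebraMap O K y →
      (x ∈ (P i).map (iO (K := K) s) ↔ y ∈ P i) := by
    intro i x n y hy
    constructor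
    · intro hx
      apply hcon1
      have h1 : iO (K := K) s y = iO s (algebraMap k O s) ^ n * x := by
        apply Subtype.ext
        push_cast
        rw [iO_coe, iO_coe, ← hy, ← IsScalarTower.algebraMap_apply k O K]
      rw [h1]
      exact Ideal.mul_mem_left _ _ hx
    · exact fun hy' => mem_ext hsK hy hy'
  have hsub2 : ∀ (g : G) (i : N), (∀ o ∈ P i, T g o - o ∈ P i ^ 2) →
      ∀ x ∈ (P i).map (iO (K := K) s), TB h s g x - x ∈ (P i).map (iO (K := K) s) ^ 2 := by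
    rintro g i hI ⟨x, n, y, hy⟩ hx
    have hyP : y ∈ P i := (hmem i ⟨x, n, y, hy⟩ n y hy).1 hx
    rw [← Ideal.map_pow]
    refine mem_ext (n := n) (y := T g y - y) hsK ?_ (hI y hyP)
    change algebraMap k K s ^ n * (ρ g x - x) = algebraMap O K (T g y - y)
    rw [map_sub, ← h.com, ← hy, map_mul, map_pow, AlgEquiv.commutes, mul_sub]
  have hcast : ∀ n : ℕ, ((n : ℕ) : OL O (K := K) s) = iO s (n : O) := fun n => by
    rw [map_natCast]
  -- the unit
  have hunit : ∀ (g : G) (𝔮 : Ideal (OL O (K := K) s)),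
      (∀ w, TB h s g (iO s π₀) = w * iO s π₀ → w - 1 ∈ 𝔮) →
      ∀ y : O, algebraMap k O s * T g π₀ = y * π₀ →
        y - algebraMap k O s ∈ 𝔮.comap (iO (K := K) s) := by
    intro g 𝔮 hw y hy
    have h1 := hw (⟨_, hinv⟩ * iO s y) (by
      apply Subtype.ext
      rw [TB_iO]
      push_cast
      rw [iO_coe, iO_coe, iO_coe, mul_assoc, ← map_mul, ← hy, map_mul,
        ← IsScalarTower.algebraMap_apply k O K, inv_mul_cancel_left₀ hsK])
    rw [Ideal.mem_comap]
    have h2 : iO (K := K) s (y - algebraMap k O s) =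
        iO s (algebraMap k O s) * (⟨_, hinv⟩ * iO s y - 1) := by
      apply Subtype.ext
      push_cast
      rw [iO_coe, iO_coe, iO_coe, map_sub, ← IsScalarTower.algebraMap_apply k O K, mul_sub,
        mul_inv_cancel_left₀ hsK, mul_one]
    rw [h2]
    exact Ideal.mul_mem_left _ _ h1
  refine ⟨hD, ?_, fun i ⟨g, hg, hgo, hgo2⟩ => ⟨g, hg, hsub g _ hgo, hsub2 g i hgo2⟩⟩
  constructor
  · exact hft3
  · exact Subtype.val_injective
  · exact fun g o => rfl
  · exact hmx
  · exact hmne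
  · intro i j e
    apply hd.dj
    refine (hd.mx i).eq_of_le (hd.mx j).ne_top fun y hy => ?_
    apply hcon1
    have e' : (P i).map (iO (K := K) s) = (P j).map (iO (K := K) s) := e
    rw [← e']
    exact Ideal.mem_map_of_mem _ hy
  · intro hb
    have h2 := congrArg Subtype.val hb
    rw [iO_coe] at h2
    exact hπ0 (h.inj (by rw [map_zero]; exact h2))
  · intro g
    obtain ⟨y, hy⟩ := hwi g
    refine ⟨⟨_, hinv⟩ * iO s y, ?_⟩
    apply Subtype.ext
    rw [TB_iO]
    push_cast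
    rw [iO_coe, iO_coe, iO_coe, mul_assoc, ← map_mul, ← hy, map_mul,
      ← IsScalarTower.algebraMap_apply k O K, inv_mul_cancel_left₀ hsK]
  · intro i
    exact ⟨Ideal.mem_map_of_mem _ (hpq i).1, fun hc => (hpq i).2 (hcon i 2 _ hc)⟩
  · intro 𝔮 hq hqP g hg hw
    by_contra hg1
    have hq0 : ∀ o, T g o - o ∈ 𝔮.comap (iO (K := K) s) := by
      intro o
      rw [Ideal.mem_comap, map_sub, ← TB_iO h]
      exact hg _
    have hqp : (𝔮.comap (iO (K := K) s)).IsPrime := Ideal.comap_isPrime _ _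
    have hqb : 𝔮.comap (iO (K := K) s) ≠ ⊥ := by
      intro hb
      refine hg1 (h.fai g fun o => ?_)
      have h1 := hq0 o
      rwa [hb, Ideal.mem_bot, sub_eq_zero] at h1
    refine hg1 (hal _ hqp hqb (fun i h1 => ?_) (fun h1 => ?_) g hq0 (hunit g 𝔮 hw))
    · apply hqP i
      change 𝔮 = (P i).map (iO (K := K) s)
      rw [← h1]
      exact (IsLocalization.map_under (Submonoid.powers (algebraMap k O s)) _ 𝔮).symm
    · exact hq.ne_top (Ideal.eq_top_of_isUnit_mem _ h1 hu)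
  · intro i
    obtain ⟨h1, h2, ⟨π, hπ, h3⟩, h4, h5, h6, h7⟩ := hd.ty i
    refine ⟨?_, h6, fun g hg hw => ?_⟩
    · constructor
      · exact h1
      · exact hft3
      · exact Subtype.val_injective
      · intro x
        rw [rho_iter, h6, map_one]
        rfl
      · exact fun o => rfl
      · exact hmne i
      · exact hmx i
      · intro x
        rw [← Ideal.map_pow]
        exact hsub _ _ h2 x
      · refine ⟨iO s π, Ideal.mem_map_of_mem _ hπ, fun hc => h3 ?_⟩
        rw [TB_iO, ← map_sub] at hc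
        exact hcon i _ _ hc
      · rw [← Ideal.map_pow, hcast]
        exact Ideal.mem_map_of_mem _ h4
      · intro hl hc
        refine h5 hl ?_
        rw [hcast] at hc
        exact hcon1 i _ hc
    · refine h7 g (hback g i hg) (hwl i g (hback g i hg) fun y hy => ?_)
      exact hcon1 i _ (Ideal.mem_comap.1 (hunit g _ hw y hy))
  · intro g i
    obtain ⟨j, hj, hp, hl, hτ⟩ := hd.cj g i
    refine ⟨j, ?_, hp, hl, hτ⟩
    rintro x
    obtain ⟨n, y, hy⟩ := x.2
    rw [hmem i x n y hy, hj y, hmem j (TB h s g x) n (T g y)]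
    rw [← h.com, ← hy, map_mul, map_pow, AlgEquiv.commutes]
    rfl

end

end Pool.Agent.K3h75.FF
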