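import Pool.Agent.Y223.G.Stm12

/-!
# Quotients by groups with wild inertia of order `p` over Dedekind domains with perfect residue
fields: statements

Project of helper75: variants of the statements of project G (`Pool.Agent.Y223.G.GE`, `GHL`, ...)
which also hold over function fields of positive characteristic.
-/

set_option autoImplicit false

namespace Pool.Agent.K3h75.FF

open IsLocalRing Pool.Agent.W418.LU2 Pool.Agent.Y223.G

/-- The base: a Dedekind domain `O`, finite over `k`, with a faithful action of the finite group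
`G` with the fixed ring `k` and perfect residue fields, in the field `K` with an action of `G`, such
that the wild inertia groups have order at most `p`. -/
structure GF (k O K G : Type) [CommRing k] [IsDomain k] [CommRing O] [IsDomain O]
    [IsDedekindDomain O] [Field K] [Group G] [Algebra k O] [Algebra O K] [Algebra k K]
    [IsScalarTower k O K] (ρ : G →* (K ≃ₐ[k] K)) (T : G →* (O ≃ₐ[k] O)) : Prop where
  fin : Module.Finite k O
  inj : Function.Injective (algebraMap O K)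
  injk : Function.Injective (algebraMap k K)
  com : ∀ g o, ρ g (algebraMap O K o) = algebraMap O K (T g o)
  fai : ∀ g, (∀ o, T g o = o) → g = 1
  fix : ∀ o, (∀ g, T g o = o) → ∃ c : k, algebraMap k O c = o
  resp : ∀ 𝔓 : Ideal O, 𝔓.IsMaximal → 𝔓 ≠ ⊥ → ∀ q : ℕ, q.Prime → (q : O) ∈ 𝔓 →
    ∀ a : O, ∃ b : O, b ^ q - a ∈ 𝔓
  inr : ∀ 𝔓 : Ideal O, 𝔓.IsMaximal → 𝔓 ≠ ⊥ → ∃ (p : ℕ) (τ : G), p.Prime ∧ τ ^ p = 1 ∧
    ∀ g, (∀ o, T g o - o ∈ 𝔓) → (∀ o ∈ 𝔓, T g o - o ∈ 𝔓 ^ 2) → g ∈ Subgroup.zpowers τ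

/-- The hypotheses on the product of the varieties with the homogeneous coordinates `z ω`, on each
of which the group acts linearly. -/
structure GHF (k O M Y K G Ω : Type) [CommRing k] [IsDomain k] [CommRing O] [IsDomain O]
    [IsDedekindDomain O] [Field M] [Field Y] [Field K] [Group G] [Algebra k O]
    [Algebra O K] [Algebra k K] [IsScalarTower k O K] [Algebra M K] [Algebra k Y]
    (ι : Y →ₐ[k] K) (ρ : G →* (K ≃ₐ[k] K)) (T : G →* (O ≃ₐ[k] O)) (m : ℕ)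
    (z : Ω → Fin (m + 1) → K) : Prop extends GF k O K G ρ T where
  lo : ∀ o : O, ∃ x : M, algebraMap M K x = algebraMap O K o
  lf : ∀ x : M, ∃ a b : O, b ≠ 0 ∧ algebraMap M K x * algebraMap O K b = algebraMap O K a
  fixK : ∀ x, (∀ g, ρ g x = x) ↔ ∃ y, ι y = x
  z0 : ∀ ω j, z ω j ≠ 0
  lin : ∀ g ω j, ρ g (z ω j) ∈ Submodule.span O (Set.range (z ω))
  gen : IntermediateField.adjoin M {y : K | ∃ ω j, y = z ω j / z ω 0} = ⊤
  rg : ∀ J : Ω → Fin (m + 1), IsRegularRing (Algebra.adjoin O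
    {y : K | ∃ (ω : Ω) (i : Fin (m + 1)), y = z ω i / z ω (J ω)})

/-- The base is covered by open subsets with wild ramification over at most one prime of `k`, where
the product of the ramified primes is principal; one of them is the complement of the ramified
primes. -/
def S_RAMF : Prop := ∀ (k O K G : Type) [CommRing k] [IsDomain k] [CommRing O] [IsDomain O]
  [IsDedekindDomain O] [Field K] [Group G] [Finite G] [Algebra k O] [Algebra O K] [Algebra k K]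
  [IsScalarTower k O K] (ρ : G →* (K ≃ₐ[k] K)) (T : G →* (O ≃ₐ[k] O)), GF k O K G ρ T →
  ∃ (β : Type) (_ : Finite β) (_ : Nonempty β) (o : β → k) (π : β → K) (b₀ : β),
    (∀ b, o b ≠ 0) ∧
    (∀ b, π b ≠ 0) ∧ Ideal.span (Set.range o) = ⊤ ∧
    (∀ b b', ∃ n : ℕ,
      algebraMap k K (o b') ^ n * (π b' / π b) ∈ OL O (K := K) (o b) ∧
      algebraMap k K (o b') ^ n * (π b / π b') ∈ OL O (K := K) (o b)) ∧ π b₀ = 1 ∧
    (∀ 𝔓 : Ideal O, 𝔓.IsMaximal → 𝔓 ≠ ⊥ → (∃ g, g ≠ 1 ∧ ∀ x, T g x - x ∈ 𝔓) →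
      algebraMap k O (o b₀) ∈ 𝔓) ∧
    ∀ b, ∃ (_ : IsDedekindDomain (OL O (K := K) (o b)))
      (Tb : G →* (OL O (K := K) (o b) ≃ₐ[k] OL O (K := K) (o b))) (N : Type) (_ : Finite N)
      (𝔔 : N → Ideal (OL O (K := K) (o b))) (p l : N → ℕ) (τ : N → G)
      (π' : OL O (K := K) (o b)), (π' : K) = π b ∧ (b = b₀ → IsEmpty N) ∧
      LocE k (OL O (K := K) (o b)) K G ρ Tb 𝔔 p l τ π' ∧
      (∀ i, ∃ g, g ≠ 1 ∧ (∀ x, Tb g x - x ∈ 𝔔 i) ∧ ∀ x ∈ 𝔔 i, Tb g x - x ∈ 𝔔 i ^ 2) ∧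
      ∀ b', b' ≠ b → ∀ i, algebraMap k (OL O (K := K) (o b)) (o b') ∈ 𝔔 i

/-- The field of fractions of the charts, constants and units. -/
def S_GFF : Prop := ∀ (k O M Y Y₂ K K₂ G Ω : Type) [CommRing k] [IsDomain k]
  [CommRing O] [IsDomain O] [IsDedekindDomain O] [Field M] [Field Y] [Field Y₂] [Field K]
  [Field K₂] [Group G] [Finite G] [Finite Ω] [Nonempty Ω] [Algebra k O]
  [Algebra O K] [Algebra k K] [IsScalarTower k O K] [Algebra M K] [Algebra k Y] [Algebra k Y₂]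
  [Algebra k K₂] (ι : Y →ₐ[k] K) (ι₂ : Y₂ →ₐ[k] K₂) (εY : LP Y →ₐ[k] Y₂) (ε : LP K →ₐ[k] K₂)
  (ρ : G →* (K ≃ₐ[k] K)) (ρ₂ : G →* (K₂ ≃ₐ[k] K₂)), Ext2M ι ι₂ εY ε ρ ρ₂ →
  ∀ (T : G →* (O ≃ₐ[k] O)) (m : ℕ) (z : Ω → Fin (m + 1) → K), GHF k O M Y K G Ω ι ρ T m z →
  ∀ (s : k) (_ : IsDedekindDomain (OL O (K := K) s))
  (Tb : G →* (OL O (K := K) s ≃ₐ[k] OL O (K := K) s)) (N : Type) [Finite N]
  (𝔔 : N → Ideal (OL O (K := K) s)) (p l : N → ℕ) (τ : N → G) (π : OL O (K := K) s), s ≠ 0 →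
  LocE k (OL O (K := K) s) K G ρ Tb 𝔔 p l τ π → ∀ (e : N → ℕ) (W : N → Ω → Fin (m + 1) → ℕ),
  (∀ i, 0 < e i) → ∀ (d : ℕ) (Φ : Ω → K), 1 ≤ d →
  FmL k O K G Ω ρ z d Φ → ∀ R : Subalgebra k (LP Y₂),
  R = res ι₂ (GRW O ε z s 𝔔 e W (π : K) d Φ) →
  (∀ x : Y₂, ∃ y y' : Y₂, hm 0 y ∈ R ∧ hm 0 y' ∈ R ∧ y' ≠ 0 ∧ x = y / y') ∧
  (∃ c : k, c ≠ 0 ∧ hm 1 (algebraMap k Y₂ c) ∈ R) ∧
  (∃ c : k, c ≠ 0 ∧ hm 0 (εY (hm 1 (algebraMap k Y c))) ∈ R) ∧
  hm 0 (εY (hm (-1) 1)) ∈ R ∧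
  ∃ w : Y, w ≠ 0 ∧ hm 0 (εY (hm (Nat.card G) w)) ∈ R ∧
    hm 0 (εY (hm (-(Nat.card G : ℤ)) w⁻¹)) ∈ R

end Pool.Agent.K3h75.FF
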