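import Pool.Agent.K3h75.FF.PcD

/-!
# Smooth projective models of the function fields of tori over curves
-/

set_option autoImplicit false
set_option linter.unusedSectionVars false
set_option linter.overlappingInstances false

namespace Pool.Agent.K3h75.FF

open Pool.Agent.Y223.G Pool.Agent.R383.TM
open Pool.Agent.K3h75.TO Pool.Agent.K3h22.PK Pool.Agent.K3h75.TV

/-- The action on a stable subalgebra. -/
@[reducible]
def subAct {κ M G : Type} [Field κ] [Field M] [Algebra κ M] [Group G] [MulSemiringAction G M]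
    (O : Subalgebra κ M) (h : ∀ g : G, ∀ y ∈ O, g • y ∈ O) : MulSemiringAction G O where
  smul g y := ⟨g • (y : M), h g y y.2⟩
  one_smul y := Subtype.ext (one_smul G (y : M))
  mul_smul g g' y := Subtype.ext (mul_smul g g' (y : M))
  smul_zero g := Subtype.ext (smul_zero g)
  smul_add g y y' := Subtype.ext (smul_add g (y : M) (y' : M))
  smul_one g := Subtype.ext (smul_one g)
  smul_mul g y y' := Subtype.ext (smul_mul' g (y : M) (y' : M))

theorem t1 (hEXT : S_EXT2) (hRES : S_RES2) (hAT2 : S_ATLAS2) (hSTEP : S_ASTEP2)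
    (hDOWN : S_DOWN) (hMODEL : S_MODEL) (hRAMF : S_RAMF2) (hGLW : S_GLW) (hGFF : S_GFF)
    (hCH : S_CHW) (hRWB : S_RWB) (hREGL : S_REGL) (hXG : S_XG) (hTAMF : S_TAMF) (hNUMF : S_NUMF)
    (hPK2 : S_PK2) (hVREG : S_VREG) (hVNZ : S_VNZ) (hCHT : S_CHT) (hCH0 : S_CH0)
    (hFMLU : S_FMLU) (hFORMSK : S_FORMSK) (hINV : S_INV) (hCURVE : S_CURVE)
    (κ : Type) [Field κ] [PerfectField κ] (p : ℕ) [Fact p.Prime] [CharP κ p]
    (M G : Type) [Field M] [Algebra (RatFunc κ) M] [FiniteDimensional (RatFunc κ) M]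
    [Algebra.IsSeparable (RatFunc κ) M] [Algebra κ M] [IsScalarTower κ (RatFunc κ) M] [Group G]
    [Finite G] [MulSemiringAction G M] [FaithfulSMul G M]
    (hGR : ∀ (g : G) (c : RatFunc κ), g • algebraMap (RatFunc κ) M c = algebraMap (RatFunc κ) M c)
    (hin : ∀ V : ValuationSubring M, (∀ c : κ, algebraMap κ M c ∈ V) →
      ¬ p ^ 2 ∣ Nat.card {g : G // ∀ y ∈ V, ∃ e : V, e ∈ IsLocalRing.maximalIdeal V ∧
        (e : M) = g • y - y})
    (Λ : Type) [AddCommGroup Λ] [DistribMulAction G Λ] (P : Finset Λ) (hP : SmP P)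
    (hst : ∀ (g : G), ∀ μ ∈ P, g • μ ∈ P)
    (Y K : Type) [Field Y] [Field K] [Algebra M K] [Algebra Y K] [Algebra κ Y] [Algebra κ K]
    [IsScalarTower κ Y K] [IsScalarTower κ M K] (ρ : G →* (K ≃ₐ[Y] K))
    (hfixY : ∀ x, (∀ g, ρ g x = x) ↔ ∃ y, Algebra.ofId Y K y = x)
    (hsem : ∀ (g : G) (c : M), ρ g (algebraMap M K c) = algebraMap M K (g • c))
    (x : Λ → K) (hx0 : x 0 = 1) (hxa : ∀ a b, x (a + b) = x a * x b)
    (hxi : LinearIndependent M x) (hxgen : IntermediateField.adjoin M (Set.range x) = ⊤)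
    (hact : ∀ (g : G) a, ρ g (x a) = x (g • a)) :
    ∃ (I : Type) (_ : Finite I) (zz : I → Y) (J : Set I),
      ModelG False (⊥ : Submodule κ Y) ⊤ zz J := by
  classical
  let σ : G →* (K ≃+* K) :=
    { toFun := fun g => (ρ g : K ≃+* K)
      map_one' := by
        ext y
        change ρ 1 y = y
        rw [map_one]
        rfl
      map_mul' := fun g h => by
        ext y
        change ρ (g * h) y = ρ g (ρ h y)
        rw [map_mul]
        rfl }
  have hσ : ∀ g y, σ g y = ρ g y := fun _ _ => rfl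
  obtain ⟨n, m, z, hn, hz0, hz1, hz2, hz3, hU⟩ := hFMLU hNUMF hPK2 hVREG hVNZ hCHT hCH0 K G Λ
    σ P hP hst x hx0 hxa hact
  obtain ⟨d, S, hd, hSf, hS, hSV⟩ := hFORMSK κ K G (rsk κ ρ) m z hz0 hz3
  obtain ⟨O₀, O₁, t, f, δ, hD₀, hD₁, hft₀, hft₁, hfr₀, hfr₁, hs₀, hs₁, hV, ht0, hf0, hgt, hgf,
    ht, hf, ht', hf', -, h10, h01, hr₀, hr₁⟩ := hCURVE κ M G hGR
  let _ := subAct O₀ hs₀
  let _ := subAct O₁ hs₁
  have hgκ : ∀ (g : G) (c : κ), g • algebraMap κ M c = algebraMap κ M c := by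
    intro g c
    rw [IsScalarTower.algebraMap_apply κ (RatFunc κ) M, hGR]
  have hgc : ∀ (g : G) (c : κ) (y : M), g • (c • y) = c • (g • y) := by
    intro g c y
    rw [Algebra.smul_def, Algebra.smul_def, smul_mul', hgκ]
  have hcc₀ : SMulCommClass G κ O₀ := ⟨fun g c y => Subtype.ext (hgc g c y)⟩
  have hcc₁ : SMulCommClass G κ O₁ := ⟨fun g c y => Subtype.ext (hgc g c y)⟩
  have hfa : ∀ (O : Subalgebra κ M) [IsFractionRing O M] (g g' : G),
      (∀ y ∈ O, g • y = g' • y) → g = g' := by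
    intro O _ g g' h
    refine FaithfulSMul.eq_of_smul_eq_smul (α := M) fun y => ?_
    obtain ⟨a, b, hb, rfl⟩ := IsFractionRing.div_surjective (A := O) y
    have h1 : ∀ (g : G) (a b : M), g • (a / b) = (g • a) / (g • b) := by
      intro g a b
      exact map_div₀ (MulSemiringAction.toRingHom G M g) a b
    rw [h1, h1]
    have h2 := h a a.2
    have h3 := h b b.2
    change g • (a : M) / g • (b : M) = g' • (a : M) / g' • (b : M)
    rw [h2, h3]
  have hfa₀ : FaithfulSMul G O₀ := ⟨fun {g g'} h => hfa O₀ g g' fun y hy =>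
    congrArg Subtype.val (h ⟨y, hy⟩)⟩
  have hfa₁ : FaithfulSMul G O₁ := ⟨fun {g g'} h => hfa O₁ g g' fun y hy =>
    congrArg Subtype.val (h ⟨y, hy⟩)⟩
  have hp1 : ¬ p ^ 2 ∣ 1 := by
    intro h
    have h1 := Nat.dvd_one.1 h
    have h2 : p = 1 := by
      rcases Nat.pow_eq_one.1 h1 with h3 | h3
      · exact h3
      · omega
    exact (Fact.out : p.Prime).ne_one h2
  have hin₀ : ∀ 𝔓 : Ideal O₀, 𝔓.IsMaximal →
      ¬ p ^ 2 ∣ Nat.card {g : G // ∀ o : O₀, g • o - o ∈ 𝔓} := by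
    intro 𝔓 h𝔓
    by_cases hb : 𝔓 = ⊥
    · subst hb
      have h1 : Nat.card {g : G // ∀ o : O₀, g • o - o ∈ (⊥ : Ideal O₀)} = 1 := by
        rw [Nat.card_eq_one_iff_exists]
        refine ⟨⟨1, fun o => by rw [one_smul, sub_self]; exact Ideal.zero_mem _⟩, fun g => ?_⟩
        apply Subtype.ext
        refine FaithfulSMul.eq_of_smul_eq_smul (α := O₀) fun o => ?_
        have h2 := g.2 o
        rw [Ideal.mem_bot, sub_eq_zero] at h2
        rw [h2, one_smul]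
      rw [h1]
      exact hp1
    · obtain ⟨V, hOV, hg⟩ := hINV O₀ M G (MulSemiringAction.toRingAut G M)
        (MulSemiringAction.toRingAut G O₀) (fun _ _ => rfl) 𝔓 h𝔓 hb
      have h1 := hin V (fun c => hOV (algebraMap κ O₀ c))
      have h2 : Nat.card {g : G // ∀ o : O₀, g • o - o ∈ 𝔓} = Nat.card {g : G // ∀ y ∈ V,
          ∃ e : V, e ∈ IsLocalRing.maximalIdeal V ∧ (e : M) = g • y - y} :=
        Nat.card_congr (Equiv.subtypeEquivRight fun g => hg g)
      rw [h2]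
      exact h1
  have hin₁ : ∀ 𝔓 : Ideal O₁, 𝔓.IsMaximal →
      ¬ p ^ 2 ∣ Nat.card {g : G // ∀ o : O₁, g • o - o ∈ 𝔓} := by
    intro 𝔓 h𝔓
    by_cases hb : 𝔓 = ⊥
    · subst hb
      have h1 : Nat.card {g : G // ∀ o : O₁, g • o - o ∈ (⊥ : Ideal O₁)} = 1 := by
        rw [Nat.card_eq_one_iff_exists]
        refine ⟨⟨1, fun o => by rw [one_smul, sub_self]; exact Ideal.zero_mem _⟩, fun g => ?_⟩
        apply Subtype.ext
        refine FaithfulSMul.eq_of_smul_eq_smul (α := O₁) fun o => ?_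
        have h2 := g.2 o
        rw [Ideal.mem_bot, sub_eq_zero] at h2
        rw [h2, one_smul]
      rw [h1]
      exact hp1
    · obtain ⟨V, hOV, hg⟩ := hINV O₁ M G (MulSemiringAction.toRingAut G M)
        (MulSemiringAction.toRingAut G O₁) (fun _ _ => rfl) 𝔓 h𝔓 hb
      have h1 := hin V (fun c => hOV (algebraMap κ O₁ c))
      have h2 : Nat.card {g : G // ∀ o : O₁, g • o - o ∈ 𝔓} = Nat.card {g : G // ∀ y ∈ V,
          ∃ e : V, e ∈ IsLocalRing.maximalIdeal V ∧ (e : M) = g • y - y} :=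
        Nat.card_congr (Equiv.subtypeEquivRight fun g => hg g)
      rw [h2]
      exact h1
  obtain ⟨k₀, _, _, _, _, _, _, _, _, _, _, T₀, e₀, W₀, hT₀, hyp₀, hW₀, hk₀⟩ := piece_data hTAMF κ p
    M K Y G ρ hfixY O₀ (fun g o => hsem g o) hin₀ Λ x hxi hxgen m z hz0 σ hσ hz3 hU
  obtain ⟨k₁, _, _, _, _, _, _, _, _, _, _, T₁, e₁, W₁, hT₁, hyp₁, hW₁, hk₁⟩ := piece_data hTAMF κ p
    M K Y G ρ hfixY O₁ (fun g o => hsem g o) hin₁ Λ x hxi hxgen m z hz0 σ hσ hz3 hU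
  -- the functions
  obtain ⟨tY, htY⟩ := (hfixY (algebraMap M K t)).1 fun g => by rw [hsem, hgt]
  obtain ⟨fY, hfY⟩ := (hfixY (algebraMap M K f)).1 fun g => by rw [hsem, hgf]
  have htY' : algebraMap Y K tY = algebraMap M K t := htY
  have hfY' : algebraMap Y K fY = algebraMap M K f := hfY
  have htf : algebraMap Y K (tY * fY) = algebraMap M K (t * f) := by
    rw [map_mul, map_mul, htY', hfY']
  have hti : algebraMap Y K tY⁻¹ = algebraMap M K t⁻¹ := by
    rw [map_inv₀, map_inv₀, htY']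
  have hlift₀ : ∀ (y : Y) (w : M), w ∈ O₀ → (∀ g : G, g • w = w) →
      algebraMap Y K y = algebraMap M K w → ∃ c : k₀, algebraMap k₀ Y c = y := by
    intro y w hw hgw hyw
    obtain ⟨c, hc⟩ := hk₀ ⟨w, hw⟩ fun g => Subtype.ext (hgw g)
    refine ⟨c, (algebraMap Y K).injective ?_⟩
    rw [← IsScalarTower.algebraMap_apply k₀ Y K, IsScalarTower.algebraMap_apply k₀ O₀ K, hc, hyw]
    rfl
  have hlift₁ : ∀ (y : Y) (w : M), w ∈ O₁ → (∀ g : G, g • w = w) →
      algebraMap Y K y = algebraMap M K w → ∃ c : k₁, algebraMap k₁ Y c = y := by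
    intro y w hw hgw hyw
    obtain ⟨c, hc⟩ := hk₁ ⟨w, hw⟩ fun g => Subtype.ext (hgw g)
    refine ⟨c, (algebraMap Y K).injective ?_⟩
    rw [← IsScalarTower.algebraMap_apply k₁ Y K, IsScalarTower.algebraMap_apply k₁ O₁ K, hc, hyw]
    rfl
  have hgM : ∀ (g : G) (a b : M), g • (a / b) = (g • a) / (g • b) := by
    intro g a b
    exact map_div₀ (MulSemiringAction.toRingHom G M g) a b
  have hMinj := (algebraMap M K).injective
  refine core1 hEXT hRES hAT2 hSTEP hDOWN hMODEL hRAMF hGLW hGFF hCH hRWB hREGL hXG κ M Y K G ρ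
    hfixY m z k₀ O₀ T₀ hyp₀ e₀ W₀ hW₀ k₁ O₁ T₁ hyp₁ e₁ W₁ hW₁ d hd S hSf hS hSV ?_ tY fY δ ?_ ?_
    (hlift₀ _ t ht hgt htY') (hlift₀ _ f hf hgf hfY') (hlift₁ _ t⁻¹ ht' ?_ hti)
    (hlift₁ _ (t ^ δ / f) hf' ?_ ?_) ?_ ?_ ?_ ?_
  · intro V hVκ
    have h1 : ∀ c : κ, algebraMap κ M c ∈ V.comap (algebraMap M K) := by
      intro c
      rw [ValuationSubring.mem_comap, ← IsScalarTower.algebraMap_apply κ M K]
      exact hVκ c
    rcases hV _ h1 with h2 | h2
    · exact Or.inl fun y => ValuationSubring.mem_comap.1 (h2 y y.2)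
    · exact Or.inr fun y => ValuationSubring.mem_comap.1 (h2 y y.2)
  · rintro rfl
    rw [map_zero] at htY'
    exact ht0 (hMinj (by rw [← htY', map_zero]))
  · rintro rfl
    rw [map_zero] at hfY'
    exact hf0 (hMinj (by rw [← hfY', map_zero]))
  · intro g
    rw [smul_inv'', hgt]
  · intro g
    rw [hgM, smul_pow', hgt, hgf]
  · rw [map_div₀, map_div₀, map_pow, map_pow, htY', hfY']
  · intro y hy 𝔓 h𝔓 h𝔓0 ⟨g, hg1, hg⟩
    obtain ⟨e, he, hef⟩ := hr₀ 𝔓 h𝔓 h𝔓0 ⟨g, hg1, fun y => ⟨g • y - y, by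
      have h1 := hg y
      rwa [hT₀] at h1, rfl⟩⟩
    have h1 : y = ⟨t, ht⟩ * e := by
      apply Subtype.ext
      apply hMinj
      change algebraMap O₀ K y = algebraMap M K (t * e)
      rw [hy, hef, htf]
    rw [h1]
    exact Ideal.mul_mem_left _ _ he
  · intro y hy 𝔓 h𝔓 h𝔓0 ⟨g, hg1, hg⟩
    obtain ⟨e, he, hef⟩ := hr₁ 𝔓 h𝔓 h𝔓0 ⟨g, hg1, fun y => ⟨g • y - y, by
      have h1 := hg y
      rwa [hT₁] at h1, rfl⟩⟩
    have h1 : y = e := by
      apply Subtype.ext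
      apply hMinj
      change algebraMap O₁ K y = algebraMap M K e
      rw [hy, hef, hti]
    rw [h1]
    exact he
  · intro y
    obtain ⟨r, hr⟩ := h10 y y.2
    refine ⟨r, ⟨_, hr⟩, ?_⟩
    change _ = algebraMap M K ((t * f) ^ r * y)
    rw [htf, map_mul _ _ (y : M), map_pow]
    rfl
  · intro y
    obtain ⟨r, hr⟩ := h01 y y.2
    refine ⟨r, ⟨_, hr⟩, ?_⟩
    change _ = algebraMap M K (t⁻¹ ^ r * y)
    rw [hti, map_mul, map_pow]
    rfl

end Pool.Agent.K3h75.FF
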