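import Pool.Agent.K3h75.FF.Pc

/-!
# Gluing of the charts over different affine pieces of a projective curve
-/

set_option autoImplicit false
set_option linter.unusedSectionVars false
set_option linter.overlappingInstances false

namespace Pool.Agent.K3h75.FF

open Pool.Agent.Y223.G Pool.Agent.R383.TM Pool.Agent.Y858.H

theorem ext2_res {k Y K K₂ : Type} [CommRing k] [Field Y] [Field K] [Field K₂] [Algebra k Y]
    [Algebra Y K] [Algebra k K] [IsScalarTower k Y K] [Algebra Y K₂] [Algebra k K₂]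
    [IsScalarTower k Y K₂] {ε : LP K →ₐ[Y] K₂} (h : Ext2 ε) : Ext2 (ε.restrictScalars k) :=
  ⟨h.inj, h.frac⟩

section

variable {k O k' O' Y K G : Type} [CommRing k] [IsDomain k] [IsNoetherianRing k]
    [CommRing O] [IsDomain O]
    [IsDedekindDomain O] [CommRing k'] [IsDomain k'] [IsNoetherianRing k']
    [CommRing O'] [IsDomain O']
    [IsDedekindDomain O'] [Field Y] [Field K] [Group G] [Finite G] [Algebra k O]
    [Algebra O K] [Algebra k K] [IsScalarTower k O K] [Algebra k Y] [Algebra Y K]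
    [IsScalarTower k Y K] [Algebra k' O']
    [Algebra O' K] [Algebra k' K] [IsScalarTower k' O' K] [Algebra k' Y]
    [IsScalarTower k' Y K] {Y₂ K₂ : Type} [Field Y₂] [Field K₂] [Algebra Y Y₂] [Algebra Y K₂]
    [Algebra k Y₂] [Algebra k K₂] [IsScalarTower k Y Y₂] [IsScalarTower k Y K₂]
    [Algebra k' Y₂] [Algebra k' K₂] [IsScalarTower k' Y Y₂] [IsScalarTower k' Y K₂]

/-- **Gluing of the charts over different affine pieces.** -/
theorem cross (hXG : S_XG) {m : ℕ} {T : G →* (O ≃ₐ[k] O)} {T' : G →* (O' ≃ₐ[k'] O')}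
    {ι₂ : Y₂ →ₐ[Y] K₂} {εY : LP Y →ₐ[Y] Y₂} {ε : LP K →ₐ[Y] K₂} (hε : Ext2 ε)
    {z : Fin (m + 1) → K} {d : ℕ} {S : Set K} (hS0 : ∀ Φ ∈ S, Φ ≠ 0) {β β' : Type}
    {c : β → Cht k O K m} {c' : β' → Cht k' O' K m} (hc : IsPc T ι₂ εY ε z d S c)
    (hc' : IsPc T' ι₂ εY ε z d S c') (e e' τ : K) (he0 : e' ≠ 0)
    (he : ∃ e₀ : O, algebraMap O K e₀ = e ∧ VanR T e₀)
    (he' : ∃ e₀ : O', algebraMap O' K e₀ = e' ∧ VanR T' e₀)
    (h1 : ∃ y : O, algebraMap O K y = e'⁻¹)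
    (hB : ∀ y : O', ∃ (r : ℕ) (x : O), e ^ r * algebraMap O' K y = algebraMap O K x)
    (hC : ∃ y : O, algebraMap O K y = τ)
    (hA : ∀ b', ∃ y : O, τ * algebraMap k' K (c' b').s = e * algebraMap O K y) (b : β) (b' : β')
    (Φ : K) (hΦ : Φ ∈ S) :
    Glu ε ((c b).R ε z d Φ : Set (LP K₂)) ((c' b').R ε z d Φ)
      (τ * algebraMap k' K (c' b').s / algebraMap k K (c b).s) := by
  obtain ⟨e₀, rfl, he₀⟩ := he
  obtain ⟨e₁, rfl, he₁⟩ := he'
  obtain ⟨y₁, hy₁⟩ := h1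
  obtain ⟨τ₀, rfl⟩ := hC
  obtain ⟨y₂, hy₂⟩ := hA b'
  obtain ⟨s, hs⟩ : ∃ s, s = algebraMap k K (c b).s := ⟨_, rfl⟩
  obtain ⟨s', hs'⟩ : ∃ s', s' = algebraMap k' K (c' b').s := ⟨_, rfl⟩
  obtain ⟨B, hBB⟩ : ∃ B, B = OL O (K := K) (c b).s := ⟨_, rfl⟩
  have hs0 : s ≠ 0 := by rw [hs]; exact hc.s0 b
  have hmemB : ∀ x, x ∈ B ↔ ∃ (n : ℕ) (y : O), s ^ n * x = algebraMap O K y := by
    intro x
    rw [hBB, hs]
    rfl
  have hOB : ∀ y : O, algebraMap O K y ∈ B := by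
    intro y
    rw [hmemB]
    exact ⟨0, y, by rw [pow_zero, one_mul]⟩
  have hsB : s⁻¹ ∈ B := by
    rw [hmemB]
    exact ⟨1, 1, by rw [pow_one, mul_inv_cancel₀ hs0, map_one]⟩
  obtain ⟨ν, hν⟩ : ∃ ν, ν = algebraMap O K τ₀ * s' / s := ⟨_, rfl⟩
  rw [← hs'] at hy₂
  have hν2 : ν = algebraMap O K e₀ * (algebraMap O K y₂ * s⁻¹) := by
    rw [hν, hy₂, div_eq_mul_inv, mul_assoc]
  have hyB : algebraMap O K y₂ * s⁻¹ ∈ B := B.mul_mem (hOB _) hsB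
  have hνB : ν ∈ B := by
    rw [hν2]
    exact B.mul_mem (hOB _) hyB
  have hνx : ∀ x ∈ OL O' (K := K) (c' b').s, ∃ n : ℕ, ν ^ n * x ∈ B := by
    rintro x ⟨M, y, hy⟩
    obtain ⟨r, x', hx'⟩ := hB y
    refine ⟨r + M, ?_⟩
    rw [← hs'] at hy
    have e1 : ν ^ (r + M) * x = (algebraMap O K y₂ * s⁻¹) ^ r * (algebraMap O K τ₀) ^ M *
        (s⁻¹) ^ M * (algebraMap O K e₀ ^ r * algebraMap O' K y) := by
      rw [← hy, pow_add]
      have e2 : ν ^ r = algebraMap O K e₀ ^ r * (algebraMap O K y₂ * s⁻¹) ^ r := by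
        rw [hν2, mul_pow]
      have e3 : ν ^ M = (algebraMap O K τ₀) ^ M * s' ^ M * (s⁻¹) ^ M := by
        rw [hν, div_eq_mul_inv, mul_pow, mul_pow]
      rw [e2, e3]
      ring
    rw [e1, hx']
    exact B.mul_mem (B.mul_mem (B.mul_mem (pow_mem hyB _) (pow_mem (hOB _) _))
      (pow_mem hsB _)) (hOB _)
  have hfin := hc.fin b
  have hfin' := hc'.fin b'
  have hνi : ∀ (h : ν ∈ OL O (K := K) (c b).s) (i : (c b).N),
      (⟨ν, h⟩ : OL O (K := K) (c b).s) ∈ (c b).𝔔 i := by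
    intro h i
    have hy' : algebraMap O K y₂ * s⁻¹ ∈ OL O (K := K) (c b).s := by
      rw [← hBB]
      exact hyB
    have e1 : (⟨ν, h⟩ : OL O (K := K) (c b).s) =
        ⟨algebraMap O K e₀, mem_OLb _ e₀⟩ * ⟨algebraMap O K y₂ * s⁻¹, hy'⟩ :=
      Subtype.ext hν2
    rw [e1]
    exact Ideal.mul_mem_right _ _ (hc.r2 e₀ he₀ b i)
  have hπB : (c b).π ∈ B := by
    rw [hBB]
    exact hc.pm b
  have hπ' : (c' b').π ≠ 0 := hc'.p0 b'
  have hD : ∃ n : ℕ, ν ^ n * ((c' b').π / (c b).π) ∈ B ∧ ν ^ n * ((c b).π / (c' b').π) ∈ B := by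
    obtain ⟨n₁, hn₁⟩ := hνx _ (hc'.pm b')
    obtain ⟨n₂, hn₂⟩ := hνx _ (hc'.r1 e₁ he₁ b')
    have h2 := hc.r1 e₀ he₀ b
    rw [← hBB] at h2
    refine ⟨n₁ + n₂ + 1, ?_, ?_⟩
    · have e1 : ν ^ (n₁ + n₂ + 1) * ((c' b').π / (c b).π) = ν ^ n₂ * (ν ^ n₁ * (c' b').π) *
          (algebraMap O K e₀ / (c b).π * (algebraMap O K y₂ * s⁻¹)) := by
        have e2 : ν ^ (n₁ + n₂ + 1) = ν ^ n₁ * ν ^ n₂ *
            (algebraMap O K e₀ * (algebraMap O K y₂ * s⁻¹)) := by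
          rw [← hν2]
          ring
        rw [e2]
        simp only [div_eq_mul_inv]
        ring
      rw [e1]
      exact B.mul_mem (B.mul_mem (pow_mem hνB _) hn₁) (B.mul_mem h2 hyB)
    · have e1 : ν ^ (n₁ + n₂ + 1) * ((c b).π / (c' b').π) = ν ^ (n₁ + 1) * (c b).π *
          (ν ^ n₂ * (algebraMap O' K e₁ / (c' b').π)) * algebraMap O K y₁ := by
        rw [hy₁]
        have e3 : ν ^ (n₁ + 1) * (c b).π * (ν ^ n₂ * (algebraMap O' K e₁ / (c' b').π)) *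
            (algebraMap O' K e₁)⁻¹ = ν ^ (n₁ + 1) * ν ^ n₂ * ((c b).π * ((c' b').π)⁻¹) *
            (algebraMap O' K e₁ * (algebraMap O' K e₁)⁻¹) := by
          rw [div_eq_mul_inv]
          ring
        rw [e3, mul_inv_cancel₀ he0, mul_one, div_eq_mul_inv]
        ring
      rw [e1]
      exact B.mul_mem (B.mul_mem (B.mul_mem (pow_mem hνB _) hπB) hn₂) (hOB _)
  have hX := hXG k k' O O' K K₂ Unit (ε.restrictScalars k) (ε.restrictScalars k')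
    (fun _ => rfl) (ext2_res hε) (ext2_res hε) m (fun _ => z) (c b).s (c' b').s (hc.s0 b)
    (hc'.s0 b') (c b).N (c' b').N (c b).𝔔 (c' b').𝔔 (c b).e (c' b').e (c b).W (c' b').W
    (hc.e0 b) (hc'.e0 b') (c b).π (c' b').π (hc.p0 b) (hc'.p0 b') d (fun _ => Φ)
    (fun _ => hS0 Φ hΦ) ν (by rw [← hBB]; exact hνB) (hνi _)
    (by rw [← hBB]; exact hνx) (by rw [← hBB]; exact hD)
  rw [← hs, ← hs', ← hν]
  exact hX

end

end Pool.Agent.K3h75.FF
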